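import Pool.Agent.Lib.LU2_PI.CStep

/-! # LU2, PI: bounds by a derivation -/

set_option autoImplicit false

open Polynomial

namespace Pool.Agent.LU2T

open Pool.Agent.H15JM (RVal)
open Pool.Agent.LU1

universe u

variable {k Ω : Type u} [Field k] [Field Ω] [Algebra k Ω] {v : RVal Ω} {r : ℕ}

/-- `δ a` has value at least `c`. -/
def DGe {E : IntermediateField k Ω} (v : RVal Ω) (δ : Derivation ℤ E E) (c : ℝ) (a : Ω) : Prop :=
  ∃ ha : a ∈ E, v.Ge c ((δ ⟨a, ha⟩ : E) : Ω)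

/-- `k` is finitely generated over the field of `p`-th powers. -/
def FinP (k : Type u) [Field k] (p : ℕ) : Prop :=
  ∃ T : Finset k, ∀ N : Subfield k, (∀ x, x ^ p ∈ N) → (∀ x ∈ T, x ∈ N) → N = ⊤

section DGe

variable {E : IntermediateField k Ω} {δ : Derivation ℤ E E}

theorem DGe.mono {c c' : ℝ} (h : c' ≤ c) {a : Ω} (ha : DGe v δ c a) : DGe v δ c' a :=
  ⟨ha.1, ha.2.mono h⟩

theorem DGe.zero {c : ℝ} : DGe v δ c 0 := by
  refine ⟨E.zero_mem, ?_⟩
  have h1 : (⟨0, E.zero_mem⟩ : E) = 0 := rfl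
  rw [h1, map_zero]
  exact RVal.Ge.zero

theorem DGe.one {c : ℝ} : DGe v δ c 1 := by
  refine ⟨E.one_mem, ?_⟩
  have h1 : (⟨1, E.one_mem⟩ : E) = 1 := rfl
  rw [h1, δ.map_one_eq_zero]
  exact RVal.Ge.zero

theorem DGe.add {c : ℝ} {a b : Ω} (ha : DGe v δ c a) (hb : DGe v δ c b) : DGe v δ c (a + b) := by
  obtain ⟨ha, ha'⟩ := ha
  obtain ⟨hb, hb'⟩ := hb
  refine ⟨E.add_mem ha hb, ?_⟩
  have h1 : (⟨a + b, E.add_mem ha hb⟩ : E) = ⟨a, ha⟩ + ⟨b, hb⟩ := rfl
  rw [h1, map_add]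
  exact ha'.add hb'

theorem DGe.neg {c : ℝ} {a : Ω} (ha : DGe v δ c a) : DGe v δ c (-a) := by
  obtain ⟨ha, ha'⟩ := ha
  refine ⟨E.neg_mem ha, ?_⟩
  have h1 : (⟨-a, E.neg_mem ha⟩ : E) = -⟨a, ha⟩ := rfl
  rw [h1, map_neg]
  exact ha'.neg

theorem DGe.sub {c : ℝ} {a b : Ω} (ha : DGe v δ c a) (hb : DGe v δ c b) : DGe v δ c (a - b) := by
  rw [sub_eq_add_neg]
  exact ha.add hb.neg

/-- The product rule. -/
theorem DGe.mul' {α β c d e : ℝ} {a b : Ω} (hav : v.Ge α a) (hbv : v.Ge β b)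
    (ha : DGe v δ c a) (hb : DGe v δ d b) (h1 : e ≤ c + β) (h2 : e ≤ α + d) :
    DGe v δ e (a * b) := by
  obtain ⟨ha, ha'⟩ := ha
  obtain ⟨hb, hb'⟩ := hb
  refine ⟨E.mul_mem ha hb, ?_⟩
  have h3 : (⟨a * b, E.mul_mem ha hb⟩ : E) = ⟨a, ha⟩ * ⟨b, hb⟩ := rfl
  rw [h3, Derivation.leibniz]
  change v.Ge e (a * ((δ ⟨b, hb⟩ : E) : Ω) + b * ((δ ⟨a, ha⟩ : E) : Ω))
  refine RVal.Ge.add ((hav.mul hb').mono h2) ?_
  rw [mul_comm b]
  exact (ha'.mul hbv).mono h1

/-- The product rule for elements of nonnegative value. -/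
theorem DGe.mul {c : ℝ} {a b : Ω} (hav : v.Ge 0 a) (hbv : v.Ge 0 b)
    (ha : DGe v δ c a) (hb : DGe v δ c b) : DGe v δ c (a * b) :=
  DGe.mul' hav hbv ha hb (by simp) (by simp)

/-- The rule for inverses. -/
theorem DGe.inv' {α c : ℝ} {a : Ω} (hav : v a = α) (ha : DGe v δ c a) :
    DGe v δ (c - 2 * α) a⁻¹ := by
  obtain ⟨ha, ha'⟩ := ha
  by_cases h0 : a = 0
  · subst h0
    rw [inv_zero]
    exact DGe.zero
  refine ⟨E.inv_mem ha, ?_⟩
  have h1 : (⟨a⁻¹, E.inv_mem ha⟩ : E) = (⟨a, ha⟩ : E)⁻¹ := rfl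
  rw [h1, Derivation.leibniz_inv]
  change v.Ge (c - 2 * α) (-(a⁻¹ ^ 2) * ((δ ⟨a, ha⟩ : E) : Ω))
  rw [neg_mul]
  refine RVal.Ge.neg ?_
  have h2 : v.Ge (-2 * α) (a⁻¹ ^ 2) := by
    intro _
    rw [v.map_pow (inv_ne_zero h0), v.map_inv h0, hav]
    push_cast
    linarith
  refine (h2.mul ha').mono (by linarith)

end DGe

theorem ge_of_R (B : BF k v) {a : Ω} (ha : a ∈ B.R) : v.Ge 0 a := B.nonneg a ha

/-- A bound for finitely many elements. -/
theorem exists_bound_finset {α : Type*} (T : Finset α) (g : α → ℝ) :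
    ∃ lam : ℝ, 0 ≤ lam ∧ ∀ t ∈ T, -lam ≤ g t := by
  classical
  refine ⟨∑ t ∈ T, |g t|, Finset.sum_nonneg fun t _ => abs_nonneg _, fun t ht => ?_⟩
  have h1 : |g t| ≤ ∑ t ∈ T, |g t| :=
    Finset.single_le_sum (f := fun t => |g t|) (fun t _ => abs_nonneg _) ht
  have h2 := neg_abs_le (g t)
  linarith

/-- The bound on the coefficient field. -/
theorem exists_bound_k (p : ℕ) [Fact p.Prime] [CharP k p] (hC : Ctx2 k v r) (hT : FinP k p)
    (E : IntermediateField k Ω) (δ : Derivation ℤ E E) :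
    ∃ lam : ℝ, 0 ≤ lam ∧ ∀ c : k, DGe v δ (-lam) (algebraMap k Ω c) := by
  classical
  obtain ⟨T, hT⟩ := hT
  have hchar : CharP E p := charP_of_injective_algebraMap (algebraMap k E).injective p
  obtain ⟨lam, h0, hlam⟩ := exists_bound_finset T
    fun t => v ((δ (algebraMap k E t) : E) : Ω)
  refine ⟨lam, h0, ?_⟩
  let N : Subfield k :=
    { carrier := {c | DGe v δ (-lam) (algebraMap k Ω c)}
      mul_mem' := by
        intro a b ha hb
        simp only [Set.mem_ofPred_eq] at ha hb ⊢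
        rw [map_mul]
        exact DGe.mul (hC.ge a) (hC.ge b) ha hb
      one_mem' := by
        simp only [Set.mem_ofPred_eq]
        rw [map_one]
        exact DGe.one
      add_mem' := by
        intro a b ha hb
        simp only [Set.mem_ofPred_eq] at ha hb ⊢
        rw [map_add]
        exact ha.add hb
      zero_mem' := by
        simp only [Set.mem_ofPred_eq]
        rw [map_zero]
        exact DGe.zero
      neg_mem' := by
        intro a ha
        simp only [Set.mem_ofPred_eq] at ha ⊢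
        rw [map_neg]
        exact ha.neg
      inv_mem' := by
        intro a ha
        simp only [Set.mem_ofPred_eq] at ha ⊢
        rw [map_inv₀]
        by_cases ha0 : a = 0
        · subst ha0
          rw [map_zero, inv_zero]
          exact DGe.zero
        · have h1 := DGe.inv' (hC.triv a ha0) ha
          rwa [mul_zero, sub_zero] at h1 }
  have hN : N = ⊤ := by
    refine hT N (fun x => ?_) fun x hx => ?_
    · change DGe v δ (-lam) (algebraMap k Ω (x ^ p))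
      refine ⟨E.algebraMap_mem _, ?_⟩
      have h1 : (⟨algebraMap k Ω (x ^ p), E.algebraMap_mem _⟩ : E) = (algebraMap k E x) ^ p := by
        rw [← map_pow]
        rfl
      rw [h1, der_pow_eq_zero]
      exact RVal.Ge.zero
    · change DGe v δ (-lam) (algebraMap k Ω x)
      exact ⟨E.algebraMap_mem _, fun _ => hlam x hx⟩
  intro c
  have h1 : c ∈ N := by rw [hN]; exact Subfield.mem_top c
  exact h1

/-- The bound on the monomials. -/
theorem exists_bound_χ (B : BF k v) (E : IntermediateField k Ω) (hE : ∀ f ∈ B.R, f ∈ E)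
    (δ : Derivation ℤ E E) :
    ∃ lam : ℝ, 0 ≤ lam ∧ ∀ γ ∈ B.Γ, DGe v δ (γ - lam) (B.χ γ) := by
  classical
  obtain ⟨S, hS⟩ := B.fg
  have hχE : ∀ γ ∈ B.Γ, B.χ γ ∈ E := by
    intro γ hγ
    rcases le_total 0 γ with h2 | h2
    · exact hE _ (B.χ_mem γ hγ h2)
    · have h3 := E.inv_mem (hE _ (B.χ_mem (-γ) (B.Γ.neg_mem hγ) (neg_nonneg.2 h2)))
      rwa [B.χ_neg hγ, inv_inv] at h3
  have hSΓ : ∀ γ ∈ S, γ ∈ B.Γ := fun γ hγ => by
    rw [← hS]; exact AddSubgroup.subset_closure hγ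
  obtain ⟨lam, h0, hlam⟩ := exists_bound_finset S.attach
    fun γ => v ((δ ⟨B.χ γ, hχE γ (hSΓ γ γ.2)⟩ : E) : Ω) - γ
  refine ⟨lam, h0, ?_⟩
  intro γ hγ
  have key : γ ∈ B.Γ ∧ DGe v δ (γ - lam) (B.χ γ) := by
    rw [← hS] at hγ
    induction hγ using AddSubgroup.closure_induction with
    | mem x hx =>
      refine ⟨hSΓ x hx, hχE x (hSΓ x hx), fun _ => ?_⟩
      have h1 := hlam ⟨x, hx⟩ (Finset.mem_attach _ _)
      simp only at h1
      linarith
    | zero =>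
      refine ⟨B.Γ.zero_mem, ?_⟩
      rw [B.χ_zero]
      exact DGe.one
    | add x y _ _ hx hy =>
      refine ⟨B.Γ.add_mem hx.1 hy.1, ?_⟩
      rw [B.χ_add x hx.1 y hy.1]
      refine DGe.mul' (α := x) (β := y) (fun _ => (B.χ_val x hx.1).ge)
        (fun _ => (B.χ_val y hy.1).ge) hx.2 hy.2 (by linarith) (by linarith)
    | neg x _ hx =>
      refine ⟨B.Γ.neg_mem hx.1, ?_⟩
      rw [B.χ_neg hx.1]
      exact (DGe.inv' (B.χ_val x hx.1) hx.2).mono (by linarith)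
  exact key.2

/-- A bound on generators gives a bound on the localized algebra. -/
theorem DGe.locv {E : IntermediateField k Ω} {δ : Derivation ℤ E E} {c : ℝ} {S : Set Ω}
    (hC : Ctx2 k v r) (hk : ∀ x : k, DGe v δ c (algebraMap k Ω x)) (hS : ∀ a ∈ S, DGe v δ c a)
    (hSv : ∀ a ∈ S, v.Ge 0 a) :
    ∀ a ∈ Pool.Agent.LU1.locv v (Algebra.adjoin k S), DGe v δ c a := by
  have h1 : ∀ a ∈ Algebra.adjoin k S, v.Ge 0 a := adjoin_nonneg2 hC hSv
  have h2 : ∀ a ∈ Algebra.adjoin k S, DGe v δ c a := by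
    intro a ha
    induction ha using Algebra.adjoin_induction with
    | mem x hx => exact hS x hx
    | algebraMap x => exact hk x
    | add x y _ _ hx hy => exact hx.add hy
    | mul x y hx' hy' hx hy => exact DGe.mul (h1 x hx') (h1 y hy') hx hy
  rintro a ⟨x, hx, y, hy, hy0, hvy, rfl⟩
  rw [div_eq_mul_inv]
  refine DGe.mul (h1 x hx) (fun _ => by rw [v.map_inv hy0, hvy, neg_zero]) (h2 x hx) ?_
  have h3 := DGe.inv' hvy (h2 y hy)
  rwa [mul_zero, sub_zero] at h3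

/-- Bounds on a frame. -/
theorem exists_bound (p : ℕ) [Fact p.Prime] [CharP k p] (hC : Ctx2 k v r) (hT : FinP k p)
    (B : BF k v) (E : IntermediateField k Ω) (hE : FracIs B.R E) (δ : Derivation ℤ E E) :
    ∃ lam : ℝ, (∀ a ∈ B.R, DGe v δ (-lam) a) ∧ (∀ γ ∈ B.Γ, DGe v δ (γ - lam) (B.χ γ)) := by
  classical
  obtain ⟨l1, h1, hk⟩ := exists_bound_k p hC hT E δ
  obtain ⟨l2, h2, hχ⟩ := exists_bound_χ B E hE.1 δ
  obtain ⟨F, hF⟩ := B.fgen
  have hFR : ∀ f ∈ F, f ∈ B.R := fun f hf => by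
    rw [hF]; exact le_locv _ (Algebra.subset_adjoin (Or.inl hf))
  obtain ⟨l3, h3, hl3⟩ := exists_bound_finset F.attach
    fun f => v ((δ ⟨(f : Ω), hE.1 _ (hFR f f.2)⟩ : E) : Ω)
  refine ⟨l1 + l2 + l3, ?_, fun γ hγ => (hχ γ hγ).mono (by linarith)⟩
  have key := DGe.locv (v := v) (δ := δ) (c := -(l1 + l2 + l3)) (r := r)
    (S := (F : Set Ω) ∪ B.χ '' {γ | γ ∈ B.Γ ∧ 0 ≤ γ}) hC
    (fun x => (hk x).mono (by linarith)) ?_ ?_
  · rw [← hF] at key
    exact key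
  · rintro a (ha | ⟨γ, ⟨hγ, h0⟩, rfl⟩)
    · refine ⟨hE.1 _ (hFR a ha), fun _ => ?_⟩
      have h4 := hl3 ⟨a, ha⟩ (Finset.mem_attach _ _)
      simp only at h4
      linarith
    · exact (hχ γ hγ).mono (by linarith)
  · rintro a (ha | ⟨γ, ⟨hγ, h0⟩, rfl⟩)
    · exact B.nonneg a (hFR a ha)
    · exact B.nonneg _ (B.χ_mem γ hγ h0)

/-- The powers of `y`. -/
theorem DGe.pow_y {B : BF k v} {E : IntermediateField k Ω} {δ : Derivation ℤ E E} {lam : ℝ}
    (h1 : DGe v δ (-lam) B.y) (l : ℕ) : DGe v δ (((l : ℝ) - 1) * v B.y - lam) (B.y ^ l) := by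
  induction l with
  | zero => rw [pow_zero]; exact DGe.one
  | succ l ih =>
    rw [pow_succ]
    refine DGe.mul' (α := l * v B.y) (β := v B.y) (fun _ => (v.map_pow B.y_ne l).ge)
      (fun _ => le_rfl) ih h1 ?_ ?_
    · push_cast
      linarith
    · push_cast
      linarith

theorem J_ge' (B : BF k v) {N : ℝ} {e : Ω} (he : e ∈ J B N) : v.Ge N e := by
  unfold J at he
  induction he using Submodule.span_induction with
  | mem z hz =>
    obtain ⟨γ, hγ, l, h0, h1, rfl⟩ := hz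
    intro _
    rw [v.map_mul (B.χ_ne γ hγ) (pow_ne_zero _ B.y_ne), B.χ_val γ hγ, v.map_pow B.y_ne]
    exact h1
  | zero => exact RVal.Ge.zero
  | add x y _ _ hx hy => exact hx.add hy
  | smul c x _ hx =>
    have h1 : c • x = (c : Ω) * x := rfl
    rw [h1]
    simpa using (B.nonneg _ c.2).mul hx

/-- Bounds on `J_N`. -/
theorem bound_J {B : BF k v} {E : IntermediateField k Ω} (hE : FracIs B.R E)
    {δ : Derivation ℤ E E} {lam : ℝ} (h1 : ∀ a ∈ B.R, DGe v δ (-lam) a)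
    (h2 : ∀ γ ∈ B.Γ, DGe v δ (γ - lam) (B.χ γ)) :
    ∃ mu : ℝ, ∀ N : ℝ, ∀ e ∈ J B N, DGe v δ (N - mu) e := by
  refine ⟨lam + v B.y, fun N e he => ?_⟩
  have hy := B.y_pos
  have he' := he
  unfold J at he'
  induction he' using Submodule.span_induction with
  | mem z hz =>
    obtain ⟨γ, hγ, l, h0, h3, rfl⟩ := hz
    refine DGe.mul' (α := γ) (β := l * v B.y) (fun _ => (B.χ_val γ hγ).ge)
      (fun _ => (v.map_pow B.y_ne l).ge) (h2 γ hγ) (DGe.pow_y (h1 _ B.y_mem) l) ?_ ?_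
    · linarith
    · linarith
  | zero => exact DGe.zero
  | add x y hx' hy' hx hy => exact (hx hx').add (hy hy')
  | smul c x hx' hx =>
    have h3 : c • x = (c : Ω) * x := rfl
    rw [h3]
    refine DGe.mul' (α := 0) (β := N) (B.nonneg _ c.2) (J_ge' B hx') (h1 c c.2) (hx hx') ?_ ?_
    · linarith
    · linarith

/-- The data of a step without growth. -/
theorem NG.data {B B' : BF k v} (h : NG B B') :
    B'.Γ = B.Γ ∧ v B.y ∈ B.Γ ∧ (∀ γ ∈ B.Γ, B'.χ γ = B.χ γ) ∧ (∃ c : k,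
      B.y = B.χ (v B.y) * (algebraMap k Ω c + B'.y)) ∧
      B'.R = locv v (Algebra.adjoin k
        ((B.R : Set Ω) ∪ B'.χ '' {γ | γ ∈ B'.Γ ∧ 0 ≤ γ} ∪ {B.w 1})) ∧ B.w 1 ∈ B'.R := by
  obtain ⟨c, hc⟩ := h
  have hG := hc.step
  have hβ : v B.y ∈ B.Γ := by simpa using hG.q_mem
  have hΓ : B'.Γ = B.Γ := by
    rw [hG.Γ_eq]
    refine sup_eq_left.2 ?_
    rw [AddSubgroup.zmultiples_le]
    exact hβ
  refine ⟨hΓ, hβ, fun γ hγ => ?_, ⟨c, ?_⟩, hG.R_eq, hG.un_w.1⟩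
  · have h1 := hG.χ_mul hγ 0
    rw [zpow_zero, mul_one, Int.cast_zero, zero_mul, add_zero] at h1
    rw [h1]
    simp
  · have h1 : B'.y = B.w 1 - algebraMap k Ω c := by
      rw [hc.y_eq, map_sub, aeval_X, aeval_C]
    rw [h1, BF.w, Nat.cast_one, one_mul, pow_one, add_sub_cancel,
      mul_div_cancel₀ _ (B.χ_ne _ hβ)]

/-- Bounds in a chain of steps without growth. -/
theorem bound_chain (p : ℕ) [Fact p.Prime] [CharP k p] (hC : Ctx2 k v r) (hT : FinP k p)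
    (Bs : ℕ → BF k v) (hNG : ∀ n, NG (Bs n) (Bs (n + 1))) (E : IntermediateField k Ω)
    (hE : FracIs (Bs 0).R E) (δ : Derivation ℤ E E) :
    ∃ lam : ℝ, ∀ n, (∀ a ∈ (Bs n).R, DGe v δ (-lam - bs (fun i => v (Bs i).y) n) a) ∧
      ∀ γ ∈ (Bs n).Γ, DGe v δ (γ - lam) ((Bs n).χ γ) := by
  obtain ⟨lam, hR, hχ⟩ := exists_bound p hC hT (Bs 0) E hE δ
  have hbnn : ∀ n, 0 ≤ bs (fun i => v (Bs i).y) n := by
    intro n
    induction n with
    | zero => rw [bs_zero]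
    | succ n ih =>
      rw [bs_succ]
      exact add_nonneg ih (Bs n).y_pos.le
  have key : ∀ n, (Bs n).Γ = (Bs 0).Γ ∧ (∀ γ ∈ (Bs 0).Γ, (Bs n).χ γ = (Bs 0).χ γ) ∧
      bs (fun i => v (Bs i).y) n ∈ (Bs 0).Γ ∧
      DGe v δ (-lam) ((Bs 0).χ (bs (fun i => v (Bs i).y) n) * (Bs n).y) ∧
      (∀ a ∈ (Bs n).R, DGe v δ (-lam - bs (fun i => v (Bs i).y) n) a) := by
    intro n
    induction n with
    | zero =>
      refine ⟨rfl, fun _ _ => rfl, ?_, ?_, fun a ha => ?_⟩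
      · rw [bs_zero]; exact (Bs 0).Γ.zero_mem
      · rw [bs_zero, (Bs 0).χ_zero, one_mul]
        exact hR _ (Bs 0).y_mem
      · rw [bs_zero, sub_zero]
        exact hR a ha
    | succ n ih =>
      obtain ⟨i1, i2, i3, i4, i5⟩ := ih
      obtain ⟨d1, d2, d3, ⟨c, d4⟩, d5, d6⟩ := (hNG n).data
      set b : ℝ := bs (fun i => v (Bs i).y) n with hb
      set β : ℝ := v (Bs n).y with hβ
      have hb' : bs (fun i => v (Bs i).y) (n + 1) = b + β := by rw [bs_succ]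
      have hb0 : 0 ≤ b := hbnn n
      have hβ0 : 0 < β := (Bs n).y_pos
      have hβΓ : β ∈ (Bs 0).Γ := by rw [← i1]; exact d2
      have hbβ : b + β ∈ (Bs 0).Γ := (Bs 0).Γ.add_mem i3 hβΓ
      have e1 : (Bs 0).χ (b + β) * (Bs (n + 1)).y =
          (Bs 0).χ b * (Bs n).y - algebraMap k Ω c * (Bs 0).χ (b + β) := by
        rw [i2 β hβΓ] at d4
        rw [(Bs 0).χ_add b i3 β hβΓ]
        linear_combination -((Bs 0).χ b) * d4
      have h4 : DGe v δ (-lam) ((Bs 0).χ (b + β) * (Bs (n + 1)).y) := by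
        rw [e1]
        refine i4.sub (DGe.mul' (α := 0) (β := b + β) (hC.ge c)
          (fun _ => ((Bs 0).χ_val _ hbβ).ge) (hR _ ((Bs 0).R.algebraMap_mem c)) (hχ _ hbβ) ?_ ?_)
        · linarith
        · linarith
      have h5 : DGe v δ (-lam - (b + β)) ((Bs (n + 1)).y) := by
        have e2 : (Bs (n + 1)).y = ((Bs 0).χ (b + β))⁻¹ *
            ((Bs 0).χ (b + β) * (Bs (n + 1)).y) := by
          rw [inv_mul_cancel_left₀ ((Bs 0).χ_ne _ hbβ)]
        rw [e2]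
        have h6 := DGe.inv' ((Bs 0).χ_val _ hbβ) (hχ _ hbβ)
        have h7 : v.Ge (b + β) ((Bs 0).χ (b + β) * (Bs (n + 1)).y) := by
          intro _
          rw [v.map_mul ((Bs 0).χ_ne _ hbβ) (Bs (n + 1)).y_ne, (Bs 0).χ_val _ hbβ]
          have := (Bs (n + 1)).y_pos
          linarith
        refine DGe.mul' (α := -(b + β)) (β := b + β) ?_ h7 h6 h4 (by linarith) (by linarith)
        intro _
        rw [v.map_inv ((Bs 0).χ_ne _ hbβ), (Bs 0).χ_val _ hbβ]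
      have h6 : DGe v δ (-lam - (b + β)) ((Bs n).w 1) := by
        have e3 : (Bs n).w 1 = algebraMap k Ω c + (Bs (n + 1)).y := by
          rw [BF.w, Nat.cast_one, one_mul, pow_one, div_eq_iff ((Bs n).χ_ne _ d2), mul_comm]
          exact d4
        rw [e3]
        exact ((hR _ ((Bs 0).R.algebraMap_mem c)).mono (by linarith)).add h5
      refine ⟨d1.trans i1, fun γ hγ => ?_, ?_, ?_, ?_⟩
      · rw [d3 γ (by rw [i1]; exact hγ), i2 γ hγ]
      · rw [hb']; exact hbβ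
      · rw [hb']; exact h4
      · rw [hb', d5]
        refine DGe.locv hC (fun x => (hR _ ((Bs 0).R.algebraMap_mem x)).mono (by linarith)) ?_ ?_
        · rintro a ((ha | ⟨γ, ⟨hγ, h0⟩, rfl⟩) | rfl)
          · exact (i5 a ha).mono (by linarith)
          · rw [d1, i1] at hγ
            rw [d3 γ (by rw [i1]; exact hγ), i2 γ hγ]
            exact (hχ γ hγ).mono (by linarith)
          · exact h6
        · rintro a ((ha | ⟨γ, ⟨hγ, h0⟩, rfl⟩) | rfl)
          · exact (Bs n).nonneg a ha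
          · exact (Bs (n + 1)).nonneg _ ((Bs (n + 1)).χ_mem γ hγ h0)
          · exact (Bs (n + 1)).nonneg _ d6
  refine ⟨lam, fun n => ⟨(key n).2.2.2.2, fun γ hγ => ?_⟩⟩
  rw [(key n).1] at hγ
  rw [(key n).2.1 γ hγ]
  exact hχ γ hγ

/-- In the stuck case the values are bounded. -/
theorem bdd_chain (p : ℕ) [Fact p.Prime] [CharP k p] (hC : Ctx2 k v r) (hT : FinP k p)
    (Bs : ℕ → BF k v) (hNG : ∀ n, NG (Bs n) (Bs (n + 1))) {f : Ω} (hf : f ∈ quo (Bs 0).R)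
    (hf0 : ∀ g ∈ quo (Bs 0).R, f ≠ g ^ p) {κ : ℝ} {D : ℕ} (hD : 2 ≤ D)
    (hSF : ∀ n, SF p (Bs n) f (κ + D * bs (fun i => v (Bs i).y) n) D) :
    BddAbove (Set.range (bs (fun i => v (Bs i).y))) := by
  have hchar : CharP (quo (Bs 0).R) p :=
    charP_of_injective_algebraMap (algebraMap k (quo (Bs 0).R)).injective p
  obtain ⟨δ, hδ⟩ := exists_derivation (p := p) (E := quo (Bs 0).R) (f := ⟨f, hf⟩) (by
    intro g hg
    refine hf0 g g.2 ?_
    exact congrArg Subtype.val hg)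
  have hE : FracIs (Bs 0).R (quo (Bs 0).R) := ⟨fun f hf => le_quo hf, fun g hg => hg⟩
  obtain ⟨lam, hlam⟩ := bound_chain p hC hT Bs hNG (quo (Bs 0).R) hE δ
  have hquo : ∀ n, quo (Bs n).R = quo (Bs 0).R := by
    intro n
    induction n with
    | zero => rfl
    | succ n ih =>
      obtain ⟨c, hc⟩ := hNG n
      rw [hc.step.ext.quo_eq, ih]
  have hbnn : ∀ n, 0 ≤ bs (fun i => v (Bs i).y) n := by
    intro n
    induction n with
    | zero => rw [bs_zero]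
    | succ n ih =>
      rw [bs_succ]
      exact add_nonneg ih (Bs n).y_pos.le
  refine ⟨lam - κ, ?_⟩
  rintro _ ⟨n, rfl⟩
  obtain ⟨hκ, g, hg, u, hu, η, hη, hη0, a, ha, heq, -⟩ := hSF n
  obtain ⟨hR, hχ⟩ := hlam n
  set b : ℝ := bs (fun i => v (Bs i).y) n with hb
  have hb0 : 0 ≤ b := hbnn n
  rw [hquo n] at hg
  have hz : u * (Bs n).y ^ D + (Bs n).χ η * a ∈ (Bs n).R :=
    (Bs n).R.add_mem ((Bs n).R.mul_mem hu.1 ((Bs n).R.pow_mem (Bs n).y_mem D))
      ((Bs n).R.mul_mem ((Bs n).χ_mem η hη hη0.le) ha)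
  have h1 : DGe v δ (κ + D * b - lam - b) (f - g ^ p) := by
    rw [heq]
    refine DGe.mul' (α := κ + D * b) (β := 0) (fun _ => ((Bs n).χ_val _ hκ).ge)
      ((Bs n).nonneg _ hz) (hχ _ hκ) (hR _ hz) (by linarith) (by linarith)
  obtain ⟨h2, h3⟩ := h1
  have h4 : (⟨f - g ^ p, h2⟩ : quo (Bs 0).R) = ⟨f, hf⟩ - (⟨g, hg⟩ : quo (Bs 0).R) ^ p := rfl
  rw [h4, map_sub, hδ, der_pow_eq_zero, sub_zero] at h3
  have h5 : v.Ge (κ + D * b - lam - b) (1 : Ω) := h3
  have h6 := h5 one_ne_zero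
  rw [v.map_one] at h6
  have h7 : (2 : ℝ) ≤ D := by exact_mod_cast hD
  nlinarith

end Pool.Agent.LU2T
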