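import Pool.Agent.Lib.LU2_base.GStep
import Pool.Agent.Lib.LU2_h90.Stuck

/-!
# LU2, PI: G-steps and C-steps (steps in a frame with coefficient field `k`)
-/

set_option autoImplicit false

open Polynomial

namespace Pool.Agent.LU1

open Pool.Agent.H15JM (RVal)

universe u

variable {k Ω : Type u} [Field k] [Field Ω] [Algebra k Ω] {v : RVal Ω} {r : ℕ}

namespace IsGStep

variable {B B' : BF k v} {q : ℕ} {M : B.R[X]} {s : ℝ → ℤ → ℤ}

theorem w_ne (h : IsGStep B B' q M s) : B.w q ≠ 0 :=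
  div_ne_zero (pow_ne_zero _ B.y_ne) (B.χ_ne _ h.q_mem)

theorem v_w (h : IsGStep B B' q M s) : v (B.w q) = 0 := by
  rw [BF.w, v.map_div (pow_ne_zero _ B.y_ne) (B.χ_ne _ h.q_mem), v.map_pow B.y_ne,
    B.χ_val _ h.q_mem, sub_self]

theorem un_w (h : IsGStep B B' q M s) : B'.Un (B.w q) := by
  refine ⟨?_, h.w_ne, h.v_w⟩
  rw [h.R_eq]
  exact le_locv _ (Algebra.subset_adjoin (Or.inr rfl))

theorem Γ_le (h : IsGStep B B' q M s) {γ : ℝ} (hγ : γ ∈ B.Γ) : γ ∈ B'.Γ := by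
  rw [h.Γ_eq]; exact AddSubgroup.mem_sup_left hγ

theorem β_mem (h : IsGStep B B' q M s) : v B.y ∈ B'.Γ := by
  rw [h.Γ_eq]
  exact AddSubgroup.mem_sup_right (AddSubgroup.mem_zmultiples _)

theorem R_le (h : IsGStep B B' q M s) : B.R ≤ B'.R := by
  intro f hf
  rw [h.R_eq]
  exact le_locv _ (Algebra.subset_adjoin (Or.inl (Or.inl hf)))

/-- `χ(γ) y^l = χ'(γ + l β) w^(s γ l)`. -/
theorem χ_mul (h : IsGStep B B' q M s) {γ : ℝ} (hγ : γ ∈ B.Γ) (l : ℤ) :
    B.χ γ * B.y ^ l = B'.χ (γ + l * v B.y) * (B.w q) ^ (s γ l) := by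
  rw [h.χ_eq γ hγ l, mul_assoc, ← zpow_add₀ h.w_ne, neg_add_cancel, zpow_zero, mul_one]

/-- Every element of `Γ'` is `γ + l β`. -/
theorem mem_Γ' (h : IsGStep B B' q M s) {γ' : ℝ} (hγ' : γ' ∈ B'.Γ) :
    ∃ γ ∈ B.Γ, ∃ l : ℤ, γ' = γ + l * v B.y := by
  rw [h.Γ_eq] at hγ'
  obtain ⟨γ, hγ, z, hz, rfl⟩ := AddSubgroup.mem_sup.1 hγ'
  obtain ⟨l, rfl⟩ := AddSubgroup.mem_zmultiples_iff.1 hz
  exact ⟨γ, hγ, l, by rw [zsmul_eq_mul]⟩

theorem ext (h : IsGStep B B' q M s) : Ext B B' := by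
  refine ⟨h.R_le, fun γ hγ => h.Γ_le hγ, fun γ hγ => ?_, fun f hf => ?_⟩
  · have h1 := h.χ_mul hγ 0
    rw [zpow_zero, mul_one, Int.cast_zero, zero_mul, add_zero] at h1
    rw [h1, mul_div_cancel_left₀ _ (B'.χ_ne γ (h.Γ_le hγ))]
    exact h.un_w.zpow _
  · -- the quotients of elements of `R` form a subfield
    have key : ∀ g ∈ Algebra.adjoin k
        ((B.R : Set Ω) ∪ B'.χ '' {γ | γ ∈ B'.Γ ∧ 0 ≤ γ} ∪ {B.w q}),
        ∃ a ∈ B.R, ∃ b ∈ B.R, b ≠ 0 ∧ g = a / b := by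
      -- quotients are closed under multiplication, addition and inverse
      have hmul : ∀ f g : Ω, (∃ a ∈ B.R, ∃ b ∈ B.R, b ≠ 0 ∧ f = a / b) →
          (∃ a ∈ B.R, ∃ b ∈ B.R, b ≠ 0 ∧ g = a / b) →
          ∃ a ∈ B.R, ∃ b ∈ B.R, b ≠ 0 ∧ f * g = a / b := by
        rintro f g ⟨a, ha, b, hb, hb0, rfl⟩ ⟨c, hc, d, hd, hd0, rfl⟩
        exact ⟨a * c, B.R.mul_mem ha hc, b * d, B.R.mul_mem hb hd, mul_ne_zero hb0 hd0, by
          rw [div_mul_div_comm]⟩
      have hadd : ∀ f g : Ω, (∃ a ∈ B.R, ∃ b ∈ B.R, b ≠ 0 ∧ f = a / b) →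
          (∃ a ∈ B.R, ∃ b ∈ B.R, b ≠ 0 ∧ g = a / b) →
          ∃ a ∈ B.R, ∃ b ∈ B.R, b ≠ 0 ∧ f + g = a / b := by
        rintro f g ⟨a, ha, b, hb, hb0, rfl⟩ ⟨c, hc, d, hd, hd0, rfl⟩
        exact ⟨a * d + b * c, B.R.add_mem (B.R.mul_mem ha hd) (B.R.mul_mem hb hc), b * d,
          B.R.mul_mem hb hd, mul_ne_zero hb0 hd0, by rw [div_add_div _ _ hb0 hd0]⟩
      have hinv : ∀ f : Ω, (∃ a ∈ B.R, ∃ b ∈ B.R, b ≠ 0 ∧ f = a / b) →
          ∃ a ∈ B.R, ∃ b ∈ B.R, b ≠ 0 ∧ f⁻¹ = a / b := by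
        rintro f ⟨a, ha, b, hb, hb0, rfl⟩
        by_cases ha0 : a = 0
        · exact ⟨0, B.R.zero_mem, 1, B.R.one_mem, one_ne_zero, by simp [ha0]⟩
        · exact ⟨b, hb, a, ha, ha0, by rw [inv_div]⟩
      have hR : ∀ f ∈ B.R, ∃ a ∈ B.R, ∃ b ∈ B.R, b ≠ 0 ∧ f = a / b := fun f hf =>
        ⟨f, hf, 1, B.R.one_mem, one_ne_zero, by rw [div_one]⟩
      have hpow : ∀ f : Ω, (∃ a ∈ B.R, ∃ b ∈ B.R, b ≠ 0 ∧ f = a / b) → ∀ n : ℕ,
          ∃ a ∈ B.R, ∃ b ∈ B.R, b ≠ 0 ∧ f ^ n = a / b := by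
        intro f hf n
        induction n with
        | zero => simpa using hR 1 B.R.one_mem
        | succ n ih => rw [pow_succ]; exact hmul _ _ ih hf
      have hzpow : ∀ f : Ω, (∃ a ∈ B.R, ∃ b ∈ B.R, b ≠ 0 ∧ f = a / b) → ∀ n : ℤ,
          ∃ a ∈ B.R, ∃ b ∈ B.R, b ≠ 0 ∧ f ^ n = a / b := by
        intro f hf n
        cases n with
        | ofNat n => simpa using hpow f hf n
        | negSucc n => rw [zpow_negSucc]; exact hinv _ (hpow f hf _)
      have hχ : ∀ γ ∈ B.Γ, ∃ a ∈ B.R, ∃ b ∈ B.R, b ≠ 0 ∧ B.χ γ = a / b := by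
        intro γ hγ
        rcases le_total 0 γ with h0 | h0
        · exact hR _ (B.χ_mem γ hγ h0)
        · have h1 := hinv _ (hR _ (B.χ_mem (-γ) (B.Γ.neg_mem hγ) (neg_nonneg.2 h0)))
          rwa [B.χ_neg hγ, inv_inv] at h1
      have hw : ∃ a ∈ B.R, ∃ b ∈ B.R, b ≠ 0 ∧ B.w q = a / b := by
        rw [BF.w, div_eq_mul_inv]
        exact hmul _ _ (hpow _ (hR _ B.y_mem) q) (hinv _ (hχ _ h.q_mem))
      intro g hg
      induction hg using Algebra.adjoin_induction with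
      | mem x hx =>
        rcases hx with (hx | ⟨γ', ⟨hγ', -⟩, rfl⟩) | rfl
        · exact hR x hx
        · obtain ⟨γ, hγ, l, rfl⟩ := h.mem_Γ' hγ'
          rw [h.χ_eq γ hγ l]
          exact hmul _ _ (hmul _ _ (hχ γ hγ) (hzpow _ (hR _ B.y_mem) l)) (hzpow _ hw _)
        · exact hw
      | algebraMap c => exact hR _ (B.R.algebraMap_mem c)
      | add x y _ _ hx hy => exact hadd _ _ hx hy
      | mul x y _ _ hx hy => exact hmul _ _ hx hy
    rw [h.R_eq] at hf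
    obtain ⟨a, ha, b, hb, hb0, -, rfl⟩ := hf
    obtain ⟨a1, ha1, b1, hb1, hb10, rfl⟩ := key a ha
    obtain ⟨a2, ha2, b2, hb2, hb20, rfl⟩ := key b hb
    have ha20 : a2 ≠ 0 := by rintro rfl; simp at hb0
    exact ⟨a1 * b2, B.R.mul_mem ha1 hb2, b1 * a2, B.R.mul_mem hb1 ha2, mul_ne_zero hb10 ha20, by
      rw [div_div_div_eq]⟩

/-- After a G-step `y` is a monomial. -/
theorem mono_y (h : IsGStep B B' q M s) : B'.Mono B.y := by
  have h1 := h.χ_mul B.Γ.zero_mem 1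
  rw [B.χ_zero, one_mul, zpow_one, Int.cast_one, one_mul, zero_add] at h1
  rw [h1]
  exact (BF.Mono.χ h.β_mem).mul (BF.Mono.un (h.un_w.zpow _))

end IsGStep

theorem Ext.quo_eq {B B' : BF k v} (h : Ext B B') : quo B'.R = quo B.R := by
  refine le_antisymm ?_ (quo_mono h.le)
  rintro g ⟨a, ha, b, hb, -, rfl⟩
  exact (quo B.R).div_mem (h.frac a ha) (h.frac b hb)

end Pool.Agent.LU1

namespace Pool.Agent.LU2T

open Pool.Agent.H15JM (RVal)
open Pool.Agent.LU1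

universe u

variable {k Ω : Type u} [Field k] [Field Ω] [Algebra k Ω] {v : RVal Ω} {r : ℕ}

/-- `B → B'` is a C-step: a G-step with `M = h`, `h` irreducible over the coefficient field. -/
structure IsCStep (B B' : BF k v) (q : ℕ) (h : k[X]) (s : ℝ → ℤ → ℤ) : Prop where
  irr : Irreducible h
  monic : h.Monic
  step : IsGStep B B' q (h.map (algebraMap k B.R)) s

/-- A step without growth. -/
def NG (B B' : BF k v) : Prop := ∃ c : k, IsCStep B B' 1 (X - C c) (fun _ l => l)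

/-- The strong form `f ~ (κ, D)`. -/
def SF (p : ℕ) (B : BF k v) (f : Ω) (κ : ℝ) (D : ℕ) : Prop :=
  κ ∈ B.Γ ∧ ∃ g ∈ quo B.R, ∃ u, B.Un u ∧ ∃ δ ∈ B.Γ, 0 < δ ∧ ∃ a ∈ B.R,
    f - g ^ p = B.χ κ * (u * B.y ^ D + B.χ δ * a) ∧
    ((¬ ∃ δ ∈ B.Γ, κ = p * δ) ∨ ¬ p ∣ D ∨ ∀ t ∈ B.R, ¬ VPos v (u - t ^ p))

/-- The sums of elements `a χ(γ) y^l`, `a ∈ R`, `0 ≤ γ`, `N ≤ γ + l v(y)`. -/
def J (B : BF k v) (N : ℝ) : Submodule B.R Ω :=
  Submodule.span B.R {z | ∃ γ ∈ B.Γ, ∃ l : ℕ, 0 ≤ γ ∧ N ≤ γ + l * v B.y ∧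
    z = B.χ γ * B.y ^ l}

theorem aeval_map (B : BF k v) (w : Ω) (P : k[X]) :
    aeval w (P.map (algebraMap k B.R)) = aeval w P := aeval_map_algebraMap _ _ _

theorem aeval_const (w : Ω) (c : k) : aeval w (C c : k[X]) = algebraMap k Ω c := aeval_C _ _

/-- Values of polynomials with coefficients in `k` at a unit. -/
theorem ge_aeval (hk : ∀ c : k, v.Ge 0 (algebraMap k Ω c)) {w : Ω} (hw : v.Ge 0 w) (P : k[X]) :
    v.Ge 0 (aeval w P) := by
  rw [Polynomial.aeval_eq_sum_range]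
  have h1 : ∀ n : ℕ, v.Ge 0 (w ^ n) := by
    intro n
    induction n with
    | zero => rw [pow_zero]; intro _; rw [v.map_one]
    | succ n ih => rw [pow_succ]; simpa using ih.mul hw
  refine RVal.Ge.sum _ _ fun i _ => ?_
  rw [Algebra.smul_def]
  simpa using (hk _).mul (h1 i)

theorem vpos_mul_iff {a b : Ω} (_ha : v.Ge 0 a) (_hb : v.Ge 0 b) (h : VPos v (a * b)) :
    VPos v a ∨ VPos v b := by
  by_contra hcon
  push Not at hcon
  obtain ⟨h1, h2⟩ := hcon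
  unfold VPos at h1 h2
  push Not at h1 h2
  obtain ⟨ha0, ha1⟩ := h1
  obtain ⟨hb0, hb1⟩ := h2
  have h3 := h (mul_ne_zero ha0 hb0)
  rw [v.map_mul ha0 hb0] at h3
  linarith

theorem not_vpos_one : ¬ VPos v (1 : Ω) := by
  intro h
  have := h one_ne_zero
  rw [v.map_one] at this
  exact lt_irrefl _ this

/-- `h` irreducible with `VPos (h(w))`: `VPos (P(w)) ↔ h ∣ P`. -/
theorem vpos_iff_dvd (hk : ∀ c : k, v.Ge 0 (algebraMap k Ω c)) {w : Ω} (hw : v.Ge 0 w)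
    {h : k[X]} (hi : Irreducible h) (hv : VPos v (aeval w h)) (P : k[X]) :
    VPos v (aeval w P) ↔ h ∣ P := by
  constructor
  · intro hP
    by_contra hd
    have hcop : IsCoprime h P := (hi.coprime_iff_not_dvd).2 hd
    obtain ⟨a, b, hab⟩ := hcop
    apply not_vpos_one (v := v)
    rw [← map_one (aeval (R := k) w), ← hab, map_add, map_mul, map_mul]
    exact (VPos.mul' (ge_aeval hk hw a) hv).add (VPos.mul' (ge_aeval hk hw b) hP)
  · rintro ⟨Q, rfl⟩
    rw [map_mul]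
    exact hv.mul (ge_aeval hk hw Q)

/-- The minimal polynomial of a residue is irreducible. -/
theorem exists_irreducible (hC : Ctx2 k v r) {w : Ω} (hw : v.Ge 0 w) :
    ∃ h : k[X], h.Monic ∧ Irreducible h ∧ VPos v (aeval w h) := by
  classical
  have hex : ∃ n : ℕ, ∃ P : k[X], P.natDegree = n ∧ P.Monic ∧ VPos v (aeval w P) := by
    obtain ⟨P, hP, hv⟩ := hC.res' hw
    exact ⟨_, P, rfl, hP, hv⟩
  obtain ⟨h, hn, hm, hv⟩ := Nat.find_spec hex
  have hne1 : h ≠ 1 := by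
    rintro rfl
    rw [map_one] at hv
    exact not_vpos_one hv
  refine ⟨h, hm, ?_, hv⟩
  rw [hm.irreducible_iff_natDegree]
  refine ⟨hne1, fun f g hf hg hfg => ?_⟩
  rw [← hfg, map_mul] at hv
  have hdeg := congrArg natDegree hfg
  rw [hf.natDegree_mul hg] at hdeg
  rcases vpos_mul_iff (ge_aeval hC.ge hw f) (ge_aeval hC.ge hw g) hv with h1 | h1
  · right
    by_contra h2
    exact Nat.find_min hex (m := f.natDegree) (by omega) ⟨f, rfl, hf, h1⟩
  · left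
    by_contra h2
    exact Nat.find_min hex (m := g.natDegree) (by omega) ⟨g, rfl, hg, h1⟩

/-- In a frame with residue field `k` the minimal polynomials have coefficients in `k`. -/
theorem isMin_of_irreducible (hC : Ctx2 k v r) (B : BF k v) (hB : B.Res) {w : Ω}
    (hw : v.Ge 0 w) {h : k[X]} (hm : h.Monic) (hi : Irreducible h)
    (hv : VPos v (aeval w h)) : B.IsMin w (h.map (algebraMap k B.R)) := by
  refine ⟨hm.map _, by rw [aeval_map]; exact hv, fun P hdeg hP i => ?_⟩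
  rw [hm.natDegree_map] at hdeg
  choose c hc using fun f : B.R => hB f f.2
  set P0 : k[X] := ∑ i ∈ Finset.range (P.natDegree + 1), C (c (P.coeff i)) * X ^ i with hP0
  have hcoeff : ∀ i ∈ Finset.range (P.natDegree + 1), P0.coeff i = c (P.coeff i) := by
    intro i hi'
    rw [hP0, finsetSum_coeff, Finset.sum_eq_single i]
    · rw [coeff_C_mul, coeff_X_pow, if_pos rfl, mul_one]
    · intro j _ hj
      rw [coeff_C_mul, coeff_X_pow, if_neg hj.symm, mul_zero]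
    · intro h1; exact absurd hi' h1
  have hdiff : VPos v (aeval w P - aeval w P0) := by
    rw [Polynomial.aeval_eq_sum_range, hP0, map_sum, ← Finset.sum_sub_distrib]
    have hpow : ∀ n : ℕ, v.Ge 0 (w ^ n) := by
      intro n
      induction n with
      | zero => rw [pow_zero]; intro _; rw [v.map_one]
      | succ n ih => rw [pow_succ]; simpa using ih.mul hw
    have hs : ∀ t : Finset ℕ, VPos v (∑ i ∈ t,
        (P.coeff i • w ^ i - aeval w (C (c (P.coeff i)) * X ^ i : k[X]))) := by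
      intro t
      classical
      induction t using Finset.induction_on with
      | empty => rw [Finset.sum_empty]; exact VPos.zero
      | insert a t ha ih =>
        rw [Finset.sum_insert ha]
        refine VPos.add ?_ ih
        rw [Algebra.smul_def, map_mul, map_pow, aeval_X, aeval_C, ← sub_mul]
        exact (hc (P.coeff a)).mul (hpow a)
    exact hs _
  have h1 : VPos v (aeval w P0) := by
    have := hP.sub hdiff
    rwa [sub_sub_cancel] at this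
  rw [vpos_iff_dvd hC.ge hw hi hv] at h1
  have h2 : P0.natDegree < h.natDegree := by
    refine lt_of_le_of_lt ?_ hdeg
    rw [hP0]
    refine Polynomial.natDegree_sum_le_of_forall_le _ _ fun i hi' => ?_
    refine (natDegree_C_mul_X_pow_le _ _).trans ?_
    have := Finset.mem_range.1 hi'
    omega
  have h3 : P0 = 0 := by
    by_contra h0
    exact absurd (natDegree_le_of_dvd h1 h0) (not_le.2 h2)
  by_cases hi' : i ∈ Finset.range (P.natDegree + 1)
  · have h4 := hc (P.coeff i)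
    rw [← hcoeff i hi', h3, coeff_zero, map_zero, sub_zero] at h4
    exact h4
  · rw [coeff_eq_zero_of_natDegree_lt (by rw [Finset.mem_range] at hi'; omega)]
    exact VPos.zero

/-- C-steps exist. -/
theorem exists_cstep (hC : Ctx2 k v r) (B : BF k v) (hB : B.Res) :
    ∃ (B' : BF k v) (q : ℕ) (h : k[X]) (s : ℝ → ℤ → ℤ), IsCStep B B' q h s ∧
      (q = 1 → s = fun _ l => l) := by
  classical
  have key : ∃ (q : ℕ) (s : ℝ → ℤ → ℤ), LatData B.Γ (v B.y) q s ∧ (q = 1 → s = fun _ l => l) := by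
    by_cases hβ : v B.y ∈ B.Γ
    · exact ⟨1, fun _ l => l, latData_one B.y_pos hβ, fun _ => rfl⟩
    · have hex : ∃ m : ℕ, 0 < m ∧ (m : ℝ) * v B.y ∈ B.Γ := B.full B.y B.y_ne
      obtain ⟨s, hs, -, -⟩ := exists_s B.Γ B.fg (v B.y) B.y_pos (Nat.find hex)
        (Nat.find_spec hex).1 (Nat.find_spec hex).2
        (fun m hm hmΓ => Nat.find_min' hex ⟨hm, hmΓ⟩) ∅ (by simp) 1 (Or.inl rfl)
      refine ⟨_, s, hs, fun h1 => absurd ?_ hβ⟩
      have h2 := (Nat.find_spec hex).2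
      rw [h1, Nat.cast_one, one_mul] at h2
      exact h2
  obtain ⟨q, s, hL, hs⟩ := key
  have hw : B.y ^ q = B.χ (q * v B.y) * B.w q := by
    rw [BF.w, mul_div_cancel₀ _ (B.χ_ne _ hL.q_mem)]
  have hvw : v (B.w q) = 0 := BF.v_w_zero B.y_ne hL hw
  have hwge : v.Ge 0 (B.w q) := fun _ => hvw.ge
  obtain ⟨h, hm, hi, hv⟩ := exists_irreducible hC hwge
  obtain ⟨B', hB'⟩ := B.exists_gstep_of hC hL (isMin_of_irreducible hC B hB hwge hm hi hv)
  exact ⟨B', q, h, s, ⟨hi, hm, hB'⟩, hs⟩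

namespace IsCStep

variable {B B' : BF k v} {q : ℕ} {h : k[X]} {s : ℝ → ℤ → ℤ}

theorem wge (hG : IsCStep B B' q h s) : v.Ge 0 (B.w q) := fun _ => hG.step.v_w.ge

theorem vpos (hG : IsCStep B B' q h s) : VPos v (aeval (B.w q) h) := by
  have := hG.step.isMin.vpos
  rwa [aeval_map] at this

theorem y_eq (hG : IsCStep B B' q h s) : B'.y = aeval (B.w q) h := by
  rw [hG.step.y_eq, aeval_map]

theorem vpos_iff (hC : Ctx2 k v r) (hG : IsCStep B B' q h s) (P : k[X]) :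
    VPos v (aeval (B.w q) P) ↔ h ∣ P := vpos_iff_dvd hC.ge hG.wge hG.irr hG.vpos P

theorem not_dvd_X (hC : Ctx2 k v r) (hG : IsCStep B B' q h s) : ¬ h ∣ X := by
  rw [← hG.vpos_iff hC, aeval_X]
  intro h1
  have := h1 hG.step.w_ne
  rw [hG.step.v_w] at this
  exact lt_irrefl _ this

theorem aeval_mem (hG : IsCStep B B' q h s) (P : k[X]) : aeval (B.w q) P ∈ B'.R := by
  rw [Polynomial.aeval_eq_sum_range]
  refine B'.R.sum_mem fun i _ => ?_
  exact B'.R.smul_mem (B'.R.pow_mem hG.step.un_w.1 i) _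

/-- The values of `U` not divisible by `h` are units. -/
theorem un_aeval (hC : Ctx2 k v r) (hG : IsCStep B B' q h s) {U : k[X]} (hU : ¬ h ∣ U) :
    B'.Un (aeval (B.w q) U) := by
  rw [← hG.vpos_iff hC] at hU
  unfold VPos at hU
  push Not at hU
  obtain ⟨h0, h1⟩ := hU
  exact ⟨hG.aeval_mem U, h0, le_antisymm h1 (B'.nonneg _ (hG.aeval_mem U) h0)⟩

/-- The residue field of the new frame is generated by the residue of `w`. -/
theorem exists_residue (hC : Ctx2 k v r) (hB : B.Res) (hG : IsCStep B B' q h s) {f : Ω}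
    (hf : f ∈ B'.R) : ∃ T : k[X], VPos v (f - aeval (B.w q) T) := by
  have key : ∀ f ∈ Algebra.adjoin k
      ((B.R : Set Ω) ∪ B'.χ '' {γ | γ ∈ B'.Γ ∧ 0 ≤ γ} ∪ {B.w q}),
      f ∈ B'.R ∧ ∃ T : k[X], VPos v (f - aeval (B.w q) T) := by
    intro f hf
    induction hf using Algebra.adjoin_induction with
    | mem x hx =>
      rcases hx with (hx | ⟨γ, ⟨hγ, h0⟩, rfl⟩) | rfl
      · obtain ⟨c, hc⟩ := hB x hx
        exact ⟨hG.step.R_le hx, C c, by rw [aeval_C]; exact hc⟩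
      · refine ⟨B'.χ_mem γ hγ h0, ?_⟩
        rcases h0.lt_or_eq with h1 | h1
        · exact ⟨0, by rw [map_zero, sub_zero]; exact B'.vpos_χ hγ h1⟩
        · refine ⟨1, ?_⟩
          rw [← h1, B'.χ_zero, map_one, sub_self]
          exact VPos.zero
      · exact ⟨hG.step.un_w.1, X, by rw [aeval_X, sub_self]; exact VPos.zero⟩
    | algebraMap c =>
      exact ⟨B'.R.algebraMap_mem c, C c, by rw [aeval_C, sub_self]; exact VPos.zero⟩
    | add x y _ _ hx hy =>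
      obtain ⟨hx', P, hP⟩ := hx
      obtain ⟨hy', Q, hQ⟩ := hy
      refine ⟨B'.R.add_mem hx' hy', P + Q, ?_⟩
      have := hP.add hQ
      rw [map_add]
      convert this using 1
      ring
    | mul x y _ _ hx hy =>
      obtain ⟨hx', P, hP⟩ := hx
      obtain ⟨hy', Q, hQ⟩ := hy
      refine ⟨B'.R.mul_mem hx' hy', P * Q, ?_⟩
      have := (hP.mul (B'.nonneg y hy')).add (hQ.mul (ge_aeval hC.ge hG.wge P))
      rw [map_mul]
      convert this using 1
      ring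
  rw [hG.step.R_eq] at hf
  obtain ⟨a, ha, b, hb, hb0, hvb, rfl⟩ := hf
  obtain ⟨ha', P, hP⟩ := key a ha
  obtain ⟨hb', Q, hQ⟩ := key b hb
  have hQd : ¬ h ∣ Q := by
    rw [← hG.vpos_iff hC]
    intro h1
    have h2 := hQ.add h1
    rw [sub_add_cancel] at h2
    have h3 := h2 hb0
    rw [hvb] at h3
    exact lt_irrefl _ h3
  obtain ⟨A, Q', hab⟩ := (hG.irr.coprime_iff_not_dvd).2 hQd
  -- `A h + Q' Q = 1`
  refine ⟨P * Q', ?_⟩
  have hbi : v.Ge 0 b⁻¹ := fun _ => by rw [v.map_inv hb0, hvb, neg_zero]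
  have h1 : VPos v (1 - aeval (B.w q) Q' * b) := by
    have h2 : (1 : Ω) - aeval (B.w q) Q' * b =
        aeval (B.w q) A * aeval (B.w q) h - aeval (B.w q) Q' * (b - aeval (B.w q) Q) := by
      have h3 := congrArg (aeval (B.w q)) hab
      rw [map_add, map_mul, map_mul, map_one] at h3
      rw [← h3]
      ring
    rw [h2]
    exact (VPos.mul' (ge_aeval hC.ge hG.wge A) hG.vpos).sub
      (VPos.mul' (ge_aeval hC.ge hG.wge Q') hQ)
  have h4 : a / b - aeval (B.w q) (P * Q') =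
      a * b⁻¹ * (1 - aeval (B.w q) Q' * b) + (a - aeval (B.w q) P) * aeval (B.w q) Q' := by
    rw [map_mul]
    field_simp
    ring
  rw [h4]
  refine VPos.add (VPos.mul' ?_ h1) (hP.mul (ge_aeval hC.ge hG.wge Q'))
  have := (B'.nonneg a ha').mul hbi
  simpa using this

end IsCStep

/-- After a step without growth the residue field is still `k`. -/
theorem NG.res (hC : Ctx2 k v r) {B B' : BF k v} (hN : NG B B') (hB : B.Res) : B'.Res := by
  obtain ⟨c, hG⟩ := hN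
  intro f hf
  obtain ⟨T, hT⟩ := hG.exists_residue hC hB hf
  refine ⟨T.eval c, ?_⟩
  have h1 : (X - C c) ∣ T - C (T.eval c) := by
    rw [dvd_iff_isRoot, IsRoot.def, eval_sub, eval_C, sub_self]
  rw [← hG.vpos_iff hC, map_sub, aeval_C] at h1
  have := hT.add h1
  rwa [sub_add_sub_cancel] at this

end Pool.Agent.LU2T
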