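import Pool.Agent.Lib.LU2_base.GStep

/-! # LU2: coefficient fields of frames -/

set_option autoImplicit false

open Polynomial

namespace Pool.Agent.LU1

open Pool.Agent.H15JM (RVal)

universe u

variable {k Ω : Type u} [Field k] [Field Ω] [Algebra k Ω] {v : RVal Ω} {r : ℕ}

theorem BF.isUnit_iff (B : BF k v) (z : B.R) : IsUnit z ↔ ¬ VPos v (z : Ω) := by
  constructor
  · rintro ⟨u, rfl⟩ hv
    have h1 : ((u : B.R) : Ω) * ((u⁻¹ : B.Rˣ) : B.R) = 1 := by
      rw [← Subalgebra.coe_mul, Units.mul_inv, Subalgebra.coe_one]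
    have h2 : ((u : B.R) : Ω) ≠ 0 := left_ne_zero_of_mul (by rw [h1]; exact one_ne_zero)
    have h3 : (((u⁻¹ : B.Rˣ) : B.R) : Ω) ≠ 0 :=
      right_ne_zero_of_mul (by rw [h1]; exact one_ne_zero)
    have h4 := v.map_mul h2 h3
    rw [h1, v.map_one] at h4
    have h5 := hv h2
    have h6 := B.nonneg _ ((u⁻¹ : B.Rˣ) : B.R).2 h3
    linarith
  · intro hv
    unfold VPos at hv
    push Not at hv
    obtain ⟨h0, h1⟩ := hv
    have h2 : v (z : Ω) = 0 := le_antisymm h1 (B.nonneg _ z.2 h0)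
    exact IsUnit.of_mul_eq_one ⟨(z : Ω)⁻¹, B.loc _ z.2 h0 h2⟩
      (Subtype.ext (mul_inv_cancel₀ h0))

theorem BF.isLocalRing (B : BF k v) : IsLocalRing B.R := by
  refine IsLocalRing.of_nonunits_add fun a b ha hb => ?_
  rw [mem_nonunits_iff, B.isUnit_iff, not_not] at *
  rw [Subalgebra.coe_add]
  exact ha.add hb

attribute [local instance] BF.isLocalRing

theorem BF.residue_eq_zero (B : BF k v) (z : B.R) :
    IsLocalRing.residue B.R z = 0 ↔ VPos v (z : Ω) := by
  rw [IsLocalRing.residue_eq_zero_iff, IsLocalRing.mem_maximalIdeal, mem_nonunits_iff,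
    B.isUnit_iff, not_not]

/-- The residue field of a frame is finitely generated over the base field. -/
theorem BF.residue_fg (B : BF k v) : Algebra.EssFiniteType k (IsLocalRing.ResidueField B.R) := by
  classical
  rw [← IntermediateField.fg_top_iff]
  obtain ⟨F, hF⟩ := B.fgen
  have hFR : ∀ f ∈ F, f ∈ B.R := fun f hf => by
    rw [hF]; exact le_locv _ (Algebra.subset_adjoin (Or.inl hf))
  set S : Finset (IsLocalRing.ResidueField B.R) :=
    F.attach.image (fun f : {x // x ∈ F} => IsLocalRing.residue B.R ⟨(f : Ω), hFR f f.2⟩) with hS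
  refine ⟨S, ?_⟩
  rw [eq_top_iff]
  rintro x -
  set L := IntermediateField.adjoin k (S : Set (IsLocalRing.ResidueField B.R)) with hL
  have key : ∀ f ∈ Algebra.adjoin k ((F : Set Ω) ∪ B.χ '' {γ | γ ∈ B.Γ ∧ 0 ≤ γ}),
      ∃ hf : f ∈ B.R, IsLocalRing.residue B.R ⟨f, hf⟩ ∈ L := by
    intro f hf
    induction hf using Algebra.adjoin_induction with
    | mem x hx =>
      rcases hx with hx | ⟨γ, ⟨hγ, h0⟩, rfl⟩
      · refine ⟨hFR x hx, IntermediateField.subset_adjoin _ _ ?_⟩
        rw [hS, Finset.mem_coe, Finset.mem_image]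
        exact ⟨⟨x, hx⟩, Finset.mem_attach _ _, rfl⟩
      · refine ⟨B.χ_mem γ hγ h0, ?_⟩
        rcases h0.lt_or_eq with h1 | h1
        · have h2 : IsLocalRing.residue B.R ⟨B.χ γ, B.χ_mem γ hγ h0⟩ = 0 := by
            rw [B.residue_eq_zero]; exact B.vpos_χ hγ h1
          rw [h2]
          exact L.zero_mem
        · have h2 : (⟨B.χ γ, B.χ_mem γ hγ h0⟩ : B.R) = 1 := by
            apply Subtype.ext
            change B.χ γ = 1
            rw [← h1, B.χ_zero]
          rw [h2, map_one]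
          exact L.one_mem
    | algebraMap c =>
      refine ⟨B.R.algebraMap_mem c, ?_⟩
      exact L.algebraMap_mem c
    | add x y _ _ hx hy =>
      obtain ⟨hx', h1⟩ := hx
      obtain ⟨hy', h2⟩ := hy
      refine ⟨B.R.add_mem hx' hy', ?_⟩
      have h3 := L.add_mem h1 h2
      rw [← map_add] at h3
      exact h3
    | mul x y _ _ hx hy =>
      obtain ⟨hx', h1⟩ := hx
      obtain ⟨hy', h2⟩ := hy
      refine ⟨B.R.mul_mem hx' hy', ?_⟩
      have h3 := L.mul_mem h1 h2
      rw [← map_mul] at h3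
      exact h3
  obtain ⟨⟨f, hf⟩, rfl⟩ := IsLocalRing.residue_surjective x
  have hf' := hf
  rw [hF] at hf'
  obtain ⟨a, ha, b, hb, hb0, hvb, hab⟩ := hf'
  obtain ⟨ha', h1⟩ := key a ha
  obtain ⟨hb', h2⟩ := key b hb
  have h3 : IsLocalRing.residue B.R ⟨b, hb'⟩ ≠ 0 := by
    rw [Ne, B.residue_eq_zero]
    intro h4
    have h5 := h4 hb0
    change 0 < v b at h5
    rw [hvb] at h5
    exact lt_irrefl _ h5
  have h4 : IsLocalRing.residue B.R ⟨f, hf⟩ * IsLocalRing.residue B.R ⟨b, hb'⟩ =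
      IsLocalRing.residue B.R ⟨a, ha'⟩ := by
    rw [← map_mul]
    congr 1
    apply Subtype.ext
    change f * b = a
    rw [hab, div_mul_cancel₀ _ hb0]
  rw [eq_div_of_mul_eq h3 h4]
  exact L.div_mem h1 h2

/-- A subfield of the ring of a frame over which the residue field is generated by one
separable element. -/
theorem BF.exists_coef [PerfectField k] (B : BF k v) :
    ∃ (K0 : IntermediateField k Ω) (a : Ω) (μ : K0[X]), K0.FG ∧ (∀ x ∈ K0, x ∈ B.R) ∧
      Algebra.trdeg k K0 = Algebra.trdeg k (IsLocalRing.ResidueField B.R) ∧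
      a ∈ B.R ∧ μ.Monic ∧ Irreducible μ ∧ VPos v (aeval a μ) ∧
      ¬ VPos v (aeval a (derivative μ)) ∧ ∀ f ∈ B.R, ∃ P : K0[X], VPos v (f - aeval a P) := by
  classical
  have hfg := B.residue_fg
  set κ := IsLocalRing.ResidueField B.R with hκ
  set ρ : B.R →ₐ[k] κ := IsScalarTower.toAlgHom k B.R κ with hρ
  have hρ0 : ∀ z : B.R, ρ z = 0 ↔ VPos v (z : Ω) := B.residue_eq_zero
  have hρs : Function.Surjective ρ := IsLocalRing.residue_surjective
  obtain ⟨s, hs, hsep⟩ :=
    exists_isTranscendenceBasis_and_isSeparable_of_perfectField k κ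
  choose lift hlift using hρs
  set z : s → Ω := fun i => (lift (i : κ) : Ω) with hz
  set A := Algebra.adjoin k (Set.range z) with hA
  set K0 := IntermediateField.adjoin k (Set.range z) with hK0
  have hAR : ∀ x ∈ A, x ∈ B.R := by
    intro x hx
    have : A ≤ B.R := by
      refine Algebra.adjoin_le ?_
      rintro _ ⟨i, rfl⟩
      exact (lift (i : κ)).2
    exact this hx
  have hAev : ∀ x ∈ A, ∃ P : MvPolynomial s k, x = MvPolynomial.aeval z P := by
    intro x hx
    rw [hA, Algebra.adjoin_range_eq_range_aeval] at hx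
    obtain ⟨P, rfl⟩ := hx
    exact ⟨P, rfl⟩
  have hevR : ∀ P : MvPolynomial s k, ∃ hP : MvPolynomial.aeval z P ∈ B.R,
      ρ ⟨MvPolynomial.aeval z P, hP⟩ = MvPolynomial.aeval ((↑) : s → κ) P := by
    intro P
    have h1 : MvPolynomial.aeval z P =
        ((MvPolynomial.aeval (fun i : s => lift (i : κ)) P : B.R) : Ω) := by
      have := MvPolynomial.aeval_algebraMap_apply Ω (fun i : s => lift (i : κ)) P
      exact this
    have hm : MvPolynomial.aeval z P ∈ B.R := by rw [h1]; exact SetLike.coe_mem _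
    refine ⟨hm, ?_⟩
    have h2 : (⟨MvPolynomial.aeval z P, hm⟩ : B.R) =
        MvPolynomial.aeval (fun i : s => lift (i : κ)) P := Subtype.ext h1
    have h3 : ρ.comp (MvPolynomial.aeval (fun i : s => lift (i : κ))) =
        MvPolynomial.aeval ((↑) : s → κ) := by
      apply MvPolynomial.algHom_ext
      intro i
      rw [AlgHom.comp_apply, MvPolynomial.aeval_X, MvPolynomial.aeval_X]
      exact hlift _
    rw [h2]
    exact AlgHom.congr_fun h3 P
  have hAunit : ∀ x ∈ A, x ≠ 0 → x⁻¹ ∈ B.R := by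
    intro x hx hx0
    obtain ⟨P, rfl⟩ := hAev x hx
    obtain ⟨hP, h1⟩ := hevR P
    have hP0 : P ≠ 0 := by
      rintro rfl
      exact hx0 (map_zero _)
    have h2 : ρ ⟨MvPolynomial.aeval z P, hP⟩ ≠ 0 := by
      rw [h1]
      intro h3
      exact hP0 (hs.1 (by rw [h3, map_zero]))
    rw [Ne, hρ0] at h2
    unfold VPos at h2
    push Not at h2
    exact B.loc _ hP h2.1 (le_antisymm h2.2 (B.nonneg _ hP h2.1))
  have hKR : ∀ x ∈ K0, x ∈ B.R := by
    intro x hx
    rw [hK0, IntermediateField.mem_adjoin_iff_div] at hx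
    obtain ⟨a, ha, b, hb, rfl⟩ := hx
    by_cases hb0 : b = 0
    · rw [hb0, div_zero]; exact B.R.zero_mem
    · rw [div_eq_mul_inv]
      exact B.R.mul_mem (hAR a ha) (hAunit b hb hb0)
  have hKfg : K0.FG := by
    refine ⟨(Set.finite_range z).toFinset, ?_⟩
    rw [Set.Finite.coe_toFinset]
  -- the embedding of `K0` in the residue field
  let ι : K0 →ₐ[k] B.R :=
    { toFun := fun x => ⟨x, hKR x x.2⟩
      map_one' := rfl
      map_mul' := fun _ _ => rfl
      map_zero' := rfl
      map_add' := fun _ _ => rfl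
      commutes' := fun _ => rfl }
  let σ : K0 →ₐ[k] κ := ρ.comp ι
  let _ : Algebra K0 κ := σ.toRingHom.toAlgebra
  have htow : IsScalarTower k K0 κ := IsScalarTower.of_algebraMap_eq fun x => (σ.commutes x).symm
  have hzK : ∀ i : s, z i ∈ K0 := fun i => IntermediateField.subset_adjoin _ _ ⟨i, rfl⟩
  have hσz : ∀ i : s, σ ⟨z i, hzK i⟩ = i := fun i => hlift _
  have hrange : σ.fieldRange = IntermediateField.adjoin k (s : Set κ) := by
    apply le_antisymm
    · rintro _ ⟨⟨x, hx⟩, rfl⟩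
      rw [hK0, IntermediateField.mem_adjoin_iff_div] at hx
      obtain ⟨a, ha, b, hb, rfl⟩ := hx
      have haK : a ∈ K0 := IntermediateField.algebra_adjoin_le_adjoin _ _ ha
      have hbK : b ∈ K0 := IntermediateField.algebra_adjoin_le_adjoin _ _ hb
      have h1 : ∀ x (hx : x ∈ A) (hx' : x ∈ K0), σ ⟨x, hx'⟩ ∈
          IntermediateField.adjoin k (s : Set κ) := by
        intro x hx hx'
        obtain ⟨P, rfl⟩ := hAev x hx
        obtain ⟨hP, h1⟩ := hevR P
        have h2 : σ ⟨MvPolynomial.aeval z P, hx'⟩ = MvPolynomial.aeval ((↑) : s → κ) P := h1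
        rw [h2]
        apply IntermediateField.algebra_adjoin_le_adjoin
        have h3 := Algebra.adjoin_range_eq_range_aeval k ((↑) : s → κ)
        rw [Subtype.range_coe_subtype] at h3
        have h4 : {x | x ∈ s} = (s : Set κ) := rfl
        rw [h4] at h3
        rw [h3]
        exact ⟨P, rfl⟩
      have h2 : (⟨a / b, hx⟩ : K0) = ⟨a, haK⟩ / ⟨b, hbK⟩ := rfl
      change σ _ ∈ _
      rw [h2, map_div₀]
      exact IntermediateField.div_mem _ (h1 a ha haK) (h1 b hb hbK)
    · rw [IntermediateField.adjoin_le_iff]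
      intro x hx
      exact ⟨⟨z ⟨x, hx⟩, hzK ⟨x, hx⟩⟩, hσz ⟨x, hx⟩⟩
  have hsepK : Algebra.IsSeparable K0 κ := by
    let e : K0 ≃ₐ[k] IntermediateField.adjoin k (s : Set κ) :=
      (AlgEquiv.ofInjectiveField σ).trans (IntermediateField.equivOfEq hrange)
    refine Algebra.IsSeparable.of_equiv_equiv (A₁ := IntermediateField.adjoin k (s : Set κ))
      (B₁ := κ) e.symm.toRingEquiv (RingEquiv.refl κ) ?_
    ext x
    obtain ⟨y, rfl⟩ := e.surjective x
    change σ (e.symm (e y)) = (e y : κ)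
    rw [e.symm_apply_apply]
    rfl
  have hess : Algebra.EssFiniteType K0 κ := Algebra.EssFiniteType.of_comp k K0 κ
  have halg : Algebra.IsAlgebraic K0 κ := inferInstance
  have hfin : Module.Finite K0 κ := Algebra.finite_of_essFiniteType_of_isAlgebraic
  obtain ⟨α, hα⟩ := Field.exists_primitive_element K0 κ
  have hint : IsIntegral K0 α := Algebra.IsIntegral.isIntegral α
  set μ := minpoly K0 α with hμ
  -- evaluation of polynomials over `K0`
  have hev : ∀ (P : K0[X]), ∃ hP : aeval ((lift α : B.R) : Ω) P ∈ B.R,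
      ρ ⟨aeval ((lift α : B.R) : Ω) P, hP⟩ = aeval α P := by
    intro P
    have h1 : aeval ((lift α : B.R) : Ω) P = ((eval₂ ι.toRingHom (lift α) P : B.R) : Ω) := by
      rw [aeval_def]
      exact (Polynomial.hom_eval₂ P ι.toRingHom B.R.val.toRingHom (lift α)).symm
    have hm : aeval ((lift α : B.R) : Ω) P ∈ B.R := by rw [h1]; exact SetLike.coe_mem _
    refine ⟨hm, ?_⟩
    have h2 : (⟨aeval ((lift α : B.R) : Ω) P, hm⟩ : B.R) =
        eval₂ ι.toRingHom (lift α) P := Subtype.ext h1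
    rw [h2]
    have h3 := Polynomial.hom_eval₂ P ι.toRingHom ρ.toRingHom (lift α)
    have h4 : ρ.toRingHom (lift α) = α := hlift α
    rw [h4] at h3
    exact h3
  refine ⟨K0, lift α, μ, hKfg, hKR, ?_, (lift α).2, minpoly.monic hint, minpoly.irreducible hint,
    ?_, ?_, ?_⟩
  · have h1 := trdeg_add_eq k K0 (A := κ)
    rw [trdeg_eq_zero_iff.2 halg, add_zero] at h1
    exact h1
  · obtain ⟨hP, h1⟩ := hev μ
    have h2 := (hρ0 ⟨_, hP⟩).1 (by rw [h1]; exact minpoly.aeval K0 α)
    exact h2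
  · obtain ⟨hP, h1⟩ := hev (derivative μ)
    intro h2
    have h3 := (hρ0 ⟨_, hP⟩).2 h2
    rw [h1] at h3
    exact (Algebra.IsSeparable.isSeparable K0 α).aeval_derivative_ne_zero (minpoly.aeval K0 α) h3
  · intro f hf
    have h1 : Algebra.adjoin K0 {α} = ⊤ := by
      rw [← IntermediateField.adjoin_simple_toSubalgebra_of_isAlgebraic
        (Algebra.IsAlgebraic.isAlgebraic α), hα, IntermediateField.top_toSubalgebra]
    have h2 : ρ ⟨f, hf⟩ ∈ Algebra.adjoin K0 {α} := by rw [h1]; trivial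
    rw [Algebra.adjoin_singleton_eq_range_aeval] at h2
    obtain ⟨P, hP⟩ := h2
    obtain ⟨hP', h3⟩ := hev P
    refine ⟨P, ?_⟩
    have h4 : ρ (⟨f, hf⟩ - ⟨_, hP'⟩) = 0 := by
      rw [map_sub, h3, sub_eq_zero]
      exact hP.symm
    exact (hρ0 _).1 h4

end Pool.Agent.LU1
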