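import Pool.Agent.Lib.LU2_PI.Step
import Pool.Agent.Lib.LU2_PI.Bound

/-! # LU2, PI: the visible order drops -/

set_option autoImplicit false

open Polynomial

namespace Pool.Agent.LU2T

open Pool.Agent.H15JM (RVal)
open Pool.Agent.LU1

universe u

variable {k Ω : Type u} [Field k] [Field Ω] [Algebra k Ω] {v : RVal Ω} {r : ℕ}

/-- A step without growth is a T-step. -/
theorem tstep_of_cstep (hC : Ctx2 k v r) {B B' : BF k v} {c : k}
    (hG : IsCStep B B' 1 (X - C c) (fun _ l => l)) : IsTStep B B' 1 c (fun _ l => l) where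
  q_pos := hG.step.q_pos
  q_mem := hG.step.q_mem
  q_min := hG.step.q_min
  Γ_eq := hG.step.Γ_eq
  s_add := hG.step.s_add
  s_one := hG.step.s_one
  c_ne := by
    rintro rfl
    apply hG.not_dvd_X hC
    rw [map_zero, sub_zero]
  y_eq := by rw [hG.y_eq, map_sub, aeval_X, aeval_C]
  χ_eq := hG.step.χ_eq
  R_eq := hG.step.R_eq

section tst

variable {B B' : BF k v} {c : k}

theorem tst_mem (h : IsTStep B B' 1 c (fun _ l => l)) : v B.y ∈ B.Γ := by
  have := h.q_mem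
  rwa [Nat.cast_one, one_mul] at this

theorem tst_Γ (h : IsTStep B B' 1 c (fun _ l => l)) : B'.Γ = B.Γ := by
  rw [h.Γ_eq, sup_eq (tst_mem h)]

theorem tst_χ (h : IsTStep B B' 1 c (fun _ l => l)) {γ : ℝ} (hγ : γ ∈ B.Γ) :
    B'.χ γ = B.χ γ := by
  have := h.χ_eq γ hγ 0
  rw [Int.cast_zero, zero_mul, add_zero, zpow_zero, mul_one, neg_zero, zpow_zero, mul_one] at this
  exact this

theorem tst_y (h : IsTStep B B' 1 c (fun _ l => l)) :
    B.y = B.χ (v B.y) * (algebraMap k Ω c + B'.y) := by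
  rw [h.y_eq, add_sub_cancel, BF.w, pow_one, Nat.cast_one, one_mul,
    mul_div_cancel₀ _ (B.χ_ne _ (tst_mem h))]

theorem tst_ev (h : IsTStep B B' 1 c (fun _ l => l)) {P : (Lau k)[X]} (hP : SuppIn B.Γ P) :
    B'.ev (P.comp (C (mon (v B.y) 1) * (C (mon 0 c) + X))) = B.ev P := by
  rw [← tpoly_one (v B.y) c (fun _ l => l) P (fun _ _ _ => rfl)]
  exact h.ev_tpoly hP fun γ l _ => Int.natCast_nonneg l

end tst

theorem ev_mem_quo (B : BF k v) {P : (Lau k)[X]} (hP : SuppIn B.Γ P) : B.ev P ∈ quo B.R := by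
  rw [B.ev_eq]
  refine (quo B.R).sum_mem fun l _ => (quo B.R).sum_mem fun γ hγ => ?_
  have h0 : co P γ l ≠ 0 := Finsupp.mem_support_iff.1 hγ
  exact (quo B.R).mul_mem ((quo B.R).mul_mem ((quo B.R).algebraMap_mem _)
    (chi_mem_quo B (hP γ l h0))) (pow_mem (le_quo B.y_mem) l)

/-- **DROP**. -/
theorem drop (p : ℕ) [Fact p.Prime] [CharP k p] (hC : Ctx2 k v r) (hT : FinP k p) (B : BF k v)
    (hB : B.Res) {f : Ω} (hf : f ∈ quo B.R) (hf0 : ∀ g ∈ quo B.R, f ≠ g ^ p) {κ : ℝ} {D : ℕ}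
    (hSF : SF p B f κ D) (hD : 2 ≤ D) :
    ∃ (B1 B2 : BF k v) (q : ℕ) (h : k[X]) (s : ℝ → ℤ → ℤ) (κ' : ℝ) (D' : ℕ),
      Relation.ReflTransGen NG B B1 ∧ IsCStep B1 B2 q h s ∧ SF p B2 f κ' D' ∧ D' < D := by
  classical
  have hpp : p.Prime := Fact.out
  have hchar : CharP Ω p := charP_of_injective_algebraMap (algebraMap k Ω).injective p
  by_contra hcon
  push Not at hcon
  have hnd : ∀ (B1 B2 : BF k v) (q : ℕ) (h : k[X]) (s : ℝ → ℤ → ℤ) (κ' : ℝ) (D' : ℕ),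
      Relation.ReflTransGen NG B B1 → IsCStep B1 B2 q h s → SF p B2 f κ' D' → D ≤ D' := hcon
  obtain ⟨O⟩ := exists_om (F := k) p
  obtain ⟨T, hT'⟩ := hT
  obtain ⟨nd, δ, hδ⟩ := exists_finite_derivations T hT'
  -- the chain
  let σ : Type u := {x : BF k v × ℝ // Relation.ReflTransGen NG B x.1 ∧ x.1.Res ∧
    SF p x.1 f x.2 D}
  have hnext : ∀ x : σ, ∃ x' : σ, NG x.1.1 x'.1.1 ∧ x'.1.2 = x.1.2 + D * v x.1.1.y := by
    rintro ⟨⟨B1, κ1⟩, hr, hres, hsf⟩
    simp only at hr hres hsf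
    obtain ⟨B2, q, h, s, hG, hs⟩ := exists_cstep hC B1 hres
    obtain ⟨κ', D', h1, h2, h3, h4⟩ := os p hC hres hG hsf
    have h5 := hnd B1 B2 q h s κ' D' hr hG h1
    have h6 : D' = D := by omega
    subst h6
    have h7 : q * h.natDegree < 2 := by
      by_contra h8
      have h9 := h3 (by omega)
      omega
    have hq := hG.step.q_pos
    have hd := hG.irr.natDegree_pos
    have hqd : q * h.natDegree = 1 := by
      have := Nat.mul_pos hq hd
      omega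
    have hq1 : q = 1 := Nat.eq_one_of_mul_eq_one_right hqd
    have hd1 : h.natDegree = 1 := Nat.eq_one_of_mul_eq_one_left hqd
    have hs1 := hs hq1
    subst hq1 hs1
    have hh : h = X - C (-h.coeff 0) := by
      rw [C_neg, sub_neg_eq_add]
      conv_lhs => rw [eq_X_add_C_of_natDegree_le_one hd1.le]
      have h8 := hG.monic.coeff_natDegree
      rw [hd1] at h8
      rw [h8, C_1, one_mul]
    have hNG : NG B1 B2 := ⟨-h.coeff 0, by rw [← hh]; exact hG⟩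
    exact ⟨⟨(B2, κ'), hr.tail hNG, hNG.res hC hres, h1⟩, hNG, h4 hD rfl⟩
  choose nx hnx1 hnx2 using hnext
  let seq : ℕ → σ := fun n => Nat.rec ⟨(B, κ), Relation.ReflTransGen.refl, hB, hSF⟩
    (fun _ x => nx x) n
  have hseq : ∀ n, seq (n + 1) = nx (seq n) := fun _ => rfl
  obtain ⟨Bs, hB0, hNG, hreach, hres, hSFn⟩ : ∃ Bs : ℕ → BF k v, Bs 0 = B ∧
      (∀ n, NG (Bs n) (Bs (n + 1))) ∧ (∀ n, Relation.ReflTransGen NG B (Bs n)) ∧
      (∀ n, (Bs n).Res) ∧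
      ∀ n, SF p (Bs n) f (κ + D * bs (fun i => v (Bs i).y) n) D := by
    refine ⟨fun n => (seq n).1.1, rfl, fun n => hnx1 (seq n), fun n => (seq n).2.1,
      fun n => (seq n).2.2.1, fun n => ?_⟩
    have hκs : (seq n).1.2 = κ + D * bs (fun i => v (seq i).1.1.y) n := by
      induction n with
      | zero => rw [bs_zero, mul_zero, add_zero]; rfl
      | succ n ih =>
        rw [hseq, hnx2, ih, bs_succ]
        ring
    rw [← hκs]
    exact (seq n).2.2.2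
  clear_value seq
  subst hB0
  set β : ℕ → ℝ := fun n => v (Bs n).y with hβ
  obtain ⟨Mb, hMb⟩ := bdd_chain p hC ⟨T, hT'⟩ Bs hNG hf hf0 hD hSFn
  have hMb' : ∀ n, bs β n ≤ Mb := fun n => hMb ⟨n, rfl⟩
  choose c hc using hNG
  have hTs : ∀ n, IsTStep (Bs n) (Bs (n + 1)) 1 (c n) (fun _ l => l) := fun n =>
    tstep_of_cstep hC (hc n)
  have hΓ : ∀ n, (Bs n).Γ = (Bs 0).Γ := by
    intro n
    induction n with
    | zero => rfl
    | succ n ih => rw [tst_Γ (hTs n), ih]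
  have hχ : ∀ n, ∀ γ ∈ (Bs 0).Γ, (Bs n).χ γ = (Bs 0).χ γ := by
    intro n
    induction n with
    | zero => intro γ _; rfl
    | succ n ih => intro γ hγ; rw [tst_χ (hTs n) (by rw [hΓ n]; exact hγ), ih γ hγ]
  have hβΓ : ∀ n, β n ∈ (Bs 0).Γ := fun n => by
    have := tst_mem (hTs n)
    rwa [hΓ n] at this
  have hext : ∀ n, Ext (Bs 0) (Bs n) := by
    intro n
    induction n with
    | zero => exact Ext.refl (Bs 0)
    | succ n ih => exact ih.trans (hTs n).ext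
  have hquo : ∀ n, quo (Bs n).R = quo (Bs 0).R := fun n => (hext n).quo_eq
  have hκ : κ ∈ (Bs 0).Γ := hSF.1
  -- a large element of `Γ`
  obtain ⟨N, hN, hND⟩ : ∃ N ∈ (Bs 0).Γ, D * Mb < N := by
    obtain ⟨m, hm, h1⟩ := (Bs 0).full (Bs 0).y (Bs 0).y_ne
    have hpos : 0 < (m : ℝ) * v (Bs 0).y := mul_pos (by exact_mod_cast hm) (Bs 0).y_pos
    obtain ⟨n, hn⟩ := exists_nat_gt (D * Mb / ((m : ℝ) * v (Bs 0).y))
    refine ⟨(n : ℝ) * (m * v (Bs 0).y), ?_, ?_⟩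
    · rw [← nsmul_eq_mul]
      exact (Bs 0).Γ.nsmul_mem h1 _
    · rwa [div_lt_iff₀ hpos] at hn
  obtain ⟨g, hg, V, hV, hVis, hLD, e, he, hfe⟩ := expSF p O hC (Bs 0) hB hSF N
  have hGn : ∀ n, SuppIn (Bs 0).Γ (Gn β c V n) := by
    intro n
    induction n with
    | zero => rw [Gn_zero]; exact hV
    | succ n ih => rw [Gn_succ]; exact suppIn_comp (hβΓ n) (c n) ih
  have hevG : ∀ n, (Bs n).ev (Gn β c V n) = (Bs 0).ev V := by
    intro n
    induction n with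
    | zero => rw [Gn_zero]
    | succ n ih =>
      rw [Gn_succ, ← ih]
      exact tst_ev (hTs n) (by rw [hΓ n]; exact hGn n)
  have hpart : ∀ n, ∃ P h : (Lau k)[X], VisPart O (Bs 0).Γ (Gn β c V n) P ∧ SuppIn (Bs 0).Γ h ∧
      Gn β c V n = P + h ^ p := fun n => exists_visPart p O (hGn n)
  choose P h hP hh hPh using hpart
  have hP0 : P 0 = V := by
    have h1 := hP 0
    rw [Gn_zero] at h1
    exact h1.unique hVis
  obtain ⟨b, hb, hbe⟩ := J_step (hc 0).step ((hc 0).step.Γ_le hN) he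
  have hchiN : (Bs 1).χ N = (Bs 0).χ N := hχ 1 N hN
  have hR1 : ∀ n, (Bs 1).R ≤ (Bs (n + 1)).R := by
    intro n
    induction n with
    | zero => exact le_rfl
    | succ n ih => exact ih.trans (hTs (n + 1)).R_le
  refine stuck p O δ hδ (Bs 0).fg β c (fun n => (Bs n).y_pos) hβΓ (fun n => (hTs n).c_ne)
    ⟨Mb, hMb⟩ V hV P hP hD (κ := κ) (by rw [hP0]; exact hLD) (fun n κ' D' hκ' hLD' => ?_)
  cases n with
  | zero =>
    rw [hP0] at hLD'
    exact (hLD.unique hLD').2.le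
  | succ n =>
    refine hnd (Bs n) (Bs (n + 1)) _ _ _ κ' D' (hreach n) (hc n) ?_
    have hPΓ : SuppIn (Bs (n + 1)).Γ (P (n + 1)) := by
      rw [hΓ]; exact (hP (n + 1)).suppIn (hGn (n + 1))
    have hhΓ : SuppIn (Bs (n + 1)).Γ (h (n + 1)) := by rw [hΓ]; exact hh (n + 1)
    have hκN : κ + N ∈ (Bs 0).Γ := (Bs 0).Γ.add_mem hκ hN
    refine sf_of_poly p hC (hres (n + 1)) hPΓ
      (by rw [hΓ]; exact (hP (n + 1)).nfm) hLD' (g := g + (Bs (n + 1)).ev (h (n + 1)))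
      (e := (Bs 0).χ κ * e) ?_ ?_ ?_
    · exact (quo (Bs (n + 1)).R).add_mem (by rw [hquo]; exact hg) (ev_mem_quo _ hhΓ)
    · have h1 := hevG (n + 1)
      rw [hPh (n + 1), (Bs (n + 1)).ev_add, EvalAux.ev_pow _ hhΓ] at h1
      rw [add_pow_char, ← sub_sub, hfe, ← h1]
      ring
    · refine ⟨κ + N, by rw [hΓ]; exact hκN, ?_, b, hR1 n hb, ?_⟩
      · have h1 : (D : ℝ) * bs β (n + 1) ≤ D * Mb :=
          mul_le_mul_of_nonneg_left (hMb' (n + 1)) (Nat.cast_nonneg D)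
        linarith
      · rw [hχ (n + 1) _ hκN, (Bs 0).χ_add κ hκ N hN, hbe, hchiN, mul_assoc]

end Pool.Agent.LU2T
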