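import Pool.Agent.Lib.LU2_PI.Step
import Pool.Agent.Lib.LU1_h15.Rad

/-! # LU2, PI: the ends E1 and E2 of the purely inseparable ascent -/

set_option autoImplicit false

open Polynomial

namespace Pool.Agent.LU2T

open Pool.Agent.H15JM (RVal)
open Pool.Agent.LU1

universe u

variable {k Ω : Type u} [Field k] [Field Ω] [Algebra k Ω] {v : RVal Ω} {r : ℕ}

theorem end1_pos (p : ℕ) [hp : Fact p.Prime] (hC : Ctx2 k v r) (B : BF k v)
    (E : IntermediateField k Ω) (hE : FracIs B.R E) {κ : ℝ} (hκ : κ ∈ B.Γ) (hpos : 0 < κ)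
    (hκ' : ¬ ∃ δ ∈ B.Γ, κ = p * δ) {Z u : Ω} (hu : B.Un u) (hZ : Z ^ p = B.χ κ * u) :
    Good v (adj E Z) := by
  have hpp : p.Prime := hp.out
  have hp0 : (0 : ℝ) < p := by exact_mod_cast hpp.pos
  have hZ0 : Z ≠ 0 := by
    rintro rfl
    rw [zero_pow hpp.ne_zero] at hZ
    exact mul_ne_zero (B.χ_ne κ hκ) hu.2.1 hZ.symm
  have hv : (p : ℝ) * v Z = κ := by
    have := congrArg v hZ
    rwa [v.map_pow hZ0, v.map_mul (B.χ_ne κ hκ) hu.2.1, B.χ_val κ hκ, hu.2.2, add_zero] at this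
  have hβ : 0 < v Z := by
    rw [← hv] at hpos
    exact (mul_pos_iff_of_pos_left hp0).1 hpos
  obtain ⟨s, hL⟩ := exists_latData_prime B p hpp hβ (by rw [hv]; exact hκ)
    (not_mem_of_ne hv.symm hκ')
  have hw : Z ^ p = B.χ (p * v Z) * u := by rw [hv]; exact hZ
  have H := BF.pre_adjoin2 hZ0 hL hw hC.triv B.y B.y_ne B.y_pos (BF.mem_radj B.y_mem)
  obtain ⟨B', -, -, -, h4⟩ := BF.exists_adjoin2 hZ0 hL hw hC.triv B.y B.y_ne B.y_pos
    (BF.mem_radj B.y_mem) (by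
      intro c hc hvc
      have hcR : c ∈ B.R := by
        have h1 : Algebra.adjoin k ((B.R : Set Ω) ∪ {u}) ≤ B.R := by
          refine Algebra.adjoin_le ?_
          rintro f (hf | rfl)
          · exact hf
          · exact hu.1
        exact h1 hc
      exact BF.mm_adjoin2 hZ0 hL hw H (fun b hb => H.mm_y (BF.mem_radj hb)) hcR hvc)
  refine ⟨B', ?_⟩
  rw [h4]
  exact BF.fracIs_radj hZ0 hL hw hL.β_pos hE

/-- (E1) `Z^p = χ(κ) u`, `κ ∉ p Γ`. No assumption on the residue field. -/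
theorem end1 (p : ℕ) [hp : Fact p.Prime] (hC : Ctx2 k v r) (B : BF k v)
    (E : IntermediateField k Ω) (hE : FracIs B.R E) {κ : ℝ} (hκ : κ ∈ B.Γ)
    (hκ' : ¬ ∃ δ ∈ B.Γ, κ = p * δ) {Z u : Ω} (hu : B.Un u) (hZ : Z ^ p = B.χ κ * u) :
    Good v (adj E Z) := by
  have hκ0 : κ ≠ 0 := by
    rintro rfl
    exact hκ' ⟨0, B.Γ.zero_mem, by ring⟩
  rcases lt_or_gt_of_ne hκ0 with hneg | hpos
  · have h1 : adj E Z = adj E Z⁻¹ := by
      refine adj_congr ?_ ((adj E Z).inv_mem (mem_adj E Z))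
      have := (adj E Z⁻¹).inv_mem (mem_adj E Z⁻¹)
      rwa [inv_inv] at this
    rw [h1]
    refine end1_pos p hC B E hE (B.Γ.neg_mem hκ) (neg_pos.2 hneg) ?_ hu.inv
      (Z := Z⁻¹) (u := u⁻¹) ?_
    · rintro ⟨δ, hδ, h2⟩
      exact hκ' ⟨-δ, B.Γ.neg_mem hδ, by linarith⟩
    · rw [inv_pow, hZ, mul_inv, B.χ_neg hκ]
  · exact end1_pos p hC B E hE hκ hpos hκ' hu hZ

/-- (E2) `Z^p = yt`, `ν(yt) = (0, 1)`. -/
theorem end2 (p : ℕ) [hp : Fact p.Prime] (hC : Ctx2 k v r) (B : BF k v)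
    (E : IntermediateField k Ω) (hE : FracIs B.R E) {Z yt : Ω} (hy : B.Rep yt 0 1)
    (hZ : Z ^ p = yt) : Good v (adj E Z) := by
  have hpp : p.Prime := hp.out
  obtain ⟨B1, hΓ, hχ, hy1, hR⟩ := B.change_y2 hC hy
  have hyt0 : yt ≠ 0 := hy.ne_zero2 hC
  have hytv : 0 < v yt := hy.val_pos2 hC le_rfl
  have hZ0 : Z ≠ 0 := by
    rintro rfl
    rw [zero_pow hpp.ne_zero] at hZ
    exact hyt0 hZ.symm
  have hZv : 0 < v Z := by
    rw [← hZ, v.map_pow hZ0] at hytv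
    have hp0 : (0 : ℝ) < p := by exact_mod_cast hpp.pos
    exact (mul_pos_iff_of_pos_left hp0).1 hytv
  have hE1 : FracIs B1.R E := by rw [hR]; exact hE
  set R' := locv v (Algebra.adjoin k ((B1.R : Set Ω) ∪ {Z})) with hR'
  have hRR : ∀ f ∈ B1.R, f ∈ R' := fun f hf =>
    le_locv _ (Algebra.subset_adjoin (Or.inl hf))
  have hZR : Z ∈ R' := le_locv _ (Algebra.subset_adjoin (Or.inr rfl))
  have H : Pre v B1.Γ B1.χ Z R' :=
    { full := B1.full
      χ_ne := B1.χ_ne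
      χ_add := B1.χ_add
      χ_val := B1.χ_val
      y_ne := hZ0
      y_pos := hZv
      nonneg := by
        refine locv_nonneg (adjoin_nonneg2 hC ?_)
        rintro f (hf | rfl)
        · exact B1.nonneg f hf
        · intro _; exact hZv.le
      loc := fun f hf h0 h1 => locv_inv hf h0 h1
      χ_mem := fun γ hγ h0 => hRR _ (B1.χ_mem γ hγ h0)
      y_mem := hZR }
  obtain ⟨n, hn⟩ : ∃ n, p = n + 1 := ⟨p - 1, by have := hpp.pos; omega⟩
  obtain ⟨B', -, -, -, -, h5⟩ := BF.exists_extend2 hC.triv B1 (Z := Z) (y' := Z)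
    (fun _ => hZv.le) hZ0 hZv hZR (by
      intro c hc hv
      obtain ⟨P, rfl⟩ := exists_aeval_of_mem_adjoin_base _ _ hc
      have hdiv : aeval Z P = Z * aeval Z (divX P) + (P.coeff 0 : Ω) := by
        conv_lhs => rw [← divX_mul_X_add P]
        rw [map_add, map_mul, aeval_X, aeval_C, mul_comm]
        rfl
      have hQ : aeval Z (divX P) ∈ R' := le_locv _ (aeval_mem_adjoin_base _ _ _)
      have hm : MM B1.Γ B1.χ Z R' (Z * aeval Z (divX P)) := H.mm_y hQ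
      rw [hdiv]
      refine H.mm_add hm ?_
      have hvc : VPos v (P.coeff 0 : Ω) := by
        have h6 : (P.coeff 0 : Ω) = aeval Z P - Z * aeval Z (divX P) := by
          rw [hdiv]; ring
        rw [h6]
        exact hv.sub (H.mm_vpos hm)
      obtain ⟨γ, hγ, h0, a, ha, b, hb, h1⟩ := B1.gen _ (P.coeff 0).2 hvc
      refine ⟨γ, hγ, h0, a, hRR a ha, Z ^ n * b,
        R'.mul_mem (R'.pow_mem hZR n) (hRR b hb), ?_⟩
      rw [h1, hy1, ← hZ, hn]
      ring)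
  exact ⟨B', h5 E hE1⟩

end Pool.Agent.LU2T
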