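import Pool.Agent.Lib.LU2_PI.Step
import Pool.Agent.Lib.LU1_h15.Rad

/-! # LU2, PI: the end E4 of the purely inseparable ascent -/

set_option autoImplicit false

open Polynomial

namespace Pool.Agent.LU2T

open Pool.Agent.H15JM (RVal)
open Pool.Agent.LU1

universe u

variable {k Ω : Type u} [Field k] [Field Ω] [Algebra k Ω] {v : RVal Ω} {r : ℕ}

/-- The ideal of elements of positive value. -/
noncomputable def posIdeal (B : BF k v) : Ideal B.R where
  carrier := {a | VPos v (a : Ω)}
  add_mem' := fun ha hb => VPos.add ha hb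
  zero_mem' := VPos.zero
  smul_mem' := fun c _ ha => VPos.mul' (B.nonneg _ c.2) ha

theorem mem_posIdeal {B : BF k v} {a : B.R} : a ∈ posIdeal B ↔ VPos v (a : Ω) := Iff.rfl

theorem not_vpos_one_e4 (v : RVal Ω) : ¬ VPos v (1 : Ω) := by
  intro h
  have h1 := h one_ne_zero
  rw [v.map_one] at h1
  exact lt_irrefl _ h1

theorem posIdeal_isMaximal (B : BF k v) : (posIdeal B).IsMaximal := by
  rw [Ideal.isMaximal_iff]
  refine ⟨not_vpos_one_e4 v, fun J x _ hx hxJ => ?_⟩
  rw [mem_posIdeal] at hx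
  unfold VPos at hx
  push Not at hx
  obtain ⟨h0, h1⟩ := hx
  have h2 : v (x : Ω) = 0 := le_antisymm h1 (B.nonneg _ x.2 h0)
  have h3 : (⟨(x : Ω)⁻¹, B.loc _ x.2 h0 h2⟩ : B.R) * x = 1 := by
    apply Subtype.ext
    exact inv_mul_cancel₀ h0
  rw [← h3]
  exact J.mul_mem_left _ hxJ

/-- If `M` is monic over `R`, its reduction is irreducible and `M(z)` has positive value, then
`M` is a lift of the minimal polynomial; here for `X^p - u`. -/
theorem isMin_pow (p : ℕ) [hp : Fact p.Prime] [CharP k p] (hC : Ctx2 k v r) (B : BF k v)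
    {Z : Ω} {u : B.R} (hu : B.Un (u : Ω)) (hZ : Z ^ p = u)
    (hn : ∀ t ∈ B.R, ¬ VPos v ((u : Ω) - t ^ p)) : B.IsMin Z (X ^ p - C u) := by
  classical
  have hpp : p.Prime := hp.out
  have hZ0 : Z ≠ 0 := by
    rintro rfl
    rw [zero_pow hpp.ne_zero] at hZ
    exact hu.2.1 hZ.symm
  have hZv : v Z = 0 := by
    have h1 := congrArg v hZ
    rw [v.map_pow hZ0, hu.2.2] at h1
    have hp0 : (p : ℝ) ≠ 0 := by exact_mod_cast hpp.ne_zero
    exact (mul_eq_zero.1 h1).resolve_left hp0
  have hZge : v.Ge 0 Z := fun _ => hZv.ge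
  have hM0 : aeval Z (X ^ p - C u) = 0 := by
    rw [map_sub, map_pow, aeval_X, aeval_C, hZ]
    exact sub_self _
  refine ⟨monic_X_pow_sub_C u hpp.ne_zero, by rw [hM0]; exact VPos.zero, ?_⟩
  intro P hP hv
  rw [natDegree_X_pow_sub_C] at hP
  have hmax := posIdeal_isMaximal B
  letI : Field (B.R ⧸ posIdeal B) := Ideal.Quotient.field _
  set π : B.R →+* B.R ⧸ posIdeal B := Ideal.Quotient.mk _ with hπ
  have hπs : Function.Surjective π := Ideal.Quotient.mk_surjective
  have hπ0 : ∀ a : B.R, π a = 0 ↔ VPos v (a : Ω) := fun a => by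
    rw [hπ, Ideal.Quotient.eq_zero_iff_mem, mem_posIdeal]
  have hirr : Irreducible (X ^ p - C (π u)) := by
    refine X_pow_sub_C_irreducible_of_prime hpp fun b hb => ?_
    obtain ⟨t, rfl⟩ := hπs b
    rw [← map_pow, ← sub_eq_zero, ← map_sub, hπ0] at hb
    apply hn t t.2
    have h1 := hb.neg
    have h2 : -(((t ^ p - u : B.R)) : Ω) = (u : Ω) - (t : Ω) ^ p := by
      rw [AddSubgroupClass.coe_sub, SubmonoidClass.coe_pow]
      ring
    rwa [h2] at h1
  have hP0 : P.map π = 0 := by
    by_contra hne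
    have hcop : IsCoprime (X ^ p - C (π u)) (P.map π) := by
      refine (hirr.coprime_iff_not_dvd).2 fun hd => ?_
      have h1 := natDegree_le_of_dvd hd hne
      rw [natDegree_X_pow_sub_C] at h1
      have h2 := natDegree_map_le (p := P) (f := π)
      omega
    obtain ⟨a, b, hab⟩ := hcop
    obtain ⟨A, rfl⟩ := map_surjective π hπs a
    obtain ⟨A', rfl⟩ := map_surjective π hπs b
    have h1 : (A * (X ^ p - C u) + A' * P - 1).map π = 0 := by
      rw [Polynomial.map_sub, Polynomial.map_add, Polynomial.map_mul, Polynomial.map_mul,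
        Polynomial.map_sub, Polynomial.map_pow, map_X, map_C, Polynomial.map_one, hab, sub_self]
    have h2 : VPos v (aeval Z (A * (X ^ p - C u) + A' * P - 1)) := by
      refine B.vpos_aeval hZge fun i => ?_
      rw [← hπ0, ← coeff_map, h1, coeff_zero]
    rw [map_sub, map_add, map_mul, map_mul, hM0, mul_zero, zero_add, map_one] at h2
    have h3 : VPos v (aeval Z A' * aeval Z P) := VPos.mul' (B.nonneg_aeval hZge A') hv
    have h4 := h3.sub h2
    rw [sub_sub_cancel] at h4
    exact not_vpos_one_e4 v h4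
  intro i
  rw [← hπ0, ← coeff_map, hP0, coeff_zero]

/-- (E4) `Z^p = u`, `u` is not a `p`-th power in the residue field. -/
theorem end4 (p : ℕ) [hp : Fact p.Prime] [CharP k p] (hC : Ctx2 k v r) (B : BF k v)
    (E : IntermediateField k Ω) (hE : FracIs B.R E) {Z u : Ω} (hu : B.Un u) (hZ : Z ^ p = u)
    (hn : ∀ t ∈ B.R, ¬ VPos v (u - t ^ p)) : Good v (adj E Z) := by
  classical
  have hpp : p.Prime := hp.out
  have hM := isMin_pow p hC B (Z := Z) (u := ⟨u, hu.1⟩) hu hZ hn
  set M : B.R[X] := X ^ p - C ⟨u, hu.1⟩ with hMdef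
  have hM0 : aeval Z M = 0 := by
    rw [hMdef, map_sub, map_pow, aeval_X, aeval_C, hZ]
    exact sub_self _
  have hZ0 : Z ≠ 0 := by
    rintro rfl
    rw [zero_pow hpp.ne_zero] at hZ
    exact hu.2.1 hZ.symm
  have hZv : v Z = 0 := by
    have h1 := congrArg v hZ
    rw [v.map_pow hZ0, hu.2.2] at h1
    have hp0 : (p : ℝ) ≠ 0 := by exact_mod_cast hpp.ne_zero
    exact (mul_eq_zero.1 h1).resolve_left hp0
  have hZge : v.Ge 0 Z := fun _ => hZv.ge
  set R' := locv v (Algebra.adjoin k ((B.R : Set Ω) ∪ {Z})) with hR'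
  have hRR : ∀ f ∈ B.R, f ∈ R' := fun f hf =>
    le_locv _ (Algebra.subset_adjoin (Or.inl hf))
  have hZR : Z ∈ R' := le_locv _ (Algebra.subset_adjoin (Or.inr rfl))
  have H : Pre v B.Γ B.χ B.y R' :=
    { full := B.full
      χ_ne := B.χ_ne
      χ_add := B.χ_add
      χ_val := B.χ_val
      y_ne := B.y_ne
      y_pos := B.y_pos
      nonneg := by
        refine locv_nonneg (adjoin_nonneg2 hC ?_)
        rintro f (hf | rfl)
        · exact B.nonneg f hf
        · exact hZge
      loc := fun f hf h0 h1 => locv_inv hf h0 h1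
      χ_mem := fun γ hγ h0 => hRR _ (B.χ_mem γ hγ h0)
      y_mem := hRR _ B.y_mem }
  obtain ⟨B', -, -, -, -, h5⟩ := BF.exists_extend2 hC.triv B (Z := Z) (y' := B.y)
    hZge B.y_ne B.y_pos (hRR _ B.y_mem) (by
      intro c hc hv
      obtain ⟨P, rfl⟩ := exists_aeval_of_mem_adjoin_base _ _ hc
      have hdiv := congrArg (aeval Z) (Polynomial.modByMonic_add_div P M)
      rw [map_add, map_mul, hM0, zero_mul, add_zero] at hdiv
      have hdeg : (P %ₘ M).natDegree < M.natDegree := by
        refine Polynomial.natDegree_modByMonic_lt P hM.monic ?_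
        intro h6
        rw [h6, map_one] at hM0
        exact one_ne_zero hM0
      rw [← hdiv] at hv ⊢
      have hcoef := hM.min _ hdeg hv
      rw [Polynomial.aeval_eq_sum_range (p := P %ₘ M)]
      have hsum : ∀ t : Finset ℕ, MM B.Γ B.χ B.y R' (∑ i ∈ t, (P %ₘ M).coeff i • Z ^ i) := by
        intro t
        induction t using Finset.induction_on with
        | empty => rw [Finset.sum_empty]; exact H.mm_zero
        | insert a t ha ih =>
          rw [Finset.sum_insert ha]
          refine H.mm_add ?_ ih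
          rw [Algebra.smul_def]
          refine H.mm_mul ?_ (R'.pow_mem hZR a)
          obtain ⟨γ, hγ, h0, a', ha', b, hb, h1⟩ := B.gen _ ((P %ₘ M).coeff a).2 (hcoef a)
          exact ⟨γ, hγ, h0, a', hRR a' ha', b, hRR b hb, h1⟩
      exact hsum _)
  exact ⟨B', h5 E hE⟩

end Pool.Agent.LU2T
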