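import Pool.Agent.Lib.LU2_PI.Start
import Pool.Agent.Lib.LU2_PI.End1
import Pool.Agent.Lib.LU2_PI.End4

/-! # LU2, PI: the ends of the purely inseparable ascent -/

set_option autoImplicit false

open Polynomial

namespace Pool.Agent.LU2T

open Pool.Agent.H15JM (RVal)
open Pool.Agent.LU1
open Pool.Agent.LU1.R1 (co_zero co_add co_sum co_ext co_monomial)

universe u

variable {k Ω : Type u} [Field k] [Field Ω] [Algebra k Ω] {v : RVal Ω} {r : ℕ}

/-- The field does not change if `G` is replaced by `(G - g) / c`. -/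
theorem adj_shift (E : IntermediateField k Ω) {G g c : Ω} (hg : g ∈ E) (hc : c ∈ E)
    (hc0 : c ≠ 0) : adj E ((G - g) / c) = adj E G := by
  refine adj_congr ?_ ?_
  · exact (adj E G).div_mem ((adj E G).sub_mem (mem_adj E G) (le_adj E G hg)) (le_adj E G hc)
  · have h1 : G = (G - g) / c * c + g := by field_simp; ring
    have h2 := (adj E ((G - g) / c)).add_mem ((adj E ((G - g) / c)).mul_mem
      (mem_adj E ((G - g) / c)) (le_adj E ((G - g) / c) hc)) (le_adj E ((G - g) / c) hg)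
    rwa [← h1] at h2

/-- The ends which do not use the residue field: `D = 0`, or `κ` divisible by `p`. -/
theorem ends_div (p : ℕ) [hp : Fact p.Prime] [CharP k p] (hC : Ctx2 k v r) (B : BF k v)
    {f : Ω} {κ : ℝ} {D : ℕ} (hf : SF p B f κ D) (hD : D ≤ 1)
    (hκD : (∃ δ ∈ B.Γ, κ = p * δ) ∨ D = 0) {G : Ω} (hG : G ^ p = f) :
    Good v (adj (quo B.R) G) := by
  have hchar : CharP Ω p := charP_of_injective_algebraMap (algebraMap k Ω).injective p
  obtain ⟨hκ, g, hg, u, hu, δ, hδ, hδ0, a, ha, hfe, hSV⟩ := hf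
  have hE : FracIs B.R (quo B.R) := fracIs_quo B.R
  have hZ : (G - g) ^ p = f - g ^ p := by rw [sub_pow_char, hG]
  have hχa : B.χ δ * a ∈ B.R := B.R.mul_mem (B.χ_mem δ hδ hδ0.le) ha
  have hχv : VPos v (B.χ δ * a) := (B.vpos_χ hδ hδ0).mul (B.nonneg a ha)
  have hshift : ∀ b ∈ B.Γ, adj (quo B.R) ((G - g) / B.χ b) = adj (quo B.R) G := fun b hb =>
    adj_shift _ hg (chi_mem_quo B hb) (B.χ_ne b hb)
  have hdiv : ∀ b ∈ B.Γ, κ = p * b → ∀ z, f - g ^ p = B.χ κ * z →
      ((G - g) / B.χ b) ^ p = z := by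
    intro b hb hκb z hz
    have h1 : B.χ b ^ p = B.χ κ := by rw [hκb, B.χ_nsmul hb]
    rw [div_pow, hZ, hz, h1, mul_div_cancel_left₀ _ (B.χ_ne κ hκ)]
  rcases Nat.eq_zero_or_pos D with h0 | h0
  · subst h0
    rw [pow_zero, mul_one] at hfe
    have hu' : B.Un (u + B.χ δ * a) := hu.add_vpos hχa hχv
    by_cases hdvd : ∃ b ∈ B.Γ, κ = p * b
    · obtain ⟨b, hb, hκb⟩ := id hdvd
      rw [← hshift b hb]
      refine end4 p hC B _ hE hu' (hdiv b hb hκb _ hfe) fun t ht hvt => ?_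
      rcases hSV with h1 | h1 | h1
      · exact h1 hdvd
      · exact h1 (dvd_zero p)
      · apply h1 t ht
        have h2 := hvt.sub hχv
        have h3 : u + B.χ δ * a - t ^ p - B.χ δ * a = u - t ^ p := by ring
        rwa [h3] at h2
    · have h1 : adj (quo B.R) ((G - g) / 1) = adj (quo B.R) G :=
        adj_shift _ hg (quo B.R).one_mem one_ne_zero
      rw [← h1, div_one]
      exact end1 p hC B _ hE hκ hdvd hu' (by rw [hZ, hfe])
  · have hD1 : D = 1 := by omega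
    subst hD1
    rw [pow_one] at hfe
    obtain ⟨b, hb, hκb⟩ := hκD.resolve_right one_ne_zero
    rw [← hshift b hb]
    refine end2 p hC B _ hE (yt := u * B.y + B.χ δ * a) ?_ (hdiv b hb hκb _ hfe)
    refine ⟨B.Γ.zero_mem, u, hu, δ, hδ, hδ0, a, ha, ?_⟩
    rw [B.χ_zero, one_mul, pow_one]

/-- **ENDS**: `D ≤ 1` in a frame with residue field `k`. -/
theorem ends (p : ℕ) [hp : Fact p.Prime] [CharP k p] (hC : Ctx2 k v r) (B : BF k v)
    (hB : B.Res) {f : Ω} {κ : ℝ} {D : ℕ} (hf : SF p B f κ D) (hD : D ≤ 1) {G : Ω}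
    (hG : G ^ p = f) : Good v (adj (quo B.R) G) := by
  by_cases hκD : (∃ δ ∈ B.Γ, κ = p * δ) ∨ D = 0
  · exact ends_div p hC B hf hD hκD hG
  push Not at hκD
  obtain ⟨hκn, hD0⟩ := hκD
  have hκn' : ¬ ∃ δ ∈ B.Γ, κ = p * δ := by
    rintro ⟨δ, hδ, h1⟩
    exact hκn δ hδ h1
  have hD1 : D = 1 := by omega
  subst hD1
  have hchar : CharP Ω p := charP_of_injective_algebraMap (algebraMap k Ω).injective p
  obtain ⟨hκ, g, hg, u, hu, δ, hδ, hδ0, a, ha, hfe, -⟩ := hf
  rw [pow_one] at hfe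
  have hrep : B.Rep (u * B.y + B.χ δ * a) 0 1 := by
    refine ⟨B.Γ.zero_mem, u, hu, δ, hδ, hδ0, a, ha, ?_⟩
    rw [B.χ_zero, one_mul, pow_one]
  obtain ⟨B1, hΓ1, hχ1, hy1, hR1⟩ := B.change_y2 hC hrep
  have hB1 : B1.Res := by
    intro x hx
    rw [hR1] at hx
    exact hB x hx
  obtain ⟨B2, q, h, s, hst, -⟩ := exists_cstep hC B1 hB1
  have hZ : (G - g) ^ p = f - g ^ p := by rw [sub_pow_char, hG]
  have hκ1 : κ ∈ B1.Γ := by rw [hΓ1]; exact hκ
  have hfe1 : f - g ^ p = B1.χ κ * B1.y := by rw [hfe, hχ1, hy1]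
  have hfe2 : f - g ^ p = B2.χ (κ + v B1.y) * (B1.w q) ^ (s κ 1) := by
    have h1 := hst.step.χ_mul hκ1 1
    rw [zpow_one, Int.cast_one, one_mul] at h1
    rw [hfe1, h1]
  have hτ : κ + v B1.y ∈ B2.Γ := B2.Γ.add_mem (hst.step.Γ_le hκ1) hst.step.β_mem
  have hquo : quo B2.R = quo B.R := by rw [hst.step.ext.quo_eq, hR1]
  rw [← hquo]
  by_cases hdvd : ∃ σ ∈ B2.Γ, κ + v B1.y = p * σ
  · -- one more strong form
    set V : (Lau k)[X] := monomial 1 (mon κ 1) with hV
    have hco : ∀ γ l, co V γ l ≠ 0 → γ = κ ∧ l = 1 := by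
      intro γ l h0
      rw [hV, co_monomial] at h0
      have h1 : (κ, 1) = (γ, l) := by
        by_contra h2
        rw [if_neg h2] at h0
        exact h0 rfl
      exact ⟨(Prod.ext_iff.1 h1).1.symm, (Prod.ext_iff.1 h1).2.symm⟩
    have hev : B1.ev V = B1.χ κ * B1.y := by
      rw [hV, ← C_mul_X_pow_eq_monomial, B1.ev_monomial, map_one, one_mul, pow_one]
    obtain ⟨j, L, hL, hSF, hj, -⟩ := step p hC hB1 hst (V := V)
      (fun γ l h0 => by rw [(hco γ l h0).1]; exact hκ1)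
      (fun γ l h0 hI x => by
        have h1 := hI.1
        rw [(hco γ l h0).2] at h1
        exact absurd (Nat.le_of_dvd one_pos h1) (not_le.2 hp.out.one_lt))
      (f := f) (g := g) (e := 0) (by rw [hR1]; exact hg) (by rw [add_zero, hev, hfe1])
      (τ := κ + v B1.y)
      (fun γ l h0 => by
        obtain ⟨rfl, rfl⟩ := hco γ l h0
        rw [Nat.cast_one, one_mul])
      ⟨1, by
        rw [Nat.cast_one, one_mul, add_sub_cancel_right, hV, co_monomial, if_pos rfl]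
        exact one_ne_zero⟩
      ⟨κ + v B1.y + v B1.y, B2.Γ.add_mem hτ hst.step.β_mem, by linarith [B1.y_pos], 0,
        B2.R.zero_mem, by rw [mul_zero]⟩
    have hL1 := (hco _ _ hL).2
    subst hL1
    exact ends_div p hC B2 hSF (by simpa using hj) (Or.inl hdvd) hG
  · have h1 : adj (quo B2.R) ((G - g) / 1) = adj (quo B2.R) G :=
      adj_shift _ (by rw [hquo]; exact hg) (quo B2.R).one_mem one_ne_zero
    rw [← h1, div_one]
    exact end1 p hC B2 _ (fracIs_quo B2.R) hτ hdvd (hst.step.un_w.zpow (s κ 1))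
      (by rw [hZ, hfe2])

end Pool.Agent.LU2T
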