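import Pool.Agent.Lib.LU2_PI.CStep

/-! # LU2, PI: expansions in a frame with coefficient field `k` -/

set_option autoImplicit false

open Polynomial

namespace Pool.Agent.LU2T

open Pool.Agent.H15JM (RVal)
open Pool.Agent.LU1

universe u

variable {k Ω : Type u} [Field k] [Field Ω] [Algebra k Ω] {v : RVal Ω} {r : ℕ}

theorem J_mono (B : BF k v) {N N' : ℝ} (h : N' ≤ N) : J B N ≤ J B N' := by
  refine Submodule.span_mono ?_
  rintro z ⟨γ, hγ, l, h0, h1, rfl⟩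
  exact ⟨γ, hγ, l, h0, h.trans h1, rfl⟩

theorem J_ge (B : BF k v) {N : ℝ} {e : Ω} (he : e ∈ J B N) : v.Ge N e := by
  unfold J at he
  induction he using Submodule.span_induction with
  | mem z hz =>
    obtain ⟨γ, hγ, l, h0, h1, rfl⟩ := hz
    intro _
    rw [v.map_mul (B.χ_ne γ hγ) (pow_ne_zero _ B.y_ne), B.χ_val γ hγ, v.map_pow B.y_ne]
    exact h1
  | zero => exact RVal.Ge.zero
  | add x y _ _ hx hy => exact hx.add hy
  | smul c x _ hx =>
    have h1 : c • x = (c : Ω) * x := rfl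
    rw [h1]
    simpa using (B.nonneg _ c.2).mul hx

theorem J_le_R (B : BF k v) {N : ℝ} {e : Ω} (he : e ∈ J B N) : e ∈ B.R := by
  unfold J at he
  induction he using Submodule.span_induction with
  | mem z hz =>
    obtain ⟨γ, hγ, l, h0, h1, rfl⟩ := hz
    exact B.R.mul_mem (B.χ_mem γ hγ h0) (B.R.pow_mem B.y_mem l)
  | zero => exact B.R.zero_mem
  | add x y _ _ hx hy => exact B.R.add_mem hx hy
  | smul c x _ hx => exact B.R.mul_mem c.2 hx

theorem J_mul_left (B : BF k v) {N : ℝ} {a e : Ω} (ha : a ∈ B.R) (he : e ∈ J B N) :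
    a * e ∈ J B N := (J B N).smul_mem ⟨a, ha⟩ he

theorem J_mul (B : BF k v) {N N' : ℝ} {a b : Ω} (ha : a ∈ J B N) (hb : b ∈ J B N') :
    a * b ∈ J B (N + N') := by
  have key : ∀ z ∈ {z | ∃ γ ∈ B.Γ, ∃ l : ℕ, 0 ≤ γ ∧ N ≤ γ + l * v B.y ∧
      z = B.χ γ * B.y ^ l}, z * b ∈ J B (N + N') := by
    rintro z ⟨γ, hγ, l, h0, h1, rfl⟩
    unfold J at hb
    induction hb using Submodule.span_induction with
    | mem w hw =>
      obtain ⟨δ, hδ, m, h2, h3, rfl⟩ := hw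
      refine Submodule.subset_span ⟨γ + δ, B.Γ.add_mem hγ hδ, l + m, add_nonneg h0 h2, ?_, ?_⟩
      · push_cast
        linarith
      · rw [B.χ_add γ hγ δ hδ, pow_add]
        ring
    | zero => rw [mul_zero]; exact (J B (N + N')).zero_mem
    | add x y _ _ hx hy => rw [mul_add]; exact (J B (N + N')).add_mem hx hy
    | smul c x _ hx =>
      have h1 : B.χ γ * B.y ^ l * (c • x) = (c : Ω) * (B.χ γ * B.y ^ l * x) := by
        have h2 : c • x = (c : Ω) * x := rfl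
        rw [h2]
        ring
      rw [h1]
      exact J_mul_left B c.2 hx
  unfold J at ha
  induction ha using Submodule.span_induction with
  | mem z hz => exact key z hz
  | zero => rw [zero_mul]; exact (J B (N + N')).zero_mem
  | add x y _ _ hx hy => rw [add_mul]; exact (J B (N + N')).add_mem hx hy
  | smul c x _ hx =>
    have h1 : c • x * b = (c : Ω) * (x * b) := mul_assoc _ _ _
    rw [h1]
    exact J_mul_left B c.2 hx

theorem mem_J_zero (B : BF k v) {a : Ω} (ha : a ∈ B.R) : a ∈ J B 0 := by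
  have h1 : (1 : Ω) ∈ J B 0 := by
    refine Submodule.subset_span ⟨0, B.Γ.zero_mem, 0, le_rfl, by simp, ?_⟩
    rw [B.χ_zero, pow_zero, mul_one]
  have h2 := J_mul_left B ha h1
  rwa [mul_one] at h2

theorem χ_mem_J (B : BF k v) {N γ : ℝ} (hγ : γ ∈ B.Γ) (h0 : 0 ≤ γ) (h : N ≤ γ) :
    B.χ γ ∈ J B N :=
  Submodule.subset_span ⟨γ, hγ, 0, h0, by simpa using h, by rw [pow_zero, mul_one]⟩

theorem y_mem_J (B : BF k v) {N : ℝ} (h : N ≤ v B.y) : B.y ∈ J B N :=
  Submodule.subset_span ⟨0, B.Γ.zero_mem, 1, le_rfl, by simpa using h, by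
    rw [B.χ_zero, pow_one, one_mul]⟩

/-- `m^M ⊆ J_(M ε)`. -/
theorem inPow_mem_J (B : BF k v) (N : NF k v r) (hR : N.R ≤ B.R) {ε : ℝ}
    (hx : ∀ i, N.x i ∈ J B ε) (hy : N.y ∈ J B ε) (M : ℕ) {e : Ω} (he : N.InPow M e) :
    e ∈ J B (M * ε) := by
  let I : ℝ → Ideal N.R := fun c =>
    { carrier := {z | (z : Ω) ∈ J B c}
      add_mem' := fun {a b} ha hb => (J B c).add_mem ha hb
      zero_mem' := (J B c).zero_mem
      smul_mem' := fun a b hb => J_mul_left B (hR a.2) hb }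
  have h1 : N.m ≤ I ε := by
    refine Ideal.span_le.2 ?_
    rintro z (⟨i, hz⟩ | hz)
    · change (z : Ω) ∈ J B ε
      rw [hz]; exact hx i
    · change (z : Ω) ∈ J B ε
      rw [hz]; exact hy
  have h2 : ∀ M : ℕ, N.m ^ M ≤ I (M * ε) := by
    intro M
    induction M with
    | zero =>
      intro z _
      change (z : Ω) ∈ J B _
      rw [Nat.cast_zero, zero_mul]
      exact mem_J_zero B (hR z.2)
    | succ M ih =>
      rw [pow_succ]
      refine Ideal.mul_le.2 fun z hz w hw => ?_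
      change (z : Ω) * (w : Ω) ∈ J B _
      have h3 := J_mul B (ih hz) (h1 hw)
      have h4 : ((M + 1 : ℕ) : ℝ) * ε = M * ε + ε := by push_cast; ring
      rw [h4]
      exact h3
  obtain ⟨z, hz, rfl⟩ := he
  exact h2 M hz

/-- Expansions. -/
theorem exp (hC : Ctx2 k v r) (B : BF k v) (hB : B.Res) {f : Ω} (hf : f ∈ B.R) (N : ℝ) :
    ∃ P : (Lau k)[X], SuppIn B.Γ P ∧ (∀ γ l, co P γ l ≠ 0 → 0 ≤ γ) ∧ f - B.ev P ∈ J B N := by
  classical
  obtain ⟨S0, G, hS0, hG, hTG, H⟩ := BF.exists_NF2 hC B {f} (by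
    intro g hg
    rw [Finset.mem_singleton] at hg
    rw [hg]; exact hf)
  obtain ⟨u, hu⟩ := BF.exists_basis2 hC B S0 hS0
  obtain ⟨Nf, hx, hy, -, hle, hfN⟩ := H u hu
  have hres : Nf.Res := fun g hg => hB g (hle hg)
  obtain ⟨ε, hε, hεu, hεy⟩ : ∃ ε : ℝ, 0 < ε ∧ (∀ i, ε ≤ u i) ∧ ε ≤ v B.y := by
    have hne : (Finset.univ : Finset (Fin r)).Nonempty := ⟨⟨0, hC.rpos⟩, Finset.mem_univ _⟩
    obtain ⟨i, -, hi⟩ := Finset.exists_min_image Finset.univ u hne
    refine ⟨min (u i) (v B.y), lt_min (hu.pos i) B.y_pos, fun j => ?_, min_le_right _ _⟩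
    exact (min_le_left _ _).trans (hi j (Finset.mem_univ j))
  obtain ⟨M, hM⟩ := exists_nat_ge (N / ε)
  obtain ⟨P, -, h1, h2, h3⟩ := NF.expand2 hC B Nf hres u (fun i => ⟨hu.mem i, hu.pos i⟩) hx hy f
    (hfN f (Finset.mem_singleton_self f)) M
  refine ⟨P, h1, h2, J_mono B ?_ (inPow_mem_J B Nf hle (ε := ε) ?_ ?_ M h3)⟩
  · rwa [div_le_iff₀ hε] at hM
  · intro i
    rw [hx]
    exact χ_mem_J B (hu.mem i) (hu.pos i).le (hεu i)
  · rw [hy]
    exact y_mem_J B hεy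

/-- After a step the elements of `J_N` are divisible by the monomial of value `N`. -/
theorem J_step {B B' : BF k v} {q : ℕ} {M : B.R[X]} {s : ℝ → ℤ → ℤ} (hG : IsGStep B B' q M s)
    {N : ℝ} (hN : N ∈ B'.Γ) {e : Ω} (he : e ∈ J B N) : ∃ b ∈ B'.R, e = B'.χ N * b := by
  unfold J at he
  induction he using Submodule.span_induction with
  | mem z hz =>
    obtain ⟨γ, hγ, l, h0, h1, rfl⟩ := hz
    have h2 := hG.χ_mul hγ (l : ℤ)
    rw [zpow_natCast] at h2
    have h3 : γ + ((l : ℤ) : ℝ) * v B.y ∈ B'.Γ := by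
      refine B'.Γ.add_mem (hG.Γ_le hγ) ?_
      rw [← zsmul_eq_mul]
      exact B'.Γ.zsmul_mem hG.β_mem _
    obtain ⟨a, ha, h4⟩ := B'.χ_dvd h3 hN (by push_cast; exact h1)
    refine ⟨a * (B.w q) ^ (s γ l), B'.R.mul_mem ha (hG.un_w.zpow _).1, ?_⟩
    rw [h2, h4]
    ring
  | zero => exact ⟨0, B'.R.zero_mem, by rw [mul_zero]⟩
  | add x y _ _ hx hy =>
    obtain ⟨a, ha, rfl⟩ := hx
    obtain ⟨b, hb, rfl⟩ := hy
    exact ⟨a + b, B'.R.add_mem ha hb, by ring⟩
  | smul c x _ hx =>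
    obtain ⟨a, ha, rfl⟩ := hx
    refine ⟨c * a, B'.R.mul_mem (hG.R_le c.2) ha, ?_⟩
    have h1 : c • (B'.χ N * a) = (c : Ω) * (B'.χ N * a) := rfl
    rw [h1]
    ring

/-- The constant term of an evaluation. -/
theorem ev_sub_const (hC : Ctx2 k v r) (B : BF k v) {P : (Lau k)[X]} (hP : SuppIn B.Γ P)
    (h0 : ∀ γ l, co P γ l ≠ 0 → 0 ≤ γ) : VPos v (B.ev P - algebraMap k Ω (co P 0 0)) := by
  classical
  set Q : (Lau k)[X] := C (mon 0 (co P 0 0)) with hQ
  have hQc : ∀ γ l, co Q γ l = if ((0 : ℝ), 0) = (γ, l) then co P 0 0 else 0 := by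
    intro γ l
    rw [hQ, ← Polynomial.monomial_zero_left]
    exact Pool.Agent.LU1.R1.co_monomial 0 l 0 γ _
  have h1 : B.ev Q = algebraMap k Ω (co P 0 0) := by
    rw [hQ, EvalAux.ev_C, B.χ_zero, mul_one]
  rw [← h1, ← B.ev_sub, B.ev_eq]
  have hco : ∀ γ l, co (P - Q) γ l ≠ 0 → co P γ l ≠ 0 ∧ ((0 : ℝ), 0) ≠ (γ, l) := by
    intro γ l h
    have h2 : co (P - Q) γ l = co P γ l - co Q γ l := by
      have h3 := Pool.Agent.LU1.R1.co_add (P - Q) Q γ l
      rw [sub_add_cancel] at h3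
      rw [h3]; ring
    rw [h2, hQc] at h
    by_cases h4 : ((0 : ℝ), 0) = (γ, l)
    · exfalso
      rw [if_pos h4] at h
      obtain ⟨rfl, rfl⟩ := Prod.mk.inj h4
      exact h (sub_self _)
    · rw [if_neg h4, sub_zero] at h
      exact ⟨h, h4⟩
  have hsum : ∀ (ι : Type) (s : Finset ι) (g : ι → Ω), (∀ i ∈ s, VPos v (g i)) →
      VPos v (∑ i ∈ s, g i) := by
    intro ι s g hg
    induction s using Finset.induction_on with
    | empty => rw [Finset.sum_empty]; exact VPos.zero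
    | insert a s ha ih =>
      rw [Finset.sum_insert ha]
      exact (hg a (Finset.mem_insert_self a s)).add
        (ih fun i hi => hg i (Finset.mem_insert_of_mem hi))
  refine hsum _ _ _ fun l _ => hsum _ _ _ fun γ hγ => ?_
  obtain ⟨h2, h3⟩ := hco γ l (Finsupp.mem_support_iff.1 hγ)
  have hγΓ := hP γ l h2
  rw [mul_assoc]
  refine VPos.mul' (hC.ge _) ?_
  intro _
  rw [v.map_mul (B.χ_ne γ hγΓ) (pow_ne_zero _ B.y_ne), B.χ_val γ hγΓ, v.map_pow B.y_ne]
  have h4 := h0 γ l h2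
  rcases h4.lt_or_eq with h5 | h5
  · exact add_pos_of_pos_of_nonneg h5 (mul_nonneg (Nat.cast_nonneg _) B.y_pos.le)
  · have hl : 0 < l := by
      rcases Nat.eq_zero_or_pos l with h6 | h6
      · exfalso
        apply h3
        rw [h6, ← h5]
      · exact h6
    rw [← h5, zero_add]
    exact mul_pos (by exact_mod_cast hl) B.y_pos

/-- The strong form with an expansion: `V` is visible, `f - g ^ p = V(χ, y) + χ(κ) e`. -/
theorem expSF (p : ℕ) [Fact p.Prime] [CharP k p] (O : Om k p) (hC : Ctx2 k v r) (B : BF k v)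
    (hB : B.Res) {f : Ω} {κ : ℝ} {D : ℕ} (hf : SF p B f κ D) (N : ℝ) :
    ∃ g ∈ quo B.R, ∃ V : (Lau k)[X], SuppIn B.Γ V ∧ VisPart O B.Γ V V ∧ IsLD All V 0 κ D ∧
      ∃ e ∈ J B N, f - g ^ p = B.ev V + B.χ κ * e := by
  classical
  have hcharΩ : CharP Ω p := charP_of_injective_algebraMap (algebraMap k Ω).injective p
  obtain ⟨hκ, g, hg, u, hu, δ, hδ, hδ0, a, ha, heq, hSV⟩ := hf
  obtain ⟨Pu, hPu, hPu0, he1⟩ := exp hC B hB hu.1 (max N 1)
  obtain ⟨Pa, hPa, hPa0, he2⟩ := exp hC B hB ha N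
  have he1N : u - B.ev Pu ∈ J B N := J_mono B (le_max_left _ _) he1
  have he1p : VPos v (u - B.ev Pu) := by
    intro h0
    have h1 := J_ge B he1 h0
    exact lt_of_lt_of_le one_pos ((le_max_right _ _).trans h1)
  -- the constant term of `Pu`
  set c : k := co Pu 0 0 with hc
  have huc : VPos v (u - algebraMap k Ω c) := by
    have h1 := he1p.add (ev_sub_const hC B hPu hPu0)
    rwa [sub_add_sub_cancel] at h1
  have hc0 : c ≠ 0 := by
    intro h1
    rw [h1, map_zero, sub_zero] at huc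
    have h2 := huc hu.2.1
    rw [hu.2.2] at h2
    exact lt_irrefl _ h2
  -- the polynomial
  set P1 : (Lau k)[X] := C (mon κ 1) * (Pu * X ^ D) with hP1
  set P2 : (Lau k)[X] := C (mon κ 1) * (C (mon δ 1) * Pa) with hP2
  have sX : SuppIn B.Γ (X ^ D : (Lau k)[X]) := EvalAux.suppIn_pow EvalAux.suppIn_X D
  have sκ : SuppIn B.Γ (C (mon κ 1) : (Lau k)[X]) := EvalAux.suppIn_C hκ 1
  have sδ : SuppIn B.Γ (C (mon δ 1) : (Lau k)[X]) := EvalAux.suppIn_C hδ 1
  have hP1s : SuppIn B.Γ P1 := sκ.mul (hPu.mul sX)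
  have hP2s : SuppIn B.Γ P2 := sκ.mul (sδ.mul hPa)
  have hev1 : B.ev P1 = B.χ κ * (B.ev Pu * B.y ^ D) := by
    rw [hP1, B.ev_mul sκ (hPu.mul sX), B.ev_mul hPu sX, EvalAux.ev_C, map_one, one_mul,
      EvalAux.ev_pow B EvalAux.suppIn_X, EvalAux.ev_X]
  have hev2 : B.ev P2 = B.χ κ * (B.χ δ * B.ev Pa) := by
    rw [hP2, B.ev_mul sκ (sδ.mul hPa), B.ev_mul sδ hPa, EvalAux.ev_C, EvalAux.ev_C, map_one,
      one_mul, one_mul]
  have hco1 : ∀ γ l, co P1 γ l = if D ≤ l then co Pu (γ - κ) (l - D) else 0 := by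
    intro γ l
    rw [hP1, NFc.co_mon_mul]
    unfold co
    rw [coeff_mul_X_pow']
    split_ifs
    · rfl
    · rfl
  have hco2 : ∀ γ l, co P2 γ l = co Pa (γ - κ - δ) l := by
    intro γ l
    rw [hP2, NFc.co_mon_mul, NFc.co_mon_mul]
  have hcoP : ∀ γ l, co (P1 + P2) γ l =
      (if D ≤ l then co Pu (γ - κ) (l - D) else 0) + co Pa (γ - κ - δ) l := by
    intro γ l
    rw [Pool.Agent.LU1.R1.co_add, hco1, hco2]
  have hlow : ∀ γ l, co (P1 + P2) γ l ≠ 0 → κ ≤ γ ∧ (l < D → κ < γ) := by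
    intro γ l h
    rw [hcoP] at h
    by_cases h1 : co Pa (γ - κ - δ) l = 0
    · rw [h1, add_zero] at h
      by_cases h2 : D ≤ l
      · rw [if_pos h2] at h
        have h3 := hPu0 _ _ h
        exact ⟨by linarith, fun h4 => absurd h4 (not_lt.2 h2)⟩
      · rw [if_neg h2] at h
        exact absurd rfl h
    · have h3 := hPa0 _ _ h1
      exact ⟨by linarith, fun _ => by linarith⟩
  have hlead : co (P1 + P2) κ D = c := by
    rw [hcoP, if_pos le_rfl, sub_self, Nat.sub_self]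
    have h1 : co Pa (0 - δ) D = 0 := by
      by_contra h2
      have h3 := hPa0 _ _ h2
      linarith
    rw [h1, add_zero]
  obtain ⟨V, h, hV, hh, hVh⟩ := exists_visPart p O (hP1s.add hP2s)
  have hVs : SuppIn B.Γ V := hV.suppIn (hP1s.add hP2s)
  refine ⟨g + B.ev h, (quo B.R).add_mem hg ?_, V, hVs, ?_, ⟨?_, ?_, ?_, trivial⟩,
    (u - B.ev Pu) * B.y ^ D + B.χ δ * (a - B.ev Pa), ?_, ?_⟩
  · -- `ev h` is a quotient
    rw [B.ev_eq]
    refine (quo B.R).sum_mem fun l _ => (quo B.R).sum_mem fun γ hγ => ?_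
    have h1 := hh γ l (Finsupp.mem_support_iff.1 hγ)
    refine (quo B.R).mul_mem ((quo B.R).mul_mem ((quo B.R).algebraMap_mem _) ?_)
      (pow_mem (le_quo B.y_mem) l)
    rcases le_total 0 γ with h2 | h2
    · exact le_quo (B.χ_mem γ h1 h2)
    · have h3 := (quo B.R).inv_mem
        (le_quo (B.χ_mem (-γ) (B.Γ.neg_mem h1) (neg_nonneg.2 h2)))
      rwa [B.χ_neg h1, inv_inv] at h3
  · intro γ l
    refine ⟨fun h2 => ?_, fun _ => rfl⟩
    rw [(hV γ l).1 h2, O.idem]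
  · intro γ l h1 _
    rw [mul_zero, add_zero]
    exact (hlow γ l (hV.ne h1)).1
  · intro γ l h1 _ h2
    rw [mul_zero, add_zero]
    exact (hlow γ l (hV.ne h1)).2 h2
  · rw [mul_zero, sub_zero]
    by_cases hinv : Inv p B.Γ κ D
    · rw [(hV κ D).1 hinv, hlead]
      intro h1
      obtain ⟨x, hx⟩ := O.eq_zero h1
      rcases hSV with h2 | h2 | h2
      · exact h2 hinv.2
      · exact h2 hinv.1
      · refine h2 (algebraMap k Ω x) (B.R.algebraMap_mem x) ?_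
        rw [← map_pow, ← hx]
        exact huc
    · rw [(hV κ D).2 hinv, hlead]
      exact hc0
  · refine (J B N).add_mem ?_ (J_mul_left B (B.χ_mem δ hδ hδ0.le) he2)
    rw [mul_comm]
    exact J_mul_left B (B.R.pow_mem B.y_mem D) he1N
  · have h1 : B.ev V + B.ev h ^ p = B.χ κ * (B.ev Pu * B.y ^ D) +
        B.χ κ * (B.χ δ * B.ev Pa) := by
      rw [← EvalAux.ev_pow B hh, ← B.ev_add, ← hVh, B.ev_add, hev1, hev2]
    have h2 : (g + B.ev h) ^ p = g ^ p + B.ev h ^ p := add_pow_char _ _ _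
    rw [h2]
    linear_combination heq - h1

end Pool.Agent.LU2T
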