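import Pool.Agent.Lib.LU2_PI.Start
import Pool.Agent.Lib.LU1_h15.Tail

/-! # LU2, ML: the order drops after finitely many steps in a frame with coefficient field -/

set_option autoImplicit false

open Polynomial

namespace Pool.Agent.LU2T

open Pool.Agent.H15JM (RVal)
open Pool.Agent.LU1
open Pool.Agent.LU1.R1 (co_zero co_add co_sum co_ext co_monomial)

universe u

variable {k Ω : Type u} [Field k] [Field Ω] [Algebra k Ω] {v : RVal Ω} {r : ℕ}

/-- The leading part of a polynomial after a G-step. -/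
theorem split {B B' : BF k v} {q : ℕ} {M : B.R[X]} {s : ℝ → ℤ → ℤ} (hst : IsGStep B B' q M s)
    {V : (Lau k)[X]} (hV : SuppIn B.Γ V) {e : Ω} {τ : ℝ}
    (h1 : ∀ γ l, co V γ l ≠ 0 → τ ≤ γ + l * v B.y)
    (h2 : ∃ l : ℕ, co V (τ - l * v B.y) l ≠ 0)
    (he : ∃ ν ∈ B'.Γ, τ < ν ∧ ∃ b ∈ B'.R, e = B'.χ ν * b) (I : Finset ℕ)
    (hmem : ∀ l : ℕ, l ∈ I ↔ co V (τ - l * v B.y) l ≠ 0) (K : ℕ)
    (hK : ∀ l ∈ I, 0 ≤ s (τ - l * v B.y) l + (K : ℤ)) :
    τ ∈ B'.Γ ∧ ∃ δ ∈ B'.Γ, 0 < δ ∧ ∃ b ∈ B'.R, B.ev V + e = B'.χ τ *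
      ((B.w q) ^ (-(K : ℤ)) * aeval (B.w q) (∑ l ∈ I, C (co V (τ - l * v B.y) l) *
        X ^ (s (τ - l * v B.y) l + (K : ℤ)).toNat : k[X]) + B'.χ δ * b) := by
  classical
  set β := v B.y with hβ
  set w := B.w q with hw
  have hw0 : w ≠ 0 := hst.w_ne
  have hwU : B'.Un w := hst.un_w
  obtain ⟨S, hS⟩ := Pool.Agent.LU1.A3.exists_finset_co V
  have hτ : τ ∈ B'.Γ := by
    obtain ⟨l, hl⟩ := h2
    have h3 := B'.Γ.add_mem (hst.Γ_le (hV _ _ hl)) (B'.Γ.nsmul_mem hst.β_mem l)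
    rw [nsmul_eq_mul] at h3
    have h4 : τ - (l : ℝ) * β + l * v B.y = τ := by rw [hβ]; ring
    rwa [h4] at h3
  set a : k[X] := ∑ l ∈ I, C (co V (τ - l * β) l) * X ^ (s (τ - l * β) l + (K : ℤ)).toNat
    with ha
  set Vτ : (Lau k)[X] := ∑ l ∈ I, C (mon (τ - l * β) (co V (τ - l * β) l)) * X ^ l with hVτ
  have hevτ : B.ev Vτ = B'.χ τ * (w ^ (-(K : ℤ)) * aeval w a) := by
    rw [hVτ, B.ev_sum, ha, map_sum, Finset.mul_sum, Finset.mul_sum]
    refine Finset.sum_congr rfl fun l hl => ?_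
    rw [B.ev_monomial, map_mul, aeval_C, map_pow, aeval_X]
    have h3 := hst.χ_mul (hV _ _ ((hmem l).1 hl)) (l : ℤ)
    rw [zpow_natCast, Int.cast_natCast] at h3
    have h4 : τ - (l : ℝ) * β + l * v B.y = τ := by rw [hβ]; ring
    rw [h4] at h3
    have h5 : w ^ (s (τ - l * β) l + (K : ℤ)).toNat = w ^ (s (τ - l * β) l + (K : ℤ)) := by
      rw [← zpow_natCast, Int.toNat_of_nonneg (hK l hl)]
    have h6 : w ^ (s (τ - l * β) l) = w ^ (-(K : ℤ)) *
        w ^ (s (τ - l * β) l + (K : ℤ)) := by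
      rw [← zpow_add₀ hw0]
      congr 1
      ring
    rw [h5, mul_assoc, h3, h6]
    ring
  have hcoτ : ∀ γ l, co Vτ γ l = if γ + l * β = τ then co V γ l else 0 := by
    intro γ l
    rw [hVτ, co_sum]
    have h3 : ∀ l' ∈ I, co (C (mon (τ - l' * β) (co V (τ - l' * β) l')) * X ^ l') γ l =
        if l' = l ∧ γ + l * β = τ then co V γ l else 0 := by
      intro l' _
      rw [C_mul_X_pow_eq_monomial, co_monomial]
      by_cases h4 : l' = l ∧ γ + l * β = τ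
      · obtain ⟨rfl, h5⟩ := h4
        have h6 : γ = τ - l' * β := by linarith
        rw [if_pos (show (τ - (l' : ℝ) * β, l') = (γ, l') by rw [h6]), if_pos ⟨rfl, h5⟩, ← h6]
      · rw [if_neg h4, if_neg]
        intro h5
        apply h4
        have h6 : τ - (l' : ℝ) * β = γ := (Prod.ext_iff.1 h5).1
        have h7 : l' = l := (Prod.ext_iff.1 h5).2
        refine ⟨h7, ?_⟩
        rw [← h6, h7]; ring
    rw [Finset.sum_congr rfl h3]
    by_cases h4 : γ + l * β = τ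
    · simp only [h4, and_true, if_true]
      rw [Finset.sum_ite_eq' I l fun _ => co V γ l]
      split_ifs with h5
      · rfl
      · have h6 : γ = τ - l * β := by linarith
        rw [hmem, not_not, ← h6] at h5
        exact h5.symm
    · simp only [h4, and_false, if_false]
      exact Finset.sum_const_zero
  set Vr : (Lau k)[X] := V - Vτ with hVr
  have hVsum : V = Vτ + Vr := by rw [hVr]; ring
  have hcor : ∀ γ l, co Vr γ l ≠ 0 → co V γ l ≠ 0 ∧ γ + l * β ≠ τ := by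
    intro γ l h0
    have h3 := congrArg (fun P => co P γ l) hVsum
    simp only [co_add, hcoτ] at h3
    by_cases h4 : γ + l * β = τ
    · rw [if_pos h4] at h3
      exfalso
      apply h0
      linear_combination -h3
    · rw [if_neg h4, zero_add] at h3
      rw [h3]
      exact ⟨h0, h4⟩
  obtain ⟨ν, hν, hτν, b, hb, rfl⟩ := he
  obtain ⟨ν', hν', hτν', hle, hgap⟩ := exists_gap hν hτν
    (S.filter fun a => a.1 + a.2 * β ≠ τ) (fun a => a.1 + a.2 * β) (by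
      intro a ha
      obtain ⟨h3, h4⟩ := Finset.mem_filter.1 ha
      have h5 := (hS a.1 a.2).1 h3
      refine ⟨?_, lt_of_le_of_ne (h1 _ _ h5) (Ne.symm h4)⟩
      have h6 := B'.Γ.add_mem (hst.Γ_le (hV _ _ h5)) (B'.Γ.nsmul_mem hst.β_mem a.2)
      rwa [nsmul_eq_mul] at h6)
  obtain ⟨b1, hb1, hev1⟩ := ev_step hst (P := Vr) (fun γ l h0 => hV γ l (hcor γ l h0).1) hν'
    (fun γ l h0 => hgap (γ, l) (Finset.mem_filter.2 ⟨(hS γ l).2 (hcor γ l h0).1, (hcor γ l h0).2⟩))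
  refine ⟨hτ, ν' - τ, B'.Γ.sub_mem hν' hτ, sub_pos.2 hτν', b1 + B'.χ (ν - ν') * b,
    B'.R.add_mem hb1 (B'.R.mul_mem (B'.χ_mem _ (B'.Γ.sub_mem hν hν') (sub_nonneg.2 hle)) hb), ?_⟩
  have h3 : B'.χ τ * B'.χ (ν' - τ) = B'.χ ν' := by
    rw [← B'.χ_add τ hτ _ (B'.Γ.sub_mem hν' hτ)]
    congr 1; ring
  have h4 : B'.χ ν' * B'.χ (ν - ν') = B'.χ ν := by
    rw [← B'.χ_add ν' hν' _ (B'.Γ.sub_mem hν hν')]
    congr 1; ring
  rw [hVsum, B.ev_add, hevτ, hev1, mul_add, add_assoc, ← mul_assoc (B'.χ τ) (B'.χ (ν' - τ)), h3,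
    mul_add, ← mul_assoc (B'.χ ν'), h4]

/-- A polynomial with nonnegative exponents is congruent to its constant term. -/
theorem ev_vpos (hC : Ctx2 k v r) (B : BF k v) {P : (Lau k)[X]} (hP : SuppIn B.Γ P)
    (h0 : ∀ γ l, co P γ l ≠ 0 → 0 ≤ γ) : VPos v (B.ev P - algebraMap k Ω (co P 0 0)) := by
  classical
  have hsub : B.ev (C (mon 0 (co P 0 0))) = algebraMap k Ω (co P 0 0) := by
    rw [EvalAux.ev_C, B.χ_zero, mul_one]
  rw [← hsub, ← B.ev_sub, B.ev_eq]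
  have hco : ∀ γ l, co (P - C (mon 0 (co P 0 0))) γ l =
      if (0, 0) = (γ, l) then 0 else co P γ l := by
    intro γ l
    have h2 := co_add (P - C (mon 0 (co P 0 0))) (C (mon 0 (co P 0 0))) γ l
    rw [sub_add_cancel] at h2
    have h3 : co (C (mon 0 (co P 0 0)) : (Lau k)[X]) γ l =
        if (0, 0) = (γ, l) then co P 0 0 else 0 := by
      rw [← monomial_zero_left, co_monomial]
    rw [h3] at h2
    split_ifs at h2 ⊢ with h4
    · have h5 : γ = 0 := (Prod.ext_iff.1 h4).1.symm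
      have h6 : l = 0 := (Prod.ext_iff.1 h4).2.symm
      rw [h5, h6] at h2 ⊢
      linear_combination -h2
    · rw [add_zero] at h2
      exact h2.symm
  have hs : ∀ t : Finset ℕ, ∀ t' : ℕ → Finset ℝ, (∀ l ∈ t, ∀ γ ∈ t' l,
      co (P - C (mon 0 (co P 0 0))) γ l ≠ 0) → VPos v (∑ l ∈ t, ∑ γ ∈ t' l,
      algebraMap k Ω (co (P - C (mon 0 (co P 0 0))) γ l) * B.χ γ * B.y ^ l) := by
    intro t t' ht
    have hsum : ∀ (ι : Type) (u : Finset ι) (φ : ι → Ω), (∀ i ∈ u, VPos v (φ i)) →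
        VPos v (∑ i ∈ u, φ i) := by
      intro ι u φ
      induction u using Finset.induction_on with
      | empty => intro _; rw [Finset.sum_empty]; exact VPos.zero
      | insert a u ha ih =>
        intro h
        rw [Finset.sum_insert ha]
        exact (h a (Finset.mem_insert_self a u)).add
          (ih fun i hi => h i (Finset.mem_insert_of_mem hi))
    refine hsum _ _ _ fun l hl => hsum _ _ _ fun γ hγ => ?_
    have h1 := ht l hl γ hγ
    rw [hco] at h1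
    have h2 : (0, 0) ≠ (γ, l) := by
      intro h3
      rw [if_pos h3] at h1
      exact h1 rfl
    rw [if_neg h2] at h1
    have hγΓ := hP γ l h1
    have hγ0 := h0 γ l h1
    rcases hγ0.lt_or_eq with h3 | h3
    · exact (VPos.mul' (hC.ge _) (B.vpos_χ hγΓ h3)).mul (B.nonneg _ (B.R.pow_mem B.y_mem l))
    · have hl : l ≠ 0 := by
        rintro rfl
        exact h2 (by rw [← h3])
      obtain ⟨n, rfl⟩ : ∃ n, l = n + 1 := ⟨l - 1, by omega⟩
      rw [pow_succ, ← mul_assoc]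
      refine VPos.mul' ?_ B.vpos_y
      have h4 : algebraMap k Ω (co (P - C (mon 0 (co P 0 0))) γ (n + 1)) * B.χ γ * B.y ^ n ∈ B.R :=
        B.R.mul_mem (B.R.mul_mem (B.R.algebraMap_mem _) (B.χ_mem γ hγΓ hγ0))
          (B.R.pow_mem B.y_mem n)
      exact B.nonneg _ h4
  exact hs _ _ fun l _ γ hγ => Finsupp.mem_support_iff.1 hγ

/-- Expansion of an element with given content and order. -/
theorem exp_rep (hC : Ctx2 k v r) (B : BF k v) (hB : B.Res) {f : Ω} {κ : ℝ} {D : ℕ}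
    (hf : B.Rep f κ D) {N : ℝ} (hN : 0 < N) :
    ∃ V : (Lau k)[X], SuppIn B.Γ V ∧ IsLD All V 0 κ D ∧
      ∃ e ∈ J B N, f = B.ev V + B.χ κ * e := by
  obtain ⟨hκ, u, hu, δ, hδ, hδ0, a, ha, rfl⟩ := hf
  obtain ⟨Pu, hPu, hPu0, heu⟩ := exp hC B hB hu.1 N
  obtain ⟨Pa, hPa, hPa0, hea⟩ := exp hC B hB ha N
  have hX : SuppIn B.Γ (X ^ D : (Lau k)[X]) := EvalAux.suppIn_pow EvalAux.suppIn_X D
  have hPuD : SuppIn B.Γ (Pu * X ^ D) := hPu.mul hX
  have hPaδ : SuppIn B.Γ (C (mon δ 1) * Pa) := (EvalAux.suppIn_C hδ 1).mul hPa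
  have hsum : SuppIn B.Γ (Pu * X ^ D + C (mon δ 1) * Pa) := hPuD.add hPaδ
  have hco : ∀ γ l, co (C (mon κ 1) * (Pu * X ^ D + C (mon δ 1) * Pa)) γ l =
      (if D ≤ l then co Pu (γ - κ) (l - D) else 0) + co Pa (γ - κ - δ) l := by
    intro γ l
    rw [NFc.co_mon_mul, co_add, NFc.co_mon_mul]
    congr 1
    unfold co
    rw [coeff_mul_X_pow']
    split_ifs
    · rfl
    · rfl
  have huc : co Pu 0 0 ≠ 0 := by
    intro h0
    have h1 := ev_vpos hC B hPu hPu0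
    rw [h0, map_zero, sub_zero] at h1
    have h2 : VPos v (u - B.ev Pu) := fun h3 => lt_of_lt_of_le hN (J_ge B heu h3)
    have h3 := h2.add h1
    rw [sub_add_cancel] at h3
    have h4 := h3 hu.2.1
    rw [hu.2.2] at h4
    exact lt_irrefl _ h4
  refine ⟨C (mon κ 1) * (Pu * X ^ D + C (mon δ 1) * Pa), (EvalAux.suppIn_C hκ 1).mul hsum,
    ⟨fun γ l h0 _ => ?_, fun γ l h0 _ hl => ?_, ?_, trivial⟩,
    (u - B.ev Pu) * B.y ^ D + B.χ δ * (a - B.ev Pa), ?_, ?_⟩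
  · rw [mul_zero, add_zero]
    rw [hco] at h0
    by_cases h1 : co Pa (γ - κ - δ) l = 0
    · rw [h1, add_zero] at h0
      split_ifs at h0
      · have := hPu0 _ _ h0
        linarith
      · exact absurd rfl h0
    · have := hPa0 _ _ h1
      linarith
  · rw [mul_zero, add_zero]
    rw [hco, if_neg (by omega), zero_add] at h0
    have := hPa0 _ _ h0
    linarith
  · rw [mul_zero, sub_zero, hco, if_pos le_rfl, Nat.sub_self, sub_self]
    have h1 : co Pa (0 - δ) D = 0 := by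
      by_contra h2
      have := hPa0 _ _ h2
      linarith
    rw [h1, add_zero]
    exact huc
  · refine (J B N).add_mem ?_ ?_
    · have h1 := (J B N).smul_mem (⟨B.y ^ D, B.R.pow_mem B.y_mem D⟩ : B.R) heu
      rw [Algebra.smul_def] at h1
      rw [mul_comm]
      exact h1
    · have h1 := (J B N).smul_mem (⟨B.χ δ, B.χ_mem δ hδ hδ0.le⟩ : B.R) hea
      rw [Algebra.smul_def] at h1
      exact h1
  · rw [B.ev_mul (EvalAux.suppIn_C hκ 1) hsum, B.ev_add, B.ev_mul hPu hX,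
      B.ev_mul (EvalAux.suppIn_C hδ 1) hPa, EvalAux.ev_C, EvalAux.ev_C, map_one, one_mul, one_mul,
      EvalAux.ev_pow B EvalAux.suppIn_X, EvalAux.ev_X]
    ring

/-- The order after a C-step. -/
theorem rep_step (hC : Ctx2 k v r) {B B' : BF k v} (hB : B.Res)
    {q : ℕ} {h : k[X]} {s : ℝ → ℤ → ℤ} (hG : IsCStep B B' q h s) {f : Ω} {κ : ℝ} {D : ℕ}
    (hf : B.Rep f κ D) :
    ∃ κ' D', B'.Rep f κ' D' ∧ q * h.natDegree * D' ≤ D ∧ (D' = D → κ' = κ + D * v B.y) := by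
  classical
  have hst := hG.step
  have hL := hst.latData
  obtain ⟨N, hN, hND, hN0⟩ : ∃ N ∈ B.Γ, D * v B.y < N ∧ 0 < N := by
    obtain ⟨m, hm, h1⟩ := B.full B.y B.y_ne
    have h2 : (1 : ℝ) ≤ m := by exact_mod_cast hm
    have h3 := B.y_pos
    have h4 : v B.y ≤ m * v B.y := by nlinarith
    have h5 : (D : ℝ) * v B.y ≤ D * (m * v B.y) :=
      mul_le_mul_of_nonneg_left h4 (Nat.cast_nonneg D)
    have h6 : 0 ≤ (D : ℝ) * v B.y := mul_nonneg (Nat.cast_nonneg D) h3.le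
    refine ⟨((D + 1 : ℕ) : ℝ) * (m * v B.y), ?_, ?_, ?_⟩
    · rw [← nsmul_eq_mul]
      exact B.Γ.nsmul_mem h1 _
    · push_cast
      nlinarith
    · push_cast
      nlinarith
  have hκ : κ ∈ B.Γ := hf.1
  obtain ⟨V, hV, hLD, e, he, hfe⟩ := exp_rep hC B hB hf hN0
  obtain ⟨l1, l2, l3, -⟩ := id hLD
  simp only [mul_zero, add_zero, sub_zero] at l1 l2 l3
  obtain ⟨τ, L0, t1, -, t3, -⟩ := exists_IsLD All V (v B.y) ⟨κ, D, l3, trivial⟩
  have hτ : τ ≤ κ + D * v B.y := t1 κ D l3 trivial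
  have hκ' : κ + N ∈ B'.Γ := hst.Γ_le (B.Γ.add_mem hκ hN)
  obtain ⟨b, hb, rfl⟩ := J_step hst (hst.Γ_le hN) he
  set I : Finset ℕ := V.support.filter fun l : ℕ => co V (τ - l * v B.y) l ≠ 0 with hI
  have hmem : ∀ l : ℕ, l ∈ I ↔ co V (τ - l * v B.y) l ≠ 0 := by
    intro l
    rw [hI, Finset.mem_filter]
    exact ⟨fun h => h.2, fun h => ⟨Pool.Agent.LU1.DD.mem_support_of_co h, h⟩⟩
  have hIne : I.Nonempty := ⟨L0, (hmem L0).2 t3⟩
  obtain ⟨K, hK⟩ : ∃ K : ℕ, ∀ l ∈ I, 0 ≤ s (τ - l * v B.y) l + (K : ℤ) := by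
    refine ⟨∑ l ∈ I, (s (τ - l * v B.y) l).natAbs, fun l hl => ?_⟩
    have h3 : (s (τ - l * v B.y) l).natAbs ≤ ∑ l ∈ I, (s (τ - l * v B.y) l).natAbs :=
      Finset.single_le_sum (f := fun l : ℕ => (s (τ - l * v B.y) l).natAbs)
        (fun _ _ => Nat.zero_le _) hl
    have h4 : ((s (τ - l * v B.y) l).natAbs : ℤ) ≤
        ((∑ l ∈ I, (s (τ - l * v B.y) l).natAbs : ℕ) : ℤ) := by exact_mod_cast h3
    have h6 : -(s (τ - l * v B.y) l) ≤ ((s (τ - l * v B.y) l).natAbs : ℤ) := by omega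
    linarith
  obtain ⟨hτΓ, δ, hδ, hδ0, b2, hb2, hmain⟩ := split hst hV (fun γ l h0 => t1 γ l h0 trivial)
    ⟨L0, t3⟩ (e := B.χ κ * (B'.χ N * b)) ⟨κ + N, hκ', by linarith, (B.χ κ / B'.χ κ) * b,
      B'.R.mul_mem (hst.ext.χ_un κ hκ).1 hb, by
        rw [B'.χ_add κ (hst.Γ_le hκ) N (hst.Γ_le hN)]
        have := B'.χ_ne κ (hst.Γ_le hκ)
        field_simp⟩ I hmem K hK
  rw [← hfe] at hmain
  set a : k[X] := ∑ l ∈ I, C (co V (τ - l * v B.y) l) *
    X ^ (s (τ - l * v B.y) l + (K : ℤ)).toNat with ha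
  have hsame : ∀ l ∈ I, ∀ l' ∈ I, (l : ℤ) - l' = q *
      (((s (τ - l * v B.y) l + (K : ℤ)).toNat : ℤ) -
        ((s (τ - l' * v B.y) l' + (K : ℤ)).toNat : ℤ)) := by
    intro l hl l' hl'
    have h1 := hL.same (hV _ _ ((hmem l).1 hl)) (hV _ _ ((hmem l').1 hl')) (l := l) (m := l')
      (by push_cast; ring)
    rw [h1, Int.toNat_of_nonneg (hK l hl), Int.toNat_of_nonneg (hK l' hl')]
    ring
  obtain ⟨ha0, lo, hlo, hi', hhi', -, -, hrange⟩ := range_bound hL.q_pos hsame hG.irr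
    (hG.not_dvd_X hC) (fun l => co V (τ - l * v B.y) l) ((hmem L0).2 t3) t3
  have hfin : FiniteMultiplicity h a :=
    finiteMultiplicity_of_degree_pos_of_monic (natDegree_pos_iff_degree_pos.mp
      hG.irr.natDegree_pos) hG.monic ha0
  obtain ⟨U, hU, hUn⟩ := hfin.exists_eq_pow_mul_and_not_dvd
  set j := multiplicity h a
  have hj := hrange j (by rw [← ha, hU]; exact Dvd.intro _ rfl)
  have hhiD : hi' ≤ D ∧ (hi' = D → τ = κ + D * v B.y) := by
    have h3 := l1 _ _ ((hmem hi').1 hhi') trivial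
    have hβ := B.y_pos
    constructor
    · by_contra hcon
      have h4 : (D : ℝ) + 1 ≤ hi' := by exact_mod_cast (by omega : D + 1 ≤ hi')
      nlinarith
    · rintro rfl
      linarith
  refine ⟨τ, j, ⟨hτΓ, (B.w q) ^ (-(K : ℤ)) * aeval (B.w q) U,
    (hst.un_w.zpow _).mul (hG.un_aeval hC hUn), δ, hδ, hδ0, b2, hb2, ?_⟩, by omega, fun h3 => ?_⟩
  · rw [hmain, hU, map_mul, map_pow, ← hG.y_eq]
    ring
  · apply hhiD.2
    have h4 : 1 ≤ q * h.natDegree := Nat.mul_pos hL.q_pos hG.irr.natDegree_pos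
    have h5 : 1 * j ≤ q * h.natDegree * j := Nat.mul_le_mul_right _ h4
    omega

/-- **The order drops** (ML). -/
theorem rep_drop (p : ℕ) [Fact p.Prime] [CharP k p] (hC : Ctx2 k v r) (B : BF k v)
    (hB : B.Res) {f : Ω} {κ : ℝ} {D : ℕ} (hf : B.Rep f κ D) (hD : 1 ≤ D) :
    ∃ (B1 B2 : BF k v) (q : ℕ) (h : k[X]) (s : ℝ → ℤ → ℤ) (κ' : ℝ) (D' : ℕ),
      Relation.ReflTransGen NG B B1 ∧ IsCStep B1 B2 q h s ∧ B2.Rep f κ' D' ∧ D' < D := by
  classical
  have hpp : p.Prime := Fact.out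
  by_contra hcon
  push Not at hcon
  have hnd : ∀ (B1 B2 : BF k v) (q : ℕ) (h : k[X]) (s : ℝ → ℤ → ℤ) (κ' : ℝ) (D' : ℕ),
      Relation.ReflTransGen NG B B1 → IsCStep B1 B2 q h s → B2.Rep f κ' D' → D ≤ D' := hcon
  -- the chain
  let σ : Type u := {x : BF k v × ℝ // Relation.ReflTransGen NG B x.1 ∧ x.1.Res ∧
    x.1.Rep f x.2 D}
  have hnext : ∀ x : σ, ∃ x' : σ, NG x.1.1 x'.1.1 ∧ x'.1.2 = x.1.2 + D * v x.1.1.y := by
    rintro ⟨⟨B1, κ1⟩, hr, hres, hsf⟩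
    simp only at hr hres hsf
    obtain ⟨B2, q, h, s, hG, hs⟩ := exists_cstep hC B1 hres
    obtain ⟨κ', D', h1, h2, h3⟩ := rep_step hC hres hG hsf
    have h5 := hnd B1 B2 q h s κ' D' hr hG h1
    have hq := hG.step.q_pos
    have hd := hG.irr.natDegree_pos
    have hqd1 : 1 ≤ q * h.natDegree := Nat.mul_pos hq hd
    have h6 : D' = D := by
      have : 1 * D' ≤ q * h.natDegree * D' := Nat.mul_le_mul_right _ hqd1
      omega
    subst h6
    have h7 : q * h.natDegree = 1 := by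
      by_contra h8
      have h9 : 2 * D' ≤ q * h.natDegree * D' := Nat.mul_le_mul_right _ (by omega)
      omega
    have hq1 : q = 1 := Nat.eq_one_of_mul_eq_one_right h7
    have hd1 : h.natDegree = 1 := Nat.eq_one_of_mul_eq_one_left h7
    have hs1 := hs hq1
    subst hq1 hs1
    have hh : h = X - C (-h.coeff 0) := by
      rw [C_neg, sub_neg_eq_add]
      conv_lhs => rw [eq_X_add_C_of_natDegree_le_one hd1.le]
      have h8 := hG.monic.coeff_natDegree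
      rw [hd1] at h8
      rw [h8, C_1, one_mul]
    have hNG : NG B1 B2 := ⟨-h.coeff 0, by rw [← hh]; exact hG⟩
    exact ⟨⟨(B2, κ'), hr.tail hNG, hNG.res hC hres, h1⟩, hNG, h3 rfl⟩
  choose nx hnx1 hnx2 using hnext
  let seq : ℕ → σ := fun n => Nat.rec ⟨(B, κ), Relation.ReflTransGen.refl, hB, hf⟩
    (fun _ x => nx x) n
  have hseq : ∀ n, seq (n + 1) = nx (seq n) := fun _ => rfl
  obtain ⟨Bs, hB0, hNG, hres, hRn⟩ : ∃ Bs : ℕ → BF k v, Bs 0 = B ∧
      (∀ n, NG (Bs n) (Bs (n + 1))) ∧ (∀ n, (Bs n).Res) ∧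
      ∀ n, (Bs n).Rep f (κ + D * bs (fun i => v (Bs i).y) n) D := by
    refine ⟨fun n => (seq n).1.1, rfl, fun n => hnx1 (seq n),
      fun n => (seq n).2.2.1, fun n => ?_⟩
    have hκs : (seq n).1.2 = κ + D * bs (fun i => v (seq i).1.1.y) n := by
      induction n with
      | zero => rw [bs_zero, mul_zero, add_zero]; rfl
      | succ n ih =>
        rw [hseq, hnx2, ih, bs_succ]
        ring
    rw [← hκs]
    exact (seq n).2.2.2
  clear_value seq
  subst hB0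
  set β : ℕ → ℝ := fun n => v (Bs n).y with hβ
  have hβpos : ∀ n, 0 < β n := fun n => (Bs n).y_pos
  have hbmono : StrictMono (bs β) := strictMono_nat_of_lt_succ fun n => by
    rw [bs_succ]
    linarith [hβpos n]
  have hb0 : ∀ n, 0 ≤ bs β n := fun n => by
    rw [← bs_zero β]
    exact hbmono.monotone (Nat.zero_le n)
  -- the contents are bounded by the value
  set Mb : ℝ := v f - κ with hMb
  have hD1 : (1 : ℝ) ≤ D := by exact_mod_cast hD
  have hDb : ∀ n, (D : ℝ) * bs β n < Mb := fun n => by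
    have h1 := (hRn n).val_pos2 hC hD
    rw [hMb]
    linarith
  have hMb' : ∀ n, bs β n ≤ Mb := fun n => by
    have h1 := hDb n
    have h2 : bs β n ≤ D * bs β n := by nlinarith [hb0 n]
    linarith
  have hMb0 : 0 < Mb := by
    have h1 := hDb 0
    rwa [bs_zero, mul_zero] at h1
  choose c hc using hNG
  have hTs : ∀ n, IsTStep (Bs n) (Bs (n + 1)) 1 (c n) (fun _ l => l) := fun n =>
    tstep_of_cstep hC (hc n)
  have hΓ : ∀ n, (Bs n).Γ = (Bs 0).Γ := by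
    intro n
    induction n with
    | zero => rfl
    | succ n ih => rw [tst_Γ (hTs n), ih]
  have hχ : ∀ n, ∀ γ ∈ (Bs 0).Γ, (Bs n).χ γ = (Bs 0).χ γ := by
    intro n
    induction n with
    | zero => intro γ _; rfl
    | succ n ih => intro γ hγ; rw [tst_χ (hTs n) (by rw [hΓ n]; exact hγ), ih γ hγ]
  have hβΓ : ∀ n, β n ∈ (Bs 0).Γ := fun n => by
    have := tst_mem (hTs n)
    rwa [hΓ n] at this
  have hbΓ : ∀ n, bs β n ∈ (Bs 0).Γ := by
    intro n
    induction n with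
    | zero => rw [bs_zero]; exact (Bs 0).Γ.zero_mem
    | succ n ih => rw [bs_succ]; exact (Bs 0).Γ.add_mem ih (hβΓ n)
  have hκ : κ ∈ (Bs 0).Γ := hf.1
  -- a large element of `Γ`
  obtain ⟨N, hN, hND⟩ : ∃ N ∈ (Bs 0).Γ, Mb < N := by
    obtain ⟨m, hm, h1⟩ := (Bs 0).full (Bs 0).y (Bs 0).y_ne
    have hpos : 0 < (m : ℝ) * v (Bs 0).y := mul_pos (by exact_mod_cast hm) (Bs 0).y_pos
    obtain ⟨n, hn⟩ := exists_nat_gt (Mb / ((m : ℝ) * v (Bs 0).y))
    refine ⟨(n : ℝ) * (m * v (Bs 0).y), ?_, ?_⟩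
    · rw [← nsmul_eq_mul]
      exact (Bs 0).Γ.nsmul_mem h1 _
    · rwa [div_lt_iff₀ hpos] at hn
  obtain ⟨V, hV, hLD, e, he, hfe⟩ := exp_rep hC (Bs 0) hB hf (hMb0.trans hND)
  have hGn : ∀ n, SuppIn (Bs 0).Γ (Gn β c V n) := by
    intro n
    induction n with
    | zero => rw [Gn_zero]; exact hV
    | succ n ih => rw [Gn_succ]; exact suppIn_comp (hβΓ n) (c n) ih
  have hevG : ∀ n, (Bs n).ev (Gn β c V n) = (Bs 0).ev V := by
    intro n
    induction n with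
    | zero => rw [Gn_zero]
    | succ n ih =>
      rw [Gn_succ, ← ih]
      exact tst_ev (hTs n) (by rw [hΓ n]; exact hGn n)
  have hR1 : ∀ n, (Bs 1).R ≤ (Bs (n + 1)).R := by
    intro n
    induction n with
    | zero => exact le_rfl
    | succ n ih => exact ih.trans (hTs (n + 1)).R_le
  obtain ⟨b, hb, hbe⟩ := J_step (hc 0).step ((hc 0).step.Γ_le hN) he
  have hchiN : (Bs 1).χ N = (Bs 0).χ N := hχ 1 N hN
  have hκN : κ + N ∈ (Bs 0).Γ := (Bs 0).Γ.add_mem hκ hN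
  -- the lexicographic minimum of the transform
  have hLDn : ∀ n, IsLD All (Gn β c V (n + 1)) 0 (κ + D * bs β (n + 1)) D := by
    intro n
    have h1 : (Bs (n + 1)).ev (Gn β c V (n + 1)) = f + (Bs (n + 1)).χ (κ + N) * (-b) := by
      rw [hevG, hχ (n + 1) _ hκN, (Bs 0).χ_add κ hκ N hN, hfe, hbe, hchiN]
      ring
    have h2 : (Bs (n + 1)).Rep ((Bs (n + 1)).ev (Gn β c V (n + 1)))
        (κ + D * bs β (n + 1)) D := by
      rw [h1]
      refine (hRn (n + 1)).add_mem (by rw [hΓ]; exact hκN) ?_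
        ((Bs (n + 1)).R.neg_mem (hR1 n hb))
      linarith [hDb (n + 1)]
    have h3 : Gn β c V (n + 1) ≠ 0 := by
      intro h4
      rw [h4] at h2
      have h5 : (Bs (n + 1)).ev (0 : (Lau k)[X]) = 0 := by
        have := (Bs (n + 1)).ev_sub 0 0
        simpa using this
      rw [h5] at h2
      exact h2.ne_zero2 hC rfl
    obtain ⟨κ', D', h5⟩ := exists_IsLD All (Gn β c V (n + 1)) 0 (by
      by_contra h6
      push Not at h6
      apply h3
      apply co_ext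
      intro γ l
      rw [co_zero]
      by_contra h7
      exact h6 γ l h7 trivial)
    have h6 := (Bs (n + 1)).rep_ev2 hC (by rw [hΓ]; exact hGn (n + 1)) h5
    obtain ⟨h7, h8⟩ := h6.unique2 hC h2
    rw [← h7, ← h8]
    exact h5
  have hChn : Chn (Bs 0).Γ (fun i => bs β (i + 1)) c :=
    ⟨(Bs 0).fg, fun i => hbΓ _, fun i j hij => hbmono (Nat.succ_lt_succ hij), by
      refine ⟨Mb, ?_⟩
      rintro _ ⟨n, rfl⟩
      exact hMb' (n + 1), fun i => (hTs i).c_ne⟩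
  have hV0 : V ≠ 0 := by
    intro h0
    have h1 := hLD.2.2.1
    rw [h0, co_zero] at h1
    exact h1 rfl
  obtain ⟨s0, κ', hK⟩ := KAP p hpp (Bs 0).Γ (fun i => bs β (i + 1)) c hChn V hV hV0
  have h1 := hK s0 le_rfl
  have h2 := hLDn s0
  rw [Gn] at h2
  obtain ⟨-, e⟩ := h1.unique h2.comp_mon
  omega

end Pool.Agent.LU2T
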