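import Pool.Agent.Lib.LU2_PI.Drop

/-! # LU2, PI: strong forms exist -/

set_option autoImplicit false

open Polynomial

namespace Pool.Agent.LU2T

open Pool.Agent.H15JM (RVal)
open Pool.Agent.LU1
open Pool.Agent.LU1.R1 (co_zero co_add co_sum co_ext co_monomial)

universe u

variable {k Ω : Type u} [Field k] [Field Ω] [Algebra k Ω] {v : RVal Ω} {r : ℕ}

/-- The part of `V` with exponents satisfying `Q`. -/
theorem exists_restrict (V : (Lau k)[X]) (Q : ℝ → ℕ → Prop) :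
    ∃ V1 : (Lau k)[X], ∀ γ l, (Q γ l → co V1 γ l = co V γ l) ∧ (¬ Q γ l → co V1 γ l = 0) := by
  classical
  obtain ⟨S, hS⟩ := Pool.Agent.LU1.A3.exists_finset_co V
  refine ⟨∑ a ∈ S.filter fun a => Q a.1 a.2, monomial a.2 (mon a.1 (co V a.1 a.2)),
    fun γ l => ?_⟩
  rw [co_sum]
  simp only [co_monomial]
  rw [Finset.sum_ite_eq' _ (γ, l) fun a => co V a.1 a.2]
  constructor
  · intro hQ
    split_ifs with h1
    · rfl
    · by_contra h2
      exact h1 (Finset.mem_filter.2 ⟨(hS γ l).2 (Ne.symm h2), hQ⟩)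
  · intro hQ
    rw [if_neg]
    intro h1
    exact hQ (Finset.mem_filter.1 h1).2

theorem ev_mem_J (B : BF k v) {P : (Lau k)[X]} (hP : SuppIn B.Γ P) {N : ℝ}
    (h : ∀ γ l, co P γ l ≠ 0 → 0 ≤ γ ∧ N ≤ γ + l * v B.y) : B.ev P ∈ J B N := by
  rw [B.ev_eq]
  refine Submodule.sum_mem _ fun l _ => Submodule.sum_mem _ fun γ hγ => ?_
  have h0 : co P γ l ≠ 0 := Finsupp.mem_support_iff.1 hγ
  have h1 : B.χ γ * B.y ^ l ∈ J B N :=
    Submodule.subset_span ⟨γ, hP γ l h0, l, (h γ l h0).1, (h γ l h0).2, rfl⟩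
  have h2 := (J B N).smul_mem (algebraMap k B.R (co P γ l)) h1
  rw [Algebra.smul_def] at h2
  rw [mul_assoc]
  exact h2

theorem fracIs_quo (R : Subalgebra k Ω) : FracIs R (quo R) :=
  fracIs_iff.2 ⟨fun _ hf => le_quo hf, le_rfl⟩

/-- **START**: after one step `f` has a strong form. -/
theorem start (p : ℕ) [Fact p.Prime] [CharP k p] (hC : Ctx2 k v r) (hT : FinP k p) (B : BF k v)
    (hB : B.Res) {f : Ω} (hf : f ∈ B.R) (hf0 : ∀ g ∈ quo B.R, f ≠ g ^ p) {B' : BF k v}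
    {q : ℕ} {h : k[X]} {s : ℝ → ℤ → ℤ} (hG : IsCStep B B' q h s) :
    ∃ κ D, SF p B' f κ D := by
  classical
  have hpp : p.Prime := Fact.out
  have hchar : CharP Ω p := charP_of_injective_algebraMap (algebraMap k Ω).injective p
  set E := quo B.R with hEdef
  have hE : FracIs B.R E := fracIs_quo B.R
  have hcharE : CharP E p := charP_of_injective_algebraMap (algebraMap k E).injective p
  set f' : E := ⟨f, le_quo hf⟩ with hf'
  obtain ⟨δ, hδ⟩ := exists_derivation (p := p) (f := f') (by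
    rintro ⟨g, hg⟩ h1
    exact hf0 g hg (congrArg (fun x : E => (x : Ω)) h1))
  obtain ⟨lam, hl1, hl2⟩ := exists_bound p hC hT B E hE δ
  obtain ⟨mu, hmu⟩ := bound_J hE hl1 hl2
  obtain ⟨O⟩ := exists_om (F := k) p
  obtain ⟨N, hN, hNmu⟩ : ∃ N ∈ B.Γ, mu < N := by
    obtain ⟨m, hm, h1⟩ := B.full B.y B.y_ne
    have hpos : 0 < (m : ℝ) * v B.y := mul_pos (by exact_mod_cast hm) B.y_pos
    obtain ⟨n, hn⟩ := exists_nat_gt (mu / ((m : ℝ) * v B.y))
    refine ⟨(n : ℝ) * (m * v B.y), ?_, ?_⟩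
    · rw [← nsmul_eq_mul]
      exact B.Γ.nsmul_mem h1 _
    · rwa [div_lt_iff₀ hpos] at hn
  obtain ⟨P, hP, hP0, hPe⟩ := exp hC B hB hf N
  obtain ⟨V, hh, hV, hhh, hPV⟩ := exists_visPart p O hP
  have hVΓ : SuppIn B.Γ V := hV.suppIn hP
  have hfe : f - B.ev hh ^ p = B.ev V + (f - B.ev P) := by
    rw [hPV, B.ev_add, EvalAux.ev_pow _ hhh]
    ring
  obtain ⟨V1, hV1⟩ := exists_restrict V fun γ l => γ + l * v B.y < N
  have hV1ne : ∀ γ l, co V1 γ l ≠ 0 → γ + l * v B.y < N ∧ co V1 γ l = co V γ l := by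
    intro γ l h0
    by_cases h1 : γ + l * v B.y < N
    · exact ⟨h1, (hV1 γ l).1 h1⟩
    · exact absurd ((hV1 γ l).2 h1) h0
  set V2 : (Lau k)[X] := V - V1 with hV2
  have hVsum : V = V1 + V2 := by rw [hV2]; ring
  have hV2ne : ∀ γ l, co V2 γ l ≠ 0 → N ≤ γ + l * v B.y ∧ co V γ l ≠ 0 := by
    intro γ l h0
    have h3 := congrArg (fun P => co P γ l) hVsum
    simp only [co_add] at h3
    by_cases h1 : γ + l * v B.y < N
    · rw [(hV1 γ l).1 h1] at h3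
      exact absurd (by linear_combination -h3) h0
    · rw [(hV1 γ l).2 h1, zero_add] at h3
      exact ⟨not_lt.1 h1, by rw [h3]; exact h0⟩
  have hev2 : B.ev V2 ∈ J B N := ev_mem_J B (fun γ l h0 => hVΓ γ l (hV2ne γ l h0).2)
    fun γ l h0 => ⟨hP0 γ l (hV.ne (hV2ne γ l h0).2), (hV2ne γ l h0).1⟩
  have he2 : B.ev V2 + (f - B.ev P) ∈ J B N := (J B N).add_mem hev2 hPe
  have hquo : B.ev hh ∈ E := ev_mem_quo B hhh
  -- `V1` is not zero
  have hne : ∃ γ l, co V1 γ l ≠ 0 := by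
    by_contra hcon
    push Not at hcon
    have h1 : V1 = 0 := co_ext fun γ l => by rw [hcon, co_zero]
    have h2 : f - B.ev hh ^ p ∈ J B N := by
      rw [hfe, hVsum, h1, zero_add]
      exact he2
    obtain ⟨ha, h3⟩ := hmu N _ h2
    have h4 : (⟨f - B.ev hh ^ p, ha⟩ : E) = f' - (⟨B.ev hh, hquo⟩ : E) ^ p := by
      apply Subtype.ext
      rfl
    have h5 : δ ((⟨B.ev hh, hquo⟩ : E) ^ p) = 0 := by
      rw [Derivation.leibniz_pow, ← smul_assoc]
      have : (p : ℕ) • ((⟨B.ev hh, hquo⟩ : E) ^ (p - 1)) = 0 := by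
        rw [nsmul_eq_mul, CharP.cast_eq_zero, zero_mul]
      rw [this, zero_smul]
    rw [h4, map_sub, hδ, h5, sub_zero] at h3
    have h6 := h3 (by simp)
    have h7 : v ((1 : E) : Ω) = 0 := v.map_one
    rw [h7] at h6
    linarith
  obtain ⟨γ0, l0, h00⟩ := hne
  obtain ⟨τ, L0, t1, -, t3, -⟩ := exists_IsLD All V1 (v B.y) ⟨γ0, l0, h00, trivial⟩
  have hst := hG.step
  obtain ⟨b, hb, hbe⟩ := J_step hst (hst.Γ_le hN) he2
  have hτN : τ < N := (t1 γ0 l0 h00 trivial).trans_lt (hV1ne γ0 l0 h00).1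
  obtain ⟨j, L, -, hSF, -, -⟩ := step p hC hB hG (V := V1)
    (fun γ l h0 => hVΓ γ l (by rw [← (hV1ne γ l h0).2]; exact h0))
    (fun γ l h0 hI x => by
      have h1 := (hV1ne γ l h0).2
      rw [h1] at h0 ⊢
      exact hV.nfm γ l h0 hI x)
    hquo (e := B.ev V2 + (f - B.ev P)) (by rw [hfe, hVsum, B.ev_add]; ring)
    (fun γ l h0 => t1 γ l h0 trivial) ⟨L0, t3⟩ ⟨N, hst.Γ_le hN, hτN, b, hb, hbe⟩
  exact ⟨τ, j, hSF⟩

end Pool.Agent.LU2T
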