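import Pool.Agent.Lib.LU2_PI.Exp

/-! # LU2, PI: the step lemma -/

set_option autoImplicit false

open Polynomial

namespace Pool.Agent.LU2T

open Pool.Agent.H15JM (RVal)
open Pool.Agent.LU1
open Pool.Agent.LU1.R1 (co_zero co_add co_sum co_ext co_monomial)

universe u

variable {k Ω : Type u} [Field k] [Field Ω] [Algebra k Ω] {v : RVal Ω} {r : ℕ}

theorem vpos_pow_sub (p : ℕ) [hp : Fact p.Prime] [CharP Ω p] {a b : Ω} (h : VPos v (a - b)) :
    VPos v (a ^ p - b ^ p) := by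
  rw [← sub_pow_char]
  obtain ⟨n, hn⟩ : ∃ n, p = n + 1 := ⟨p - 1, by have := hp.out.pos; omega⟩
  have h1 : ∀ m : ℕ, v.Ge 0 ((a - b) ^ m) := by
    intro m
    induction m with
    | zero => rw [pow_zero]; intro _; rw [v.map_one]
    | succ m ih => rw [pow_succ]; simpa using ih.mul h.ge
  rw [hn, pow_succ]
  exact VPos.mul' (h1 n) h

theorem chi_mem_quo (B : BF k v) {γ : ℝ} (hγ : γ ∈ B.Γ) : B.χ γ ∈ quo B.R := by
  rcases le_total 0 γ with h0 | h0
  · exact le_quo (B.χ_mem γ hγ h0)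
  · have h1 := (quo B.R).inv_mem (le_quo (B.χ_mem (-γ) (B.Γ.neg_mem hγ) (neg_nonneg.2 h0)))
    rwa [B.χ_neg hγ, inv_inv] at h1

/-- Polynomials of level at least `ν` are divisible by the monomial of value `ν`. -/
theorem ev_step {B B' : BF k v} {q : ℕ} {M : B.R[X]} {s : ℝ → ℤ → ℤ} (hG : IsGStep B B' q M s)
    {P : (Lau k)[X]} (hP : SuppIn B.Γ P) {ν : ℝ} (hν : ν ∈ B'.Γ)
    (h : ∀ γ l, co P γ l ≠ 0 → ν ≤ γ + l * v B.y) : ∃ b ∈ B'.R, B.ev P = B'.χ ν * b := by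
  have hmem : ∀ γ l, co P γ l ≠ 0 → γ + (l : ℝ) * v B.y ∈ B'.Γ := by
    intro γ l h0
    refine B'.Γ.add_mem (hG.Γ_le (hP γ l h0)) ?_
    rw [← nsmul_eq_mul]
    exact B'.Γ.nsmul_mem hG.β_mem l
  refine ⟨∑ l ∈ P.support, ∑ γ ∈ (P.coeff l).coeff.support,
    algebraMap k Ω (co P γ l) * B'.χ (γ + l * v B.y - ν) * (B.w q) ^ (s γ l), ?_, ?_⟩
  · refine B'.R.sum_mem fun l _ => B'.R.sum_mem fun γ hγ => ?_
    have h0 : co P γ l ≠ 0 := Finsupp.mem_support_iff.1 hγ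
    exact B'.R.mul_mem (B'.R.mul_mem (B'.R.algebraMap_mem _)
      (B'.χ_mem _ (B'.Γ.sub_mem (hmem γ l h0) hν) (sub_nonneg.2 (h γ l h0))))
      (hG.un_w.zpow _).1
  · rw [B.ev_eq, Finset.mul_sum]
    refine Finset.sum_congr rfl fun l _ => ?_
    rw [Finset.mul_sum]
    refine Finset.sum_congr rfl fun γ hγ => ?_
    have h0 : co P γ l ≠ 0 := Finsupp.mem_support_iff.1 hγ
    have h1 := hG.χ_mul (hP γ l h0) (l : ℤ)
    rw [zpow_natCast, Int.cast_natCast] at h1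
    have h2 : B'.χ (γ + l * v B.y) = B'.χ ν * B'.χ (γ + l * v B.y - ν) := by
      rw [← B'.χ_add ν hν _ (B'.Γ.sub_mem (hmem γ l h0) hν)]
      congr 1; ring
    rw [mul_assoc, h1, h2]
    ring

/-- A value slightly larger than `τ`. -/
theorem exists_gap {Γ : AddSubgroup ℝ} {τ ν : ℝ} (hν : ν ∈ Γ) (hτν : τ < ν)
    (S : Finset (ℝ × ℕ)) (φ : ℝ × ℕ → ℝ) (hS : ∀ a ∈ S, φ a ∈ Γ ∧ τ < φ a) :
    ∃ ν' ∈ Γ, τ < ν' ∧ ν' ≤ ν ∧ ∀ a ∈ S, ν' ≤ φ a := by
  classical
  induction S using Finset.induction_on with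
  | empty => exact ⟨ν, hν, hτν, le_rfl, by simp⟩
  | insert a S _ ih =>
    obtain ⟨ν', h1, h2, h3, h4⟩ := ih fun b hb => hS b (Finset.mem_insert_of_mem hb)
    obtain ⟨h5, h6⟩ := hS a (Finset.mem_insert_self a S)
    refine ⟨min ν' (φ a), ?_, lt_min h2 h6, (min_le_left _ _).trans h3, fun b hb => ?_⟩
    · rcases min_choice ν' (φ a) with h | h <;> rw [h] <;> assumption
    · rcases Finset.mem_insert.1 hb with rfl | hb
      · exact min_le_right _ _
      · exact (min_le_left _ _).trans (h4 b hb)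

/-- **STEP** (section PI2, OS'). -/
theorem step (p : ℕ) [Fact p.Prime] [CharP k p] (hC : Ctx2 k v r) {B B' : BF k v} (hB : B.Res)
    {q : ℕ} {h : k[X]} {s : ℝ → ℤ → ℤ} (hG : IsCStep B B' q h s) {V : (Lau k)[X]}
    (hV : SuppIn B.Γ V) (hN : NFm p B.Γ V) {f g e : Ω} (hg : g ∈ quo B.R)
    (hfe : f - g ^ p = B.ev V + e) {τ : ℝ} (h1 : ∀ γ l, co V γ l ≠ 0 → τ ≤ γ + l * v B.y)
    (h2 : ∃ l : ℕ, co V (τ - l * v B.y) l ≠ 0)
    (he : ∃ ν ∈ B'.Γ, τ < ν ∧ ∃ b ∈ B'.R, e = B'.χ ν * b) :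
    ∃ j L : ℕ, co V (τ - L * v B.y) L ≠ 0 ∧ SF p B' f τ j ∧ j ≤ max L 1 ∧
      (2 ≤ q * h.natDegree → j < max L 2) := by
  classical
  have hpp : p.Prime := Fact.out
  have hchar : CharP Ω p := charP_of_injective_algebraMap (algebraMap k Ω).injective p
  have hst := hG.step
  have hL := hst.latData
  set β := v B.y with hβ
  set w := B.w q with hw
  have hw0 : w ≠ 0 := hst.w_ne
  have hwU : B'.Un w := hst.un_w
  have hS := Pool.Agent.LU1.A3.exists_finset_co V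
  obtain ⟨S, hS⟩ := hS
  -- the level `τ`
  set I : Finset ℕ := V.support.filter fun l : ℕ => co V (τ - l * β) l ≠ 0 with hI
  have hmem : ∀ l : ℕ, l ∈ I ↔ co V (τ - l * β) l ≠ 0 := by
    intro l
    rw [hI, Finset.mem_filter]
    exact ⟨fun h => h.2, fun h => ⟨Pool.Agent.LU1.DD.mem_support_of_co h, h⟩⟩
  have hIne : I.Nonempty := by
    obtain ⟨l, hl⟩ := h2
    exact ⟨l, (hmem l).2 hl⟩
  have hτ : τ ∈ B'.Γ := by
    obtain ⟨l, hl⟩ := h2
    have h3 := B'.Γ.add_mem (hst.Γ_le (hV _ _ hl)) (B'.Γ.nsmul_mem hst.β_mem l)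
    rw [nsmul_eq_mul] at h3
    have h4 : τ - (l : ℝ) * β + l * v B.y = τ := by rw [hβ]; ring
    rwa [h4] at h3
  obtain ⟨K, hK⟩ : ∃ K : ℕ, ∀ l ∈ I, 0 ≤ s (τ - l * β) l + p * (K : ℤ) := by
    refine ⟨∑ l ∈ I, (s (τ - l * β) l).natAbs, fun l hl => ?_⟩
    have h3 : (s (τ - l * β) l).natAbs ≤ ∑ l ∈ I, (s (τ - l * β) l).natAbs :=
      Finset.single_le_sum (f := fun l : ℕ => (s (τ - l * β) l).natAbs)
        (fun _ _ => Nat.zero_le _) hl
    have h4 : ((s (τ - l * β) l).natAbs : ℤ) ≤ ((∑ l ∈ I, (s (τ - l * β) l).natAbs : ℕ) : ℤ) := by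
      exact_mod_cast h3
    have h5 : (1 : ℤ) ≤ p := by exact_mod_cast hpp.one_le
    have h6 : -(s (τ - l * β) l) ≤ ((s (τ - l * β) l).natAbs : ℤ) := by omega
    have h7 : ((∑ l ∈ I, (s (τ - l * β) l).natAbs : ℕ) : ℤ) ≤
        p * ((∑ l ∈ I, (s (τ - l * β) l).natAbs : ℕ) : ℤ) := by
      nlinarith [Int.natCast_nonneg (∑ l ∈ I, (s (τ - l * β) l).natAbs)]
    linarith
  obtain ⟨R, U, j, e1, e2, e3, e4, e5⟩ := lead p hL hG.monic hG.irr (hG.not_dvd_X hC) I hIne τ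
    (fun l => co V (τ - l * β) l) (fun l hl => hV _ _ ((hmem l).1 hl))
    (fun l hl => (hmem l).1 hl) (fun l hl h4 h5 => hN _ _ ((hmem l).1 hl) ⟨h4, h5⟩) K hK
  rw [← hst.Γ_eq] at e3
  set a : k[X] := ∑ l ∈ I, C (co V (τ - l * β) l) * X ^ (s (τ - l * β) l + p * (K : ℤ)).toNat
    with ha
  -- the polynomial of level `τ`
  set Vτ : (Lau k)[X] := ∑ l ∈ I, C (mon (τ - l * β) (co V (τ - l * β) l)) * X ^ l with hVτ
  have hevτ : B.ev Vτ = B'.χ τ * (w ^ (-((p * K : ℕ) : ℤ)) * aeval w a) := by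
    rw [hVτ, B.ev_sum, ha, map_sum, Finset.mul_sum, Finset.mul_sum]
    refine Finset.sum_congr rfl fun l hl => ?_
    rw [B.ev_monomial, map_mul, aeval_C, map_pow, aeval_X]
    have h3 := hst.χ_mul (hV _ _ ((hmem l).1 hl)) (l : ℤ)
    rw [zpow_natCast, Int.cast_natCast] at h3
    have h4 : τ - (l : ℝ) * β + l * v B.y = τ := by rw [hβ]; ring
    rw [h4] at h3
    have h5 : w ^ (s (τ - l * β) l + p * (K : ℤ)).toNat = w ^ (s (τ - l * β) l + p * (K : ℤ)) := by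
      rw [← zpow_natCast, Int.toNat_of_nonneg (hK l hl)]
    have h6 : w ^ (s (τ - l * β) l) = w ^ (-((p * K : ℕ) : ℤ)) *
        w ^ (s (τ - l * β) l + p * (K : ℤ)) := by
      rw [← zpow_add₀ hw0]
      congr 1
      push_cast
      ring
    rw [h5, mul_assoc, h3, h6]
    ring
  have hcoτ : ∀ γ l, co Vτ γ l = if γ + l * β = τ then co V γ l else 0 := by
    intro γ l
    rw [hVτ, co_sum]
    have h3 : ∀ l' ∈ I, co (C (mon (τ - l' * β) (co V (τ - l' * β) l')) * X ^ l') γ l =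
        if l' = l ∧ γ + l * β = τ then co V γ l else 0 := by
      intro l' _
      rw [C_mul_X_pow_eq_monomial, co_monomial]
      by_cases h4 : l' = l ∧ γ + l * β = τ
      · obtain ⟨rfl, h5⟩ := h4
        have h6 : γ = τ - l' * β := by linarith
        rw [if_pos (show (τ - (l' : ℝ) * β, l') = (γ, l') by rw [h6]), if_pos ⟨rfl, h5⟩, ← h6]
      · rw [if_neg h4, if_neg]
        intro h5
        apply h4
        have h6 : τ - (l' : ℝ) * β = γ := (Prod.ext_iff.1 h5).1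
        have h7 : l' = l := (Prod.ext_iff.1 h5).2
        refine ⟨h7, ?_⟩
        rw [← h6, h7]; ring
    rw [Finset.sum_congr rfl h3]
    by_cases h4 : γ + l * β = τ
    · simp only [h4, and_true, if_true]
      rw [Finset.sum_ite_eq' I l fun _ => co V γ l]
      split_ifs with h5
      · rfl
      · have h6 : γ = τ - l * β := by linarith
        rw [hmem, not_not, ← h6] at h5
        exact h5.symm
    · simp only [h4, and_false, if_false]
      exact Finset.sum_const_zero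
  set Vr : (Lau k)[X] := V - Vτ with hVr
  have hVsum : V = Vτ + Vr := by rw [hVr]; ring
  have hcor : ∀ γ l, co Vr γ l ≠ 0 → co V γ l ≠ 0 ∧ γ + l * β ≠ τ := by
    intro γ l h0
    have h3 := congrArg (fun P => co P γ l) hVsum
    simp only [co_add, hcoτ] at h3
    by_cases h4 : γ + l * β = τ
    · rw [if_pos h4] at h3
      exfalso
      apply h0
      linear_combination -h3
    · rw [if_neg h4, zero_add] at h3
      rw [h3]
      exact ⟨h0, h4⟩
  obtain ⟨ν, hν, hτν, b, hb, rfl⟩ := he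
  obtain ⟨ν', hν', hτν', hle, hgap⟩ := exists_gap hν hτν
    (S.filter fun a => a.1 + a.2 * β ≠ τ) (fun a => a.1 + a.2 * β) (by
      intro a ha
      obtain ⟨h3, h4⟩ := Finset.mem_filter.1 ha
      have h5 := (hS a.1 a.2).1 h3
      refine ⟨?_, lt_of_le_of_ne (h1 _ _ h5) (Ne.symm h4)⟩
      have h6 := B'.Γ.add_mem (hst.Γ_le (hV _ _ h5)) (B'.Γ.nsmul_mem hst.β_mem a.2)
      rwa [nsmul_eq_mul] at h6)
  obtain ⟨b1, hb1, hev1⟩ := ev_step hst (P := Vr) (fun γ l h0 => hV γ l (hcor γ l h0).1) hν'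
    (fun γ l h0 => hgap (γ, l) (Finset.mem_filter.2 ⟨(hS γ l).2 (hcor γ l h0).1, (hcor γ l h0).2⟩))
  -- the remainder
  obtain ⟨b2, hb2, hrest⟩ : ∃ b2 ∈ B'.R, B.ev Vr + B'.χ ν * b = B'.χ τ * (B'.χ (ν' - τ) * b2) := by
    refine ⟨b1 + B'.χ (ν - ν') * b, B'.R.add_mem hb1 (B'.R.mul_mem
      (B'.χ_mem _ (B'.Γ.sub_mem hν hν') (sub_nonneg.2 hle)) hb), ?_⟩
    have h3 : B'.χ τ * B'.χ (ν' - τ) = B'.χ ν' := by
      rw [← B'.χ_add τ hτ _ (B'.Γ.sub_mem hν' hτ)]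
      congr 1; ring
    have h4 : B'.χ ν' * B'.χ (ν - ν') = B'.χ ν := by
      rw [← B'.χ_add ν' hν' _ (B'.Γ.sub_mem hν hν')]
      congr 1; ring
    rw [hev1, ← mul_assoc, h3, mul_add, ← mul_assoc, h4]
  have hmain : f - g ^ p = B'.χ τ * (w ^ (-((p * K : ℕ) : ℤ)) * aeval w a +
      B'.χ (ν' - τ) * b2) := by
    rw [hfe, hVsum, B.ev_add, hevτ, add_assoc, hrest]
    ring
  have haw : aeval w a = (aeval w R) ^ p + aeval w U * B'.y ^ j := by
    have h3 := congrArg (aeval w) e1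
    rw [map_sub, map_mul, map_pow, map_pow, ← hG.y_eq] at h3
    rw [← h3]; ring
  have hUU : B'.Un (aeval w U) := hG.un_aeval hC e2
  have hδ : ν' - τ ∈ B'.Γ := B'.Γ.sub_mem hν' hτ
  have hδ0 : 0 < ν' - τ := sub_pos.2 hτν'
  have hu : B'.Un (w ^ (-((p * K : ℕ) : ℤ)) * aeval w U) := (hwU.zpow _).mul hUU
  have hLmax : co V (τ - (I.max' hIne : ℕ) * β) (I.max' hIne) ≠ 0 := (hmem _).1 (I.max'_mem hIne)
  have hquo : quo B'.R = quo B.R := hst.ext.quo_eq
  rcases e3 with ⟨h3, h4⟩ | ⟨h3, h4⟩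
  · refine ⟨j, I.max' hIne, hLmax, ⟨hτ, g, by rw [hquo]; exact hg, _, hu, _, hδ, hδ0, b2, hb2,
      ?_, Or.inl h3⟩, e4, e5⟩
    rw [hmain, haw, h4, map_zero, zero_pow hpp.ne_zero, zero_add, mul_assoc]
  · obtain ⟨σ, hσ, hτσ⟩ := id h3
    have hχσ : B'.χ σ ^ p = B'.χ τ := by rw [hτσ, B'.χ_nsmul hσ]
    have hRm : aeval w R ∈ B'.R := hG.aeval_mem R
    refine ⟨j, I.max' hIne, hLmax, ⟨hτ, g + B'.χ σ * (w ^ (-(K : ℤ)) * aeval w R), ?_,
      _, hu, _, hδ, hδ0, b2, hb2, ?_, Or.inr ?_⟩, e4, e5⟩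
    · exact (quo B'.R).add_mem (by rw [hquo]; exact hg) ((quo B'.R).mul_mem (chi_mem_quo B' hσ)
        ((quo B'.R).mul_mem (le_quo (hwU.zpow _).1) (le_quo hRm)))
    · have h5 : (w ^ (-(K : ℤ))) ^ p = w ^ (-((p * K : ℕ) : ℤ)) := by
        rw [← zpow_natCast, ← zpow_mul]
        congr 1
        push_cast
        ring
      have h6 : f - (g + B'.χ σ * (w ^ (-(K : ℤ)) * aeval w R)) ^ p =
          (f - g ^ p) - B'.χ σ ^ p * ((w ^ (-(K : ℤ))) ^ p * (aeval w R) ^ p) := by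
        rw [add_pow_char, mul_pow, mul_pow]
        ring
      rw [h6, hmain, haw, hχσ, h5]
      ring
    · rcases h4 with h4 | h4
      · exact Or.inl h4
      · right
        intro t ht hvt
        obtain ⟨T, hT⟩ := hG.exists_residue hC hB ht
        apply h4 (X ^ K * T)
        rw [← hG.vpos_iff hC]
        have h5 := hvt.add (vpos_pow_sub p hT)
        have h6 : aeval w (U - (X ^ K * T) ^ p) = (w ^ (-((p * K : ℕ) : ℤ)) * aeval w U - t ^ p +
            (t ^ p - (aeval w T) ^ p)) * w ^ (p * K) := by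
          rw [map_sub, map_pow, map_mul, map_pow, aeval_X, zpow_neg, zpow_natCast]
          have h7 : w ^ (p * K) ≠ 0 := pow_ne_zero _ hw0
          field_simp
          ring
        rw [h6]
        refine h5.mul ?_
        intro _
        rw [v.map_pow hw0, hst.v_w, mul_zero]

/-- **OS**. -/
theorem os (p : ℕ) [Fact p.Prime] [CharP k p] (hC : Ctx2 k v r) {B B' : BF k v} (hB : B.Res)
    {q : ℕ} {h : k[X]} {s : ℝ → ℤ → ℤ} (hG : IsCStep B B' q h s) {f : Ω} {κ : ℝ} {D : ℕ}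
    (hf : SF p B f κ D) :
    ∃ κ' D', SF p B' f κ' D' ∧ D' ≤ max D 1 ∧ (2 ≤ q * h.natDegree → D' < max D 2) ∧
      (2 ≤ D → D' = D → κ' = κ + D * v B.y) := by
  classical
  obtain ⟨O⟩ := exists_om (F := k) p
  have hst := hG.step
  -- choose `N` in `Γ` with `N > D β`
  obtain ⟨N, hN, hND⟩ : ∃ N ∈ B.Γ, D * v B.y < N := by
    obtain ⟨m, hm, h1⟩ := B.full B.y B.y_ne
    refine ⟨((D + 1 : ℕ) : ℝ) * (m * v B.y), ?_, ?_⟩
    · rw [← nsmul_eq_mul]
      exact B.Γ.nsmul_mem h1 _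
    · have h2 : (1 : ℝ) ≤ m := by exact_mod_cast hm
      have h3 := B.y_pos
      push_cast
      have h4 : v B.y ≤ m * v B.y := by nlinarith
      have h5 : (D : ℝ) * v B.y ≤ D * (m * v B.y) :=
        mul_le_mul_of_nonneg_left h4 (Nat.cast_nonneg D)
      nlinarith
  have hκ : κ ∈ B.Γ := hf.1
  obtain ⟨g, hg, V, hV, hVis, hLD, e, he, hfe⟩ := expSF p O hC B hB hf N
  obtain ⟨l1, l2, l3, -⟩ := id hLD
  simp only [mul_zero, add_zero, sub_zero] at l1 l2 l3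
  obtain ⟨τ, L0, t1, -, t3, -⟩ := exists_IsLD All V (v B.y) ⟨κ, D, l3, trivial⟩
  have hτ : τ ≤ κ + D * v B.y := t1 κ D l3 trivial
  have hκ' : κ + N ∈ B'.Γ := hst.Γ_le (B.Γ.add_mem hκ hN)
  obtain ⟨b, hb, rfl⟩ := J_step hst (hst.Γ_le hN) he
  obtain ⟨j, L, hL, hSF, hj1, hj2⟩ := step p hC hB hG hV hVis.nfm hg hfe
    (fun γ l h0 => t1 γ l h0 trivial) ⟨L0, t3⟩
    ⟨κ + N, hκ', by linarith, (B.χ κ / B'.χ κ) * b,
      B'.R.mul_mem (hst.ext.χ_un κ hκ).1 hb, by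
        rw [B'.χ_add κ (hst.Γ_le hκ) N (hst.Γ_le hN)]
        have := B'.χ_ne κ (hst.Γ_le hκ)
        field_simp⟩
  have hLD' : L ≤ D ∧ (L = D → τ = κ + D * v B.y) := by
    have h3 := l1 _ _ hL trivial
    have hβ := B.y_pos
    constructor
    · by_contra hcon
      have h4 : (D : ℝ) + 1 ≤ L := by exact_mod_cast (by omega : D + 1 ≤ L)
      nlinarith
    · rintro rfl
      linarith
  refine ⟨τ, j, hSF, hj1.trans (max_le_max hLD'.1 le_rfl), fun h3 => (hj2 h3).trans_le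
    (max_le_max hLD'.1 le_rfl), fun h3 h4 => hLD'.2 ?_⟩
  omega

/-- An element with a visible polynomial as leading form has a strong form. -/
theorem sf_of_poly (p : ℕ) [Fact p.Prime] [CharP k p] (hC : Ctx2 k v r) {B : BF k v}
    (hB : B.Res) {V : (Lau k)[X]} (hV : SuppIn B.Γ V) (hN : NFm p B.Γ V) {κ : ℝ} {D : ℕ}
    (hLD : IsLD All V 0 κ D) {f g e : Ω} (hg : g ∈ quo B.R) (hfe : f - g ^ p = B.ev V + e)
    (he : ∃ ν ∈ B.Γ, κ < ν ∧ ∃ b ∈ B.R, e = B.χ ν * b) : SF p B f κ D := by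
  classical
  have hchar : CharP Ω p := charP_of_injective_algebraMap (algebraMap k Ω).injective p
  obtain ⟨S, hS⟩ := Pool.Agent.LU1.A3.exists_finset_co V
  obtain ⟨l1, l2, l3, -⟩ := hLD
  simp only [mul_zero, add_zero, sub_zero] at l1 l2 l3
  have hκ : κ ∈ B.Γ := hV _ _ l3
  set Vκ : (Lau k)[X] := ∑ l ∈ V.support, C (mon κ (co V κ l)) * X ^ l with hVκ
  have hcoκ : ∀ γ l, co Vκ γ l = if γ = κ then co V γ l else 0 := by
    intro γ l
    rw [hVκ, co_sum]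
    have h3 : ∀ l' ∈ V.support, co (C (mon κ (co V κ l')) * X ^ l') γ l =
        if l' = l ∧ γ = κ then co V γ l else 0 := by
      intro l' _
      rw [C_mul_X_pow_eq_monomial, co_monomial]
      by_cases h4 : l' = l ∧ γ = κ
      · obtain ⟨rfl, rfl⟩ := h4
        rw [if_pos rfl, if_pos ⟨rfl, rfl⟩]
      · rw [if_neg h4, if_neg]
        intro h5
        exact h4 ⟨(Prod.ext_iff.1 h5).2, (Prod.ext_iff.1 h5).1.symm⟩
    rw [Finset.sum_congr rfl h3]
    by_cases h4 : γ = κ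
    · simp only [h4, and_true, if_true]
      rw [Finset.sum_ite_eq' V.support l fun _ => co V κ l]
      split_ifs with h5
      · rfl
      · by_contra h6
        exact h5 (Pool.Agent.LU1.DD.mem_support_of_co (Ne.symm h6))
    · simp only [h4, and_false, if_false]
      exact Finset.sum_const_zero
  set Vr : (Lau k)[X] := V - Vκ with hVr
  have hVsum : V = Vκ + Vr := by rw [hVr]; ring
  have hcor : ∀ γ l, co Vr γ l ≠ 0 → co V γ l ≠ 0 ∧ γ ≠ κ := by
    intro γ l h0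
    have h3 := congrArg (fun P => co P γ l) hVsum
    simp only [co_add, hcoκ] at h3
    by_cases h4 : γ = κ
    · rw [if_pos h4] at h3
      exfalso
      apply h0
      linear_combination -h3
    · rw [if_neg h4, zero_add] at h3
      rw [h3]
      exact ⟨h0, h4⟩
  obtain ⟨ν, hν, hκν, b, hb, rfl⟩ := he
  obtain ⟨ν', hν', hκν', hle, hgap⟩ := exists_gap hν hκν
    (S.filter fun a => a.1 ≠ κ) (fun a => a.1) (by
      intro a ha
      obtain ⟨h3, h4⟩ := Finset.mem_filter.1 ha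
      have h5 := (hS a.1 a.2).1 h3
      exact ⟨hV _ _ h5, lt_of_le_of_ne (l1 _ _ h5 trivial) (Ne.symm h4)⟩)
  obtain ⟨b1, hb1, hev1⟩ := B.ev_mem (P := Vr) (fun γ l h0 => hV γ l (hcor γ l h0).1) hν'
    (fun γ l h0 => hgap (γ, l) (Finset.mem_filter.2 ⟨(hS γ l).2 (hcor γ l h0).1, (hcor γ l h0).2⟩))
  set u : Ω := ∑ l ∈ V.support,
    if D ≤ l then algebraMap k Ω (co V κ l) * B.y ^ (l - D) else 0 with hu
  have hevκ : B.ev Vκ = B.χ κ * (u * B.y ^ D) := by
    rw [hVκ, B.ev_sum, hu, Finset.sum_mul, Finset.mul_sum]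
    refine Finset.sum_congr rfl fun l _ => ?_
    rw [B.ev_monomial]
    by_cases h3 : D ≤ l
    · rw [if_pos h3]
      have h4 : B.y ^ l = B.y ^ (l - D) * B.y ^ D := by
        rw [← pow_add, Nat.sub_add_cancel h3]
      rw [h4]
      ring
    · rw [if_neg h3]
      have h4 : co V κ l = 0 := by
        by_contra h5
        exact absurd (l2 κ l h5 trivial (by omega)) (lt_irrefl _)
      rw [h4, map_zero]
      ring
  have huR : u ∈ B.R := by
    rw [hu]
    refine B.R.sum_mem fun l _ => ?_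
    split_ifs
    · exact B.R.mul_mem (B.R.algebraMap_mem _) (B.R.pow_mem B.y_mem _)
    · exact B.R.zero_mem
  have huc : VPos v (u - algebraMap k Ω (co V κ D)) := by
    have hD : D ∈ V.support := Pool.Agent.LU1.DD.mem_support_of_co l3
    rw [hu, ← Finset.add_sum_erase _ _ hD, if_pos le_rfl, Nat.sub_self, pow_zero, mul_one,
      add_sub_cancel_left]
    have h3 : ∀ t : Finset ℕ, D ∉ t → VPos v (∑ l ∈ t,
        if D ≤ l then algebraMap k Ω (co V κ l) * B.y ^ (l - D) else 0) := by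
      intro t
      induction t using Finset.induction_on with
      | empty => intro _; rw [Finset.sum_empty]; exact VPos.zero
      | insert a t ha ih =>
        intro hDt
        rw [Finset.sum_insert ha]
        refine VPos.add ?_ (ih fun h4 => hDt (Finset.mem_insert_of_mem h4))
        split_ifs with h4
        · have h5 : D ≠ a := fun h6 => hDt (by rw [h6]; exact Finset.mem_insert_self a t)
          obtain ⟨n, hn⟩ : ∃ n, a - D = n + 1 := ⟨a - D - 1, by omega⟩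
          rw [hn, pow_succ]
          exact VPos.mul' (hC.ge _) (VPos.mul' (B.nonneg _ (B.R.pow_mem B.y_mem n)) B.vpos_y)
        · exact VPos.zero
    exact h3 _ (Finset.notMem_erase D _)
  have hc0 : algebraMap k Ω (co V κ D) ≠ 0 := by simpa using l3
  have huU : B.Un u := by
    have h3 := (BF.Un.const2 (B := B) hC l3).add_vpos (B.R.sub_mem huR
      (B.R.algebraMap_mem (co V κ D))) huc
    rwa [add_sub_cancel] at h3
  have hδ : ν' - κ ∈ B.Γ := B.Γ.sub_mem hν' hκ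
  refine ⟨hκ, g, hg, u, huU, ν' - κ, hδ, sub_pos.2 hκν', b1 + B.χ (ν - ν') * b,
    B.R.add_mem hb1 (B.R.mul_mem (B.χ_mem _ (B.Γ.sub_mem hν hν') (sub_nonneg.2 hle)) hb), ?_, ?_⟩
  · have h3 : B.χ κ * B.χ (ν' - κ) = B.χ ν' := by
      rw [← B.χ_add κ hκ _ hδ]
      congr 1; ring
    have h4 : B.χ ν' * B.χ (ν - ν') = B.χ ν := by
      rw [← B.χ_add ν' hν' _ (B.Γ.sub_mem hν hν')]
      congr 1; ring
    rw [hfe, hVsum, B.ev_add, hevκ, hev1, mul_add, ← mul_assoc (B.χ κ) (B.χ (ν' - κ)), h3,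
      mul_add, ← mul_assoc (B.χ ν'), h4, add_assoc]
  · by_cases h3 : Inv p B.Γ κ D
    · right; right
      intro t ht hvt
      obtain ⟨x, hx⟩ := hB t ht
      apply hN κ D l3 h3 x
      have h4 := (hvt.add (vpos_pow_sub p hx)).sub huc
      have h5 : u - t ^ p + (t ^ p - algebraMap k Ω x ^ p) - (u - algebraMap k Ω (co V κ D)) =
          algebraMap k Ω (co V κ D - x ^ p) := by
        rw [map_sub, map_pow]
        ring
      rw [h5] at h4
      exact sub_eq_zero.1 (hC.const_eq_zero h4)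
    · by_cases h4 : p ∣ D
      · left
        intro h5
        exact h3 ⟨h4, h5⟩
      · exact Or.inr (Or.inl h4)

end Pool.Agent.LU2T
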